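import Pool.Agent.Lib.MP_c50dba_nt.ZeroEst

set_option autoImplicit false

/-!
The zero estimate: induction.
-/

namespace Pool.Agent.Lib.MP_c50dba_nt

open MvPolynomial

variable {F : Type*} [Field F] {n d : ℕ}

/-- Evaluation of the coefficient polynomial. -/
lemma eval_pt_succ (γ : Fin d → Fin (n + 1) → F) (s : Fin d → ℕ) (P : MvPolynomial (Fin (n + 1)) F) :
    eval (pt γ s) P = Polynomial.eval (pt γ s 0)
      (Polynomial.map (eval (pt (fun k i => γ k (Fin.succ i)) s)) (finSuccEquiv F n P)) := by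
  rw [← eval_eq_eval_mv_eval']
  congr 1
  congr 1
  funext i
  refine Fin.cases ?_ (fun j => ?_) i
  · simp
  · simp [pt]

/-- The statement of the zero estimate in dimension `n`. -/
def ZE (F : Type*) [Field F] (d d₀ S N n : ℕ) : Prop :=
  ∀ γ : Fin d → Fin n → F, (∀ k i, γ k i ≠ 0) → LargeRank γ d₀ → ∀ L : ℕ, 1 ≤ L →
    ∀ P : MvPolynomial (Fin n) F, P ≠ 0 → (∀ i, degreeOf i P ≤ L) →
      (∀ s : Fin d → ℕ, (∀ k, s k < 2 ^ N * S) → eval (pt γ s) P = 0) →
        S ^ d₀ ≤ (2 * L) ^ (2 ^ N)

lemma ze_base {d₀ S : ℕ} (hS : 1 ≤ S) : ZE F d d₀ S 0 1 := by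
  classical
  intro γ hγ hrank L hL P hP hdeg hvan
  rw [pow_zero, one_mul] at hvan
  obtain ⟨I, hI, hI'⟩ := hrank (fun _ => 1) (by
    intro h
    have := congrFun h 0
    simp at this)
  -- the univariate polynomial
  set f := Polynomial.map (eval (Fin.elim0 : Fin 0 → F)) (finSuccEquiv F 0 P) with hf
  have hinj : Function.Injective (eval (Fin.elim0 : Fin 0 → F)) := by
    intro a b hab
    have ha : ∀ a : MvPolynomial (Fin 0) F, a = C (eval (Fin.elim0 : Fin 0 → F) a) := by
      intro a
      obtain ⟨c, hc⟩ := C_surjective (R := F) (Fin 0) a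
      rw [← hc, eval_C]
    rw [ha a, ha b, hab]
  have hf0 : f ≠ 0 := by
    rw [hf, Ne, Polynomial.map_eq_zero_iff hinj]
    simpa using hP
  have hfdeg : f.natDegree ≤ L := by
    refine (Polynomial.natDegree_map_le).trans ?_
    rw [natDegree_finSuccEquiv]
    exact hdeg 0
  have hroot : ∀ s : Fin d → ℕ, (∀ k, s k < S) → f.IsRoot (pt γ s 0) := by
    intro s hs
    have h1 := hvan s hs
    rw [eval_pt_succ] at h1
    have h2 : (pt (fun k i => γ k (Fin.succ i)) s) = (Fin.elim0 : Fin 0 → F) := by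
      funext i; exact i.elim0
    rw [h2] at h1
    exact h1
  -- the points supported on `I`
  set box := Fintype.piFinset (fun k : Fin d => if k ∈ I then Finset.range S else {0}) with hbox
  have hboxcard : S ^ d₀ ≤ box.card := by
    rw [hbox, Fintype.card_piFinset]
    have h1 : ∀ k : Fin d, (if k ∈ I then Finset.range S else ({0} : Finset ℕ)).card =
        if k ∈ I then S else 1 := by
      intro k
      split_ifs <;> simp
    rw [Finset.prod_congr rfl (fun k _ => h1 k), Finset.prod_ite]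
    simp only [Finset.prod_const, one_pow, mul_one]
    apply Nat.pow_le_pow_right hS
    simpa using hI
  have hmem : ∀ s ∈ box, (∀ k, s k < S) ∧ ∀ k, k ∉ I → s k = 0 := by
    intro s hs
    rw [hbox, Fintype.mem_piFinset] at hs
    refine ⟨fun k => ?_, fun k hk => ?_⟩
    · have := hs k
      split_ifs at this with h
      · exact Finset.mem_range.mp this
      · rw [Finset.mem_singleton.mp this]; omega
    · have := hs k
      rw [if_neg hk] at this
      exact Finset.mem_singleton.mp this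
  have hptinj : Set.InjOn (fun s : Fin d → ℕ => pt γ s 0) box := by
    intro s hs t ht hst
    have hs' := hmem s hs
    have ht' := hmem t ht
    simp only at hst
    refine eq_of_char_eq (m := Finsupp.single 0 1) (m' := 0) hγ (I := I) ?_ ?_ one_ne_zero ?_ ?_
    · intro u hu hprod
      apply hI' u hu
      rw [← hprod]
      simp
    · intro k hk
      rw [hs'.2 k hk, ht'.2 k hk]
    · simp [hst]
    · simp
  have h1 : (box.image (fun s => pt γ s 0)).card = box.card := Finset.card_image_of_injOn hptinj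
  have h2 : (box.image (fun s => pt γ s 0)) ⊆ f.roots.toFinset := by
    intro x hx
    obtain ⟨s, hs, rfl⟩ := Finset.mem_image.mp hx
    rw [Multiset.mem_toFinset, Polynomial.mem_roots hf0]
    exact hroot s (hmem s hs).1
  calc S ^ d₀ ≤ box.card := hboxcard
    _ = (box.image (fun s => pt γ s 0)).card := h1.symm
    _ ≤ f.roots.toFinset.card := Finset.card_le_card h2
    _ ≤ Multiset.card f.roots := Multiset.toFinset_card_le _
    _ ≤ f.natDegree := Polynomial.card_roots' f
    _ ≤ L := hfdeg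
    _ ≤ (2 * L) ^ (2 ^ 0) := by rw [pow_zero, pow_one]; omega

lemma ze_step {d₀ S N : ℕ} (hS : 1 ≤ S) (n : ℕ) (ih : ZE F d d₀ S N (n + 1)) :
    ZE F d d₀ S (N + 1) (n + 1 + 1) := by
  classical
  intro γ hγ hrank L hL P hP hdeg hvan
  set M := 2 ^ N * S with hM
  have hMpos : 0 < M := by positivity
  have hM2 : 2 ^ (N + 1) * S = 2 * M := by rw [hM, pow_succ]; ring
  rw [hM2] at hvan
  -- remove the powers of `X 0`
  obtain ⟨k, P', hX, hPP⟩ : ∃ (k : ℕ) (P' : MvPolynomial (Fin (n + 1 + 1)) F),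
      ¬ (X 0 : MvPolynomial (Fin (n + 1 + 1)) F) ∣ P' ∧ P = X 0 ^ k * P' := by
    have hnu : ¬ IsUnit (X 0 : MvPolynomial (Fin (n + 1 + 1)) F) := by
      intro h
      obtain ⟨c, _, hc⟩ := isUnit_iff_eq_C_of_isReduced.mp h
      have h1 := congrArg (degreeOf 0) hc
      rw [degreeOf_C, degreeOf_X] at h1
      simp at h1
    obtain ⟨k, P', h1, h2⟩ := WfDvdMonoid.max_power_factor' hP hnu
    exact ⟨k, P', h1, h2⟩
  have hP' : P' ≠ 0 := by
    intro h
    rw [h, mul_zero] at hPP
    exact hP hPP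
  have hdeg' : ∀ i, degreeOf i P' ≤ L := by
    intro i
    have h1 := hdeg i
    rw [hPP, degreeOf_mul_eq (pow_ne_zero _ (X_ne_zero _)) hP'] at h1
    omega
  have hvan' : ∀ s : Fin d → ℕ, (∀ k, s k < 2 * M) → eval (pt γ s) P' = 0 := by
    intro s hs
    have h1 := hvan s hs
    rw [hPP, map_mul, map_pow, eval_X] at h1
    exact (mul_eq_zero.mp h1).resolve_left (pow_ne_zero _ (pt_ne_zero γ hγ s 0))
  clear hPP hvan hdeg hP
  set γ' : Fin d → Fin (n + 1) → F := fun k i => γ k (Fin.succ i) with hγ'def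
  have hγ' : ∀ k i, γ' k i ≠ 0 := fun k i => hγ k _
  have hrank' : LargeRank γ' d₀ := hrank.tail
  have hpow : ∀ a : ℕ, a ^ (2 ^ N) ≤ (a ^ 2) ^ (2 ^ N) := by
    intro a
    apply Nat.pow_le_pow_left
    nlinarith [Nat.zero_le a, sq_nonneg a, Nat.le_self_pow (n := 2) (by norm_num) a]
  have hfin : ∀ a : ℕ, (a ^ 2) ^ (2 ^ N) = a ^ (2 ^ (N + 1)) := by
    intro a
    rw [← pow_mul]; congr 1; rw [pow_succ]; ring
  by_cases hd0 : degreeOf 0 P' = 0
  · -- no dependence on the first variable
    set f := finSuccEquiv F (n + 1) P' with hf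
    have hnd : f.natDegree = 0 := by rw [hf, natDegree_finSuccEquiv, hd0]
    obtain ⟨Q, hQ⟩ := Polynomial.natDegree_eq_zero.mp hnd
    have hQ0 : Q ≠ 0 := by
      intro h
      rw [h, map_zero] at hQ
      have : f ≠ 0 := by simpa [hf] using hP'
      exact this hQ.symm
    have h1 := ih γ' hγ' hrank' L hL Q hQ0 (by
      intro j
      have h2 := degreeOf_coeff_finSuccEquiv P' j 0
      rw [← hf, ← hQ, Polynomial.coeff_C_zero] at h2
      exact h2.trans (hdeg' _)) (by
      intro s hs
      have h3 := hvan' s (fun k => by have := hs k; omega)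
      rw [eval_pt_succ, ← hf, ← hQ, Polynomial.map_C, Polynomial.eval_C] at h3
      exact h3)
    calc S ^ d₀ ≤ (2 * L) ^ (2 ^ N) := h1
      _ ≤ ((2 * L) ^ 2) ^ (2 ^ N) := hpow _
      _ = (2 * L) ^ (2 ^ (N + 1)) := hfin _
  by_cases hres : ∃ s : Fin d → ℕ, (∀ k, s k < M) ∧
      Polynomial.resultant (finSuccEquiv F (n + 1) P') (finSuccEquiv F (n + 1) (tr (pt γ s) P')) ≠ 0
  · obtain ⟨s, hs, hne⟩ := hres
    set A := finSuccEquiv F (n + 1) P' with hA
    set B := finSuccEquiv F (n + 1) (tr (pt γ s) P') with hB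
    set R := Polynomial.resultant A B with hR
    have hAdeg : A.natDegree ≤ L := by rw [hA, natDegree_finSuccEquiv]; exact hdeg' 0
    have hBdeg : B.natDegree ≤ L := by
      rw [hB, natDegree_finSuccEquiv, degreeOf_tr _ (pt_ne_zero γ hγ s)]; exact hdeg' 0
    have hA0 : A.natDegree ≠ 0 := by rw [hA, natDegree_finSuccEquiv]; exact hd0
    obtain ⟨a, b, _, _, hab⟩ := Polynomial.exists_mul_add_mul_eq_C_resultant A B le_rfl le_rfl
      (Or.inl hA0)
    have h1 := ih γ' hγ' hrank' (2 * L ^ 2) (by nlinarith) R hne (by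
      intro j
      have h2 := degreeOf_resultant_le A B j L (fun i => (degreeOf_coeff_finSuccEquiv P' j i).trans (hdeg' _))
        (fun i => (degreeOf_coeff_finSuccEquiv _ j i).trans (by
          rw [degreeOf_tr _ (pt_ne_zero γ hγ s)]; exact hdeg' _))
      calc degreeOf j R ≤ (A.natDegree + B.natDegree) * L := h2
        _ ≤ (L + L) * L := by gcongr
        _ = 2 * L ^ 2 := by ring) (by
      intro t ht
      have h3 : eval (pt γ t) P' = 0 := hvan' t (fun k => by have := ht k; omega)
      have h4 : eval (pt γ t) (tr (pt γ s) P') = 0 := by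
        rw [eval_tr]
        have h5 : (fun i => pt γ s i * pt γ t i) = pt γ (s + t) := by
          funext i; rw [pt_add]
        rw [h5]
        apply hvan'
        intro k
        have := ht k
        have := hs k
        rw [Pi.add_apply]
        omega
      rw [eval_pt_succ] at h3 h4
      have h6 := congrArg (fun p => Polynomial.eval (pt γ t 0) (Polynomial.map (eval (pt γ' t)) p)) hab
      simp only [Polynomial.map_add, Polynomial.map_mul, Polynomial.eval_add, Polynomial.eval_mul,
        Polynomial.map_C, Polynomial.eval_C] at h6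
      rw [h3, h4, zero_mul, zero_mul, add_zero] at h6
      exact h6.symm)
    calc S ^ d₀ ≤ (2 * (2 * L ^ 2)) ^ (2 ^ N) := h1
      _ = ((2 * L) ^ 2) ^ (2 ^ N) := by congr 1; ring
      _ = (2 * L) ^ (2 ^ (N + 1)) := hfin _
  · push Not at hres
    have h1 := case_common (M := M) (L := L) hγ hrank hMpos hP' hX (hdeg' 0) (by
      intro s hs
      have hA0 : finSuccEquiv F (n + 1) P' ≠ 0 := by simpa using hP'
      have hB0 : finSuccEquiv F (n + 1) (tr (pt γ s) P') ≠ 0 := by
        simpa using tr_ne_zero _ (pt_ne_zero γ hγ s) hP'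
      obtain ⟨Q, hQ, hQd, hQA, hQB⟩ := common_factor _ _ hA0 hB0 (hres s hs)
      set e := finSuccEquiv F (n + 1) with he
      refine ⟨e.symm Q, (MulEquiv.irreducible_iff e.symm).mpr hQ, ?_, ?_, ?_⟩
      · rw [← natDegree_finSuccEquiv, ← he, AlgEquiv.apply_symm_apply]
        exact hQd
      · have := map_dvd e.symm hQA
        rwa [AlgEquiv.symm_apply_apply] at this
      · have := map_dvd e.symm hQB
        rwa [AlgEquiv.symm_apply_apply] at this)
    have h2 : S ^ d₀ ≤ M ^ d₀ := Nat.pow_le_pow_left (by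
      rw [hM]
      exact Nat.le_mul_of_pos_left S (by positivity)) _
    calc S ^ d₀ ≤ L ^ 2 := h2.trans h1
      _ ≤ (2 * L) ^ 2 := Nat.pow_le_pow_left (by omega) 2
      _ ≤ ((2 * L) ^ 2) ^ (2 ^ N) := Nat.le_self_pow (by positivity) _
      _ = (2 * L) ^ (2 ^ (N + 1)) := hfin _

/-- The zero estimate. -/
theorem zero_estimate {d₀ S : ℕ} (hS : 1 ≤ S) (n : ℕ) : ZE F d d₀ S n (n + 1) := by
  induction n with
  | zero => exact ze_base hS
  | succ n ih => exact ze_step hS n ih

end Pool.Agent.Lib.MP_c50dba_nt
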