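import Pool.Agent.Lib.MP_c50dba_nt.MultiExp
import Pool.Agent.Lib.MP_c50dba_nt.ZeroEst2

set_option autoImplicit false

/-!
Existence of a polynomial vanishing at many points, from interpolation determinants.
-/

namespace Pool.Agent.Lib.MP_c50dba_nt

open NumberField Module

variable {p : ℕ} [hp : Fact p.Prime]

lemma house_det_le {K : Type*} [Field K] [NumberField K] {ι : Type*} [Fintype ι] [DecidableEq ι]
    (M : Matrix ι ι K) (H : ℝ) (h : ∀ i j, house (M i j) ≤ H) :
    house M.det ≤ (Fintype.card ι).factorial * H ^ (Fintype.card ι) := by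
  rw [Matrix.det_apply']
  refine (house_sum_le_sum_house _ _).trans ?_
  calc ∑ σ : Equiv.Perm ι, house (((Equiv.Perm.sign σ : ℤ) : K) * ∏ i, M (σ i) i) ≤
      ∑ _σ : Equiv.Perm ι, H ^ (Fintype.card ι) := by
        apply Finset.sum_le_sum
        intro σ _
        refine (house_mul_le _ _).trans ?_
        have h1 : house (((Equiv.Perm.sign σ : ℤ) : K)) = 1 := by
          rw [house_intCast]
          rcases Int.units_eq_one_or (Equiv.Perm.sign σ) with h | h <;> simp [h]
        rw [h1, one_mul]
        refine (house_prod_le' _ _).trans ?_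
        calc ∏ i, house (M (σ i) i) ≤ ∏ _i : ι, H :=
              Finset.prod_le_prod (fun _ _ => house_nonneg _) (fun i _ => h _ _)
          _ = H ^ (Fintype.card ι) := by simp
    _ = _ := by
        rw [Finset.sum_const, Finset.card_univ, Fintype.card_perm, nsmul_eq_mul]

lemma interp_param (D n A g S r : ℕ) (hr : 1 ≤ r) (hn : n = r + 1) :
    ∃ L T : ℕ, 1 ≤ L ∧ L ≤ ((2 * (2 * D * n * (1 + A * g) + 1)) * (S + 1)) ^ r ∧
      D * (L ^ n * (n * L + A * (n * g * L * S))) < T * (L ^ n - T ^ r) := by
  set u := 2 * D * n * (1 + A * g * S) + 1 with hu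
  have hu1 : 1 ≤ u := by omega
  have huS : u ≤ (2 * D * n * (1 + A * g) + 1) * (S + 1) := by
    rw [hu]
    have h1 : 2 * D * n * (1 + A * g * S) ≤ 2 * D * n * ((1 + A * g) * (S + 1)) := by
      apply Nat.mul_le_mul_left
      nlinarith [Nat.zero_le (A * g), Nat.zero_le (A * g * S), Nat.zero_le S]
    calc 2 * D * n * (1 + A * g * S) + 1 ≤ 2 * D * n * ((1 + A * g) * (S + 1)) + 1 * (S + 1) := by
          have : 1 ≤ 1 * (S + 1) := by omega
          omega
      _ = _ := by ring
  refine ⟨(2 * u) ^ r, (2 * u) ^ r * u, Nat.one_le_pow _ _ (by omega), ?_, ?_⟩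
  · apply Nat.pow_le_pow_left
    calc 2 * u ≤ 2 * ((2 * D * n * (1 + A * g) + 1) * (S + 1)) := by omega
      _ = _ := by ring
  · set L := (2 * u) ^ r with hL
    have hLpos : 0 < L := by positivity
    set T := L * u with hT
    have hN : L ^ n = 2 ^ r * T ^ r := by
      rw [hn, hT, hL, ← mul_pow, ← pow_mul, mul_comm r (r + 1), pow_mul]
      congr 1
      rw [pow_succ]; ring
    have hN2 : 2 * T ^ r ≤ L ^ n := by
      rw [hN]
      have : 2 ≤ 2 ^ r := by
        calc 2 = 2 ^ 1 := by norm_num
          _ ≤ 2 ^ r := Nat.pow_le_pow_right (by norm_num) hr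
      exact Nat.mul_le_mul_right _ this
    have hNpos : 0 < L ^ n := by positivity
    have h1 : L ^ n ≤ 2 * (L ^ n - T ^ r) := by omega
    have h2 : 2 * (D * (L ^ n * (n * L + A * (n * g * L * S)))) < 2 * (T * (L ^ n - T ^ r)) := by
      calc 2 * (D * (L ^ n * (n * L + A * (n * g * L * S)))) =
            (2 * D * n * (1 + A * g * S)) * (L * L ^ n) := by ring
        _ < u * (L * L ^ n) := by
            apply Nat.mul_lt_mul_of_pos_right
            · omega
            · positivity
        _ = T * L ^ n := by rw [hT]; ring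
        _ ≤ T * (2 * (L ^ n - T ^ r)) := Nat.mul_le_mul_left _ h1
        _ = 2 * (T * (L ^ n - T ^ r)) := by ring
    omega

/-- Existence of a nonzero polynomial of controlled degree vanishing at many points. -/
theorem exists_poly {C : Type*} [NormedField C] [CompleteSpace C] [IsUltrametricDist C]
    [NormedAlgebra ℚ_[p] C] (r : ℕ) (hr : 1 ≤ r) (g : ℕ) {K : Type*} [Field K] [NumberField K]
    (φ : K →+* C) (a : Fin g → Fin (r + 1) → K) (y : Fin g → Fin (r + 1) → C)
    (hy : ∀ k i, ‖y k i‖ ≤ 1 / 4) (ha : ∀ k i, φ (a k i) = ex (y k i))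
    (i₀ : Fin (r + 1)) (b : Fin r → C) (hb : ∀ i, ‖b i‖ ≤ 1)
    (hrel : ∀ k, y k i₀ = ∑ i, b i * y k (i₀.succAbove i)) :
    ∃ C₁ : ℕ, ∀ S, 1 ≤ S → ∃ P : MvPolynomial (Fin (r + 1)) K, P ≠ 0 ∧
      (∀ i, MvPolynomial.degreeOf i P ≤ (C₁ * S) ^ r) ∧
      ∀ s : Fin g → ℕ, (∀ k, s k < S) → MvPolynomial.eval (pt a s) P = 0 := by
  classical
  obtain ⟨dd, β, A, hdd0, hβ, hddA, hβA⟩ := exists_denominator K
    (fun ki : Fin g × Fin (r + 1) => a ki.1 ki.2)
  set D := finrank ℚ K with hD
  refine ⟨(2 * (2 * D * (r + 1) * (1 + A * g) + 1)) * 2, ?_⟩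
  intro S hS
  obtain ⟨L, T, hL1, hLle, hparam⟩ := interp_param D (r + 1) A g S r hr rfl
  have hLle' : L ≤ ((2 * (2 * D * (r + 1) * (1 + A * g) + 1)) * 2 * S) ^ r := by
    refine hLle.trans (Nat.pow_le_pow_left ?_ r)
    calc (2 * (2 * D * (r + 1) * (1 + A * g) + 1)) * (S + 1) ≤
          (2 * (2 * D * (r + 1) * (1 + A * g) + 1)) * (2 * S) := Nat.mul_le_mul_left _ (by omega)
      _ = _ := by ring
  let ι := Fin (r + 1) → Fin L
  have hιcard : Fintype.card ι = L ^ (r + 1) := by simp [ι]
  let Pt := Fin g → Fin S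
  let M : Matrix ι Pt K := Matrix.of (fun m s => ∏ i, (pt a (fun k => (s k : ℕ)) i) ^ (m i : ℕ))
  -- the rows are dependent
  have hdep : ¬ LinearIndependent K (fun m => M m) := by
    intro hli
    obtain ⟨c, hcinj, hdet⟩ := exists_minor_ne_zero M hli
    set Δ := (M.submatrix id c).det with hΔ
    -- exponent sums
    let E : ι → ι → ℕ := fun m m' => ∑ k, ∑ i, (m i : ℕ) * (c m' k : ℕ)
    set e := (r + 1) * g * L * S with he
    have hEe : ∀ m m', E m m' ≤ e := by
      intro m m'
      calc E m m' ≤ ∑ _k : Fin g, ∑ _i : Fin (r + 1), L * S := by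
            apply Finset.sum_le_sum
            intro k _
            apply Finset.sum_le_sum
            intro i _
            exact Nat.mul_le_mul (m i).isLt.le (c m' k).isLt.le
        _ = e := by simp [he]; ring
    let bb : ι → ι → 𝓞 K := fun m m' => (dd : 𝓞 K) ^ (e - E m m') *
      ∏ k, ∏ i, (β (k, i)) ^ ((m i : ℕ) * (c m' k : ℕ))
    have hbbK' : ∀ m m', ((bb m m' : 𝓞 K) : K) = (dd : K) ^ (e - E m m') *
        ∏ k, ∏ i, ((dd : K) * a k i) ^ ((m i : ℕ) * (c m' k : ℕ)) := by
      intro m m'
      have h5 : ∀ x : 𝓞 K, (x : K) = algebraMap (𝓞 K) K x := fun _ => rfl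
      have h6 : ∀ ki, algebraMap (𝓞 K) K (β ki) = (dd : K) * a ki.1 ki.2 := fun ki => hβ ki
      simp only [bb]
      rw [h5, map_mul, map_pow, map_natCast, map_prod]
      congr 1
      apply Finset.prod_congr rfl
      intro k _
      rw [map_prod]
      apply Finset.prod_congr rfl
      intro i _
      rw [map_pow, h6]
    have hbbK : ∀ m m', ((bb m m' : 𝓞 K) : K) = (dd : K) ^ e * M m (c m') := by
      intro m m'
      rw [hbbK']
      have h1 : ∀ k i, ((dd : K) * a k i) ^ ((m i : ℕ) * (c m' k : ℕ)) =
          (dd : K) ^ ((m i : ℕ) * (c m' k : ℕ)) * a k i ^ ((m i : ℕ) * (c m' k : ℕ)) :=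
        fun k i => mul_pow _ _ _
      simp only [h1, Finset.prod_mul_distrib, Finset.prod_pow_eq_pow_sum]
      rw [← mul_assoc, ← pow_add]
      have h2 : e - E m m' + ∑ k, ∑ i, (m i : ℕ) * (c m' k : ℕ) = e := by
        have := hEe m m'
        simp only [E] at this ⊢
        omega
      rw [h2]
      congr 1
      simp only [M, Matrix.of_apply, pt]
      simp only [← Finset.prod_pow, ← pow_mul]
      rw [Finset.prod_comm]
      apply Finset.prod_congr rfl
      intro i _
      apply Finset.prod_congr rfl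
      intro k _
      rw [mul_comm]
    have hbbH : ∀ m m', house ((bb m m' : 𝓞 K) : K) ≤ 2 ^ (A * e) := by
      intro m m'
      have hd' : house ((dd : K)) ≤ 2 ^ A := by
        have := house_intCast (K := K) (dd : ℤ)
        simp only [Int.cast_natCast] at this
        rw [this]
        simpa using hddA
      have hβ' : ∀ k i, house ((dd : K) * a k i) ≤ 2 ^ A := by
        intro k i
        have := hβA (k, i)
        rwa [hβ (k, i)] at this
      rw [hbbK']
      calc _ ≤ house ((dd : K) ^ (e - E m m')) *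
            house (∏ k, ∏ i, ((dd : K) * a k i) ^ ((m i : ℕ) * (c m' k : ℕ))) := house_mul_le _ _
        _ ≤ (2 ^ A) ^ (e - E m m') * ∏ k, ∏ i, (2 ^ A : ℝ) ^ ((m i : ℕ) * (c m' k : ℕ)) := by
            gcongr
            · exact house_nonneg _
            · exact (house_pow_le _ _).trans (pow_le_pow_left₀ (house_nonneg _) hd' _)
            · refine (house_prod_le' _ _).trans ?_
              apply Finset.prod_le_prod (fun _ _ => house_nonneg _)
              intro k _
              refine (house_prod_le' _ _).trans ?_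
              apply Finset.prod_le_prod (fun _ _ => house_nonneg _)
              intro i _
              exact (house_pow_le _ _).trans (pow_le_pow_left₀ (house_nonneg _) (hβ' k i) _)
        _ = 2 ^ (A * e) := by
            simp only [Finset.prod_pow_eq_pow_sum]
            rw [← pow_add, ← pow_mul]
            congr 1
            have := hEe m m'
            simp only [E] at this ⊢
            rw [Nat.sub_add_cancel this]
    -- the integral determinant
    set B : 𝓞 K := (Matrix.of bb).det with hB
    have hBK : ((B : 𝓞 K) : K) = ((dd : K) ^ e) ^ (Fintype.card ι) * Δ := by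
      have h1 : ((B : 𝓞 K) : K) = ((algebraMap (𝓞 K) K).mapMatrix (Matrix.of bb)).det := by
        rw [hB]
        exact RingHom.map_det _ _
      have h2 : (algebraMap (𝓞 K) K).mapMatrix (Matrix.of bb) = ((dd : K) ^ e) • (M.submatrix id c) := by
        ext m m'
        rw [RingHom.mapMatrix_apply, Matrix.map_apply, Matrix.smul_apply, Matrix.of_apply,
          Matrix.submatrix_apply, smul_eq_mul]
        exact hbbK m m'
      rw [h1, h2, Matrix.det_smul]
    have hB0 : B ≠ 0 := by
      intro h
      rw [h] at hBK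
      have h1 : ((0 : 𝓞 K) : K) = 0 := rfl
      rw [h1] at hBK
      have h2 : ((dd : K) ^ e) ^ (Fintype.card ι) ≠ 0 :=
        pow_ne_zero _ (pow_ne_zero _ (by exact_mod_cast hdd0))
      exact hdet ((mul_eq_zero.mp hBK.symm).resolve_left h2)
    have hBH : house ((B : 𝓞 K) : K) ≤ (Fintype.card ι).factorial * (2 ^ (A * e)) ^ (Fintype.card ι) := by
      have h1 : ((B : 𝓞 K) : K) = (Matrix.of (fun m m' => ((bb m m' : 𝓞 K) : K))).det := by
        rw [hB]
        exact RingHom.map_det (algebraMap (𝓞 K) K) _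
      rw [h1]
      exact house_det_le _ _ (fun m m' => hbbH m m')
    have hliou := liouville (p := p) φ B hB0 hBH
    -- the analytic upper bound
    have hup : ‖φ Δ‖ ≤ (1 / 2) ^ (T * (Fintype.card ι - T ^ r)) := by
      let η : ι → Fin (r + 1) → C := fun m' i => ∑ k, ((c m' k : ℕ) : C) * y k i
      have hη : ∀ m' i, ‖η m' i‖ ≤ 1 / 4 := by
        intro m' i
        apply IsUltrametricDist.norm_sum_le_of_forall_le_of_nonneg (by norm_num)
        intro k _
        rw [norm_mul]
        calc ‖((c m' k : ℕ) : C)‖ * ‖y k i‖ ≤ 1 * (1 / 4) := by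
              gcongr
              · exact IsUltrametricDist.norm_natCast_le_one C _
              · exact hy k i
          _ = 1 / 4 := one_mul _
      have hηrel : ∀ m', η m' i₀ = ∑ i, b i * η m' (i₀.succAbove i) := by
        intro m'
        simp only [η]
        simp only [hrel, Finset.mul_sum]
        rw [Finset.sum_comm]
        apply Finset.sum_congr rfl
        intro i _
        apply Finset.sum_congr rfl
        intro k _
        ring
      let w : ι → Fin r → C := fun m i => ((m (i₀.succAbove i) : ℕ) : C) + ((m i₀ : ℕ) : C) * b i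
      let z : ι → Fin r → C := fun m' i => η m' (i₀.succAbove i)
      have hw : ∀ m i, ‖w m i‖ ≤ 1 := by
        intro m i
        refine (IsUltrametricDist.norm_add_le_max _ _).trans (max_le ?_ ?_)
        · exact IsUltrametricDist.norm_natCast_le_one C _
        · rw [norm_mul]
          exact mul_le_one₀ (IsUltrametricDist.norm_natCast_le_one C _) (norm_nonneg _) (hb i)
      have h1 := norm_det_exp_le (p := p) r T w z hw (fun m' i => hη m' _)
      have h2 : φ Δ = (Matrix.of (fun m s => ex (∑ i, w m i * z s i))).det := by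
        rw [hΔ, RingHom.map_det]
        congr 1
        ext m m'
        rw [RingHom.mapMatrix_apply, Matrix.map_apply, Matrix.submatrix_apply, Matrix.of_apply]
        have h3 : ∑ i, w m i * z m' i = ∑ i : Fin (r + 1), ∑ k,
            ((((m i : ℕ) * (c m' k : ℕ) : ℕ) : C) * y k i) := by
          have h4 : ∀ i : Fin (r + 1), ∑ k, ((((m i : ℕ) * (c m' k : ℕ) : ℕ) : C) * y k i) =
              ((m i : ℕ) : C) * η m' i := by
            intro i
            simp only [η, Finset.mul_sum]
            apply Finset.sum_congr rfl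
            intro k _
            push_cast
            ring
          rw [Finset.sum_congr rfl (fun i _ => h4 i), Fin.sum_univ_succAbove _ i₀, hηrel m',
            Finset.mul_sum, ← Finset.sum_add_distrib]
          apply Finset.sum_congr rfl
          intro i _
          simp only [w, z]
          ring
        have h5 : ∀ i k, ‖((((m i : ℕ) * (c m' k : ℕ) : ℕ) : C) * y k i)‖ ≤ 1 / 4 := by
          intro i k
          rw [norm_mul]
          calc ‖(((m i : ℕ) * (c m' k : ℕ) : ℕ) : C)‖ * ‖y k i‖ ≤ 1 * (1 / 4) := by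
                gcongr
                · exact IsUltrametricDist.norm_natCast_le_one C _
                · exact hy k i
            _ = 1 / 4 := one_mul _
        rw [h3, ex_sum (p := p)]
        · simp only [M, Matrix.of_apply, pt, id]
          rw [map_prod]
          apply Finset.prod_congr rfl
          intro i _
          rw [ex_sum (p := p) _ _ (fun k _ => h5 i k), map_pow, map_prod, ← Finset.prod_pow]
          apply Finset.prod_congr rfl
          intro k _
          rw [ex_nat_mul (p := p) (hy k i), map_pow, ha, ← pow_mul, mul_comm]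
        · intro i _
          apply IsUltrametricDist.norm_sum_le_of_forall_le_of_nonneg (by norm_num)
          intro k _
          exact h5 i k
      rw [h2]
      exact h1
    -- comparison
    have hBup : ‖φ ((B : 𝓞 K) : K)‖ ≤ (1 / 2) ^ (T * (Fintype.card ι - T ^ r)) := by
      rw [hBK, map_mul, map_pow, map_pow, map_natCast, norm_mul, norm_pow, norm_pow]
      calc (‖(dd : C)‖ ^ e) ^ (Fintype.card ι) * ‖φ Δ‖ ≤ 1 * (1 / 2) ^ (T * (Fintype.card ι - T ^ r)) := by
            gcongr
            exact pow_le_one₀ (by positivity) (pow_le_one₀ (norm_nonneg _)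
              (IsUltrametricDist.norm_natCast_le_one C _))
        _ = _ := one_mul _
    have hH : ((Fintype.card ι).factorial * (2 ^ (A * e)) ^ (Fintype.card ι) : ℝ) ≤
        2 ^ (L ^ (r + 1) * ((r + 1) * L + A * e)) := by
      have h1 : (Fintype.card ι).factorial ≤ 2 ^ (L ^ (r + 1) * ((r + 1) * L)) := by
        have h2 : Fintype.card ι ≤ 2 ^ ((r + 1) * L) := by
          rw [hιcard, mul_comm (r + 1) L, pow_mul]
          exact Nat.pow_le_pow_left (Nat.lt_two_pow_self).le (r + 1)
        calc (Fintype.card ι).factorial ≤ (Fintype.card ι) ^ (Fintype.card ι) := Nat.factorial_le_pow _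
          _ ≤ (2 ^ ((r + 1) * L)) ^ (Fintype.card ι) := Nat.pow_le_pow_left h2 _
          _ = 2 ^ (L ^ (r + 1) * ((r + 1) * L)) := by rw [hιcard, ← pow_mul, mul_comm]
      have h1' : ((Fintype.card ι).factorial : ℝ) ≤ 2 ^ (L ^ (r + 1) * ((r + 1) * L)) := by exact_mod_cast h1
      calc ((Fintype.card ι).factorial * (2 ^ (A * e)) ^ (Fintype.card ι) : ℝ) ≤
            2 ^ (L ^ (r + 1) * ((r + 1) * L)) * (2 ^ (A * e)) ^ (Fintype.card ι) := by gcongr
        _ = 2 ^ (L ^ (r + 1) * ((r + 1) * L + A * e)) := by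
            rw [hιcard, ← pow_mul, ← pow_add]
            congr 1
            ring
    have hfin : (1 : ℝ) ≤ (1 / 2) ^ (T * (Fintype.card ι - T ^ r)) *
        2 ^ (D * (L ^ (r + 1) * ((r + 1) * L + A * e))) := by
      calc (1 : ℝ) ≤ ‖φ ((B : 𝓞 K) : K)‖ *
            ((Fintype.card ι).factorial * (2 ^ (A * e)) ^ (Fintype.card ι)) ^ D := hliou
        _ ≤ (1 / 2) ^ (T * (Fintype.card ι - T ^ r)) * (2 ^ (L ^ (r + 1) * ((r + 1) * L + A * e))) ^ D := by
            gcongr
        _ = _ := by rw [← pow_mul, mul_comm D]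
    have hlt : (1 / 2 : ℝ) ^ (T * (Fintype.card ι - T ^ r)) *
        2 ^ (D * (L ^ (r + 1) * ((r + 1) * L + A * e))) < 1 := by
      rw [hιcard]
      have h1 : (2 : ℝ) ^ (D * (L ^ (r + 1) * ((r + 1) * L + A * e))) < 2 ^ (T * (L ^ (r + 1) - T ^ r)) :=
        pow_lt_pow_right₀ (by norm_num) hparam
      calc (1 / 2 : ℝ) ^ (T * (L ^ (r + 1) - T ^ r)) * 2 ^ (D * (L ^ (r + 1) * ((r + 1) * L + A * e))) <
            (1 / 2 : ℝ) ^ (T * (L ^ (r + 1) - T ^ r)) * 2 ^ (T * (L ^ (r + 1) - T ^ r)) := by gcongr
        _ = 1 := by rw [← mul_pow]; norm_num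
    linarith
  -- the polynomial
  rw [Fintype.not_linearIndependent_iff] at hdep
  obtain ⟨q, hq, m₀, hm₀⟩ := hdep
  let toF : ι → (Fin (r + 1) →₀ ℕ) := fun m => Finsupp.equivFunOnFinite.symm (fun i => (m i : ℕ))
  have htoF : ∀ m i, toF m i = (m i : ℕ) := fun m i => rfl
  have htoFinj : Function.Injective toF := by
    intro m m' h
    funext i
    apply Fin.ext
    rw [← htoF, ← htoF, h]
  refine ⟨∑ m, MvPolynomial.monomial (toF m) (q m), ?_, ?_, ?_⟩
  · intro h
    apply hm₀
    have h1 := congrArg (MvPolynomial.coeff (toF m₀)) h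
    rw [MvPolynomial.coeff_sum, MvPolynomial.coeff_zero] at h1
    simp only [MvPolynomial.coeff_monomial] at h1
    rw [Finset.sum_eq_single m₀] at h1
    · simpa using h1
    · intro m _ hm
      rw [if_neg (fun h => hm (htoFinj h))]
    · intro h
      exact absurd (Finset.mem_univ _) h
  · intro i
    refine (MvPolynomial.degreeOf_sum_le i _ _).trans ?_
    apply Finset.sup_le
    intro m _
    by_cases hqm : q m = 0
    · simp [hqm]
    · rw [MvPolynomial.degreeOf_monomial_eq _ _ hqm, htoF]
      exact (m i).isLt.le.trans hLle'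
  · intro s hs
    rw [map_sum]
    have h1 := congrFun hq (fun k => (⟨s k, hs k⟩ : Fin S))
    rw [Finset.sum_apply] at h1
    simp only [Pi.zero_apply] at h1
    rw [← h1]
    apply Finset.sum_congr rfl
    intro m _
    rw [MvPolynomial.eval_monomial, Finsupp.prod_fintype _ _ (fun i => pow_zero _)]
    simp only [M, Matrix.of_apply, Pi.smul_apply, smul_eq_mul, htoF]

end Pool.Agent.Lib.MP_c50dba_nt
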