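import Mathlib

set_option autoImplicit false

/-!
Orbits of a group acting on a rational vector space whose span has small dimension.
-/

namespace Pool.Agent.Lib.MP_c50dba_nt

variable {Γ : Type*} [Group Γ] {V : Type*} [AddCommGroup V] [Module ℚ V] [DistribMulAction Γ V]

lemma smul_rat (g : Γ) (q : ℚ) (v : V) : g • (q • v) = q • (g • v) :=
  map_rat_smul (DistribSMul.toAddMonoidHom V g) q v

lemma exists_pow_smul_eq {x : V} (hfin : (MulAction.orbit Γ x).Finite) (g : Γ) :
    ∃ n : ℕ, 0 < n ∧ g ^ n • x = x := by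
  have : Finite (MulAction.orbit Γ x) := hfin
  obtain ⟨i, j, hij, h⟩ := Finite.exists_ne_map_eq_of_infinite
    (fun n : ℕ => (⟨g ^ n • x, MulAction.mem_orbit _ _⟩ : MulAction.orbit Γ x))
  have h' : g ^ i • x = g ^ j • x := congrArg Subtype.val h
  rcases lt_or_gt_of_ne hij with hlt | hlt
  · refine ⟨j - i, by omega, ?_⟩
    have h1 : g ^ j = g ^ i * g ^ (j - i) := by rw [← pow_add]; congr 1; omega
    rw [h1, mul_smul] at h'
    exact (smul_left_cancel _ h').symm
  · refine ⟨i - j, by omega, ?_⟩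
    have h1 : g ^ i = g ^ j * g ^ (i - j) := by rw [← pow_add]; congr 1; omega
    rw [h1, mul_smul] at h'
    exact smul_left_cancel _ h'

lemma pair_ext {x z : V} (hxz : LinearIndependent ℚ ![x, z]) {a b c d : ℚ}
    (h : a • x + b • z = c • x + d • z) : a = c ∧ b = d := by
  rw [LinearIndependent.pair_iff] at hxz
  have h1 : (a - c) • x + (b - d) • z = 0 := by
    rw [sub_smul, sub_smul]
    have := sub_eq_zero.mpr h
    rw [← this]
    abel
  obtain ⟨h2, h3⟩ := hxz _ _ h1
  exact ⟨sub_eq_zero.mp h2, sub_eq_zero.mp h3⟩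

lemma exists_coords {x z w : V} (hxz : LinearIndependent ℚ ![x, z])
    (h : ¬ LinearIndependent ℚ ![x, z, w]) : ∃ a b : ℚ, w = a • x + b • z := by
  rw [Fintype.not_linearIndependent_iff] at h
  obtain ⟨g, hg, i, hi⟩ := h
  rw [Fin.sum_univ_three] at hg
  simp only [Matrix.cons_val_zero, Matrix.cons_val_one, Matrix.cons_val_two, Matrix.tail_cons,
    Matrix.head_cons, Matrix.cons_val] at hg
  have hg2 : g 2 ≠ 0 := by
    intro h0
    rw [h0, zero_smul, add_zero] at hg
    rw [LinearIndependent.pair_iff] at hxz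
    obtain ⟨h1, h2⟩ := hxz _ _ hg
    apply hi
    fin_cases i
    · exact h1
    · exact h2
    · exact h0
  refine ⟨-(g 2)⁻¹ * g 0, -(g 2)⁻¹ * g 1, ?_⟩
  have h1 : g 2 • w = -(g 0 • x + g 1 • z) := by
    rw [eq_neg_iff_add_eq_zero, add_comm]
    exact hg
  have h2 : w = (g 2)⁻¹ • (g 2 • w) := by rw [smul_smul, inv_mul_cancel₀ hg2, one_smul]
  rw [h2, h1, smul_neg, smul_add, smul_smul, smul_smul, neg_mul, neg_mul, neg_smul, neg_smul]
  abel

lemma rat_pow_eq_one {a : ℚ} {n : ℕ} (hn : 0 < n) (h : a ^ n = 1) : a = 1 ∨ a = -1 := by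
  have h1 : |a| ^ n = 1 := by rw [← abs_pow, h, abs_one]
  have h2 : |a| = 1 := (pow_eq_one_iff_of_nonneg (abs_nonneg a) hn.ne').mp h1
  exact eq_or_eq_neg_of_abs_eq h2

/-- With a fixed vector: the orbit has at most two elements. -/
lemma orbit_le_two {x z : V} (hfin : (MulAction.orbit Γ x).Finite) (hz : ∀ g : Γ, g • z = z)
    (hxz : LinearIndependent ℚ ![x, z]) (hdep : ∀ g : Γ, ¬ LinearIndependent ℚ ![x, z, g • x]) :
    (MulAction.orbit Γ x).ncard ≤ 2 := by
  classical
  have hco : ∀ g : Γ, ∃ a b : ℚ, g • x = a • x + b • z := fun g => exists_coords hxz (hdep g)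
  choose a b hab using hco
  have hpow : ∀ (g : Γ) (n : ℕ), ∃ c : ℚ, g ^ n • x = (a g) ^ n • x + c • z := by
    intro g n
    induction n with
    | zero => exact ⟨0, by simp⟩
    | succ n ih =>
      obtain ⟨c, hc⟩ := ih
      refine ⟨(a g) ^ n * b g + c, ?_⟩
      rw [pow_succ', mul_smul, hc, smul_add, smul_rat, smul_rat, hz, hab g, smul_add, smul_smul,
        smul_smul, add_smul, pow_succ]
      abel
  have ha : ∀ g : Γ, a g = 1 ∨ a g = -1 := by
    intro g
    obtain ⟨n, hn, hgn⟩ := exists_pow_smul_eq hfin g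
    obtain ⟨c, hc⟩ := hpow g n
    rw [hgn] at hc
    have h1 : (1 : ℚ) • x + (0 : ℚ) • z = (a g) ^ n • x + c • z := by
      rw [one_smul, zero_smul, add_zero]; exact hc
    exact rat_pow_eq_one hn (pair_ext hxz h1).1.symm
  have h1 : ∀ g : Γ, a g = 1 → g • x = x := by
    intro g hg
    obtain ⟨n, hn, hgn⟩ := exists_pow_smul_eq hfin g
    have h2 : ∀ m : ℕ, g ^ m • x = x + ((m : ℚ) * b g) • z := by
      intro m
      induction m with
      | zero => simp
      | succ m ih =>
        rw [pow_succ', mul_smul, ih, smul_add, smul_rat, hz, hab g, hg, one_smul]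
        push_cast
        rw [add_mul, one_mul, add_smul]
        abel
    have h3 := h2 n
    rw [hgn] at h3
    have h4 : (1 : ℚ) • x + (0 : ℚ) • z = (1 : ℚ) • x + ((n : ℚ) * b g) • z := by
      rw [one_smul, zero_smul, add_zero]; exact h3
    have h5 := (pair_ext hxz h4).2
    have h6 : (n : ℚ) ≠ 0 := by exact_mod_cast hn.ne'
    have h7 : b g = 0 := (mul_eq_zero.mp h5.symm).resolve_left h6
    rw [hab g, hg, h7, one_smul, zero_smul, add_zero]
  have h2 : ∀ g h : Γ, a g = -1 → a h = -1 → g • x = h • x := by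
    intro g h hg hh
    have h3 : (h * g) • x = x + (b g - b h) • z := by
      rw [mul_smul, hab g, smul_add, smul_rat, smul_rat, hz, hab h, hg, hh, smul_add, smul_smul,
        smul_smul, sub_smul]
      norm_num
      abel
    have h4 : a (h * g) = 1 := by
      have h5 : a (h * g) • x + b (h * g) • z = (1 : ℚ) • x + (b g - b h) • z := by
        rw [← hab, h3, one_smul]
      exact (pair_ext hxz h5).1
    have h5 := h1 _ h4
    rw [h3] at h5
    have h6 : (1 : ℚ) • x + (b g - b h) • z = (1 : ℚ) • x + (0 : ℚ) • z := by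
      rw [one_smul, zero_smul, add_zero]; exact h5
    have h7 := (pair_ext hxz h6).2
    have h8 : b g = b h := sub_eq_zero.mp h7
    rw [hab g, hab h, hg, hh, h8]
  by_cases hex : ∃ g : Γ, a g = -1
  · obtain ⟨g, hg⟩ := hex
    have hsub : MulAction.orbit Γ x ⊆ (({x, g • x} : Finset V) : Set V) := by
      rintro _ ⟨h, rfl⟩
      rcases ha h with hh | hh
      · simp [h1 h hh]
      · simp [h2 h g hh hg]
    calc (MulAction.orbit Γ x).ncard ≤ (({x, g • x} : Finset V) : Set V).ncard :=
          Set.ncard_le_ncard hsub (Finset.finite_toSet _)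
      _ = ({x, g • x} : Finset V).card := Set.ncard_coe_finset _
      _ ≤ 2 := Finset.card_le_two
  · push Not at hex
    have hsub : MulAction.orbit Γ x ⊆ (({x} : Finset V) : Set V) := by
      rintro _ ⟨h, rfl⟩
      simp [h1 h ((ha h).resolve_right (hex h))]
    calc (MulAction.orbit Γ x).ncard ≤ (({x} : Finset V) : Set V).ncard :=
          Set.ncard_le_ncard hsub (Finset.finite_toSet _)
      _ = ({x} : Finset V).card := Set.ncard_coe_finset _
      _ ≤ 2 := by simp

end Pool.Agent.Lib.MP_c50dba_nt
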