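import Pool.Agent.Lib.MP_c50dba_nt.SixExpLog
import Pool.Agent.Lib.MP_c50dba_nt.OrbitTwo

set_option autoImplicit false

/-!
Galois equivariance of the Iwasawa logarithm.
-/

namespace Pool.Agent.Lib.MP_c50dba_nt

variable {p : ℕ} [hp : Fact p.Prime]

lemma norm_algEquiv (σ : PadicAlgCl p ≃ₐ[ℚ_[p]] PadicAlgCl p) (x : PadicAlgCl p) :
    ‖σ x‖ = ‖x‖ := by
  rw [← PadicAlgCl.spectralNorm_eq, ← PadicAlgCl.spectralNorm_eq]
  exact (spectralNorm_eq_of_equiv σ x).symm

lemma continuous_algEquiv (σ : PadicAlgCl p ≃ₐ[ℚ_[p]] PadicAlgCl p) : Continuous σ :=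
  (AddMonoidHomClass.isometry_of_norm σ (norm_algEquiv σ)).continuous

lemma logS_algEquiv (σ : PadicAlgCl p ≃ₐ[ℚ_[p]] PadicAlgCl p) {x : PadicAlgCl p} (hx : ‖x‖ < 1) :
    logS (σ x) = σ (logS x) := by
  have h := (summable_logTerm x hx).hasSum.map σ (continuous_algEquiv σ)
  unfold logS
  rw [← h.tsum_eq]
  congr 1
  funext n
  simp [Function.comp, logTerm]

/-- The Iwasawa logarithm commutes with the Galois action. -/
lemma L_algEquiv (L : PadicAlgCl p → PadicAlgCl p)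
    (hmul : ∀ x y : PadicAlgCl p, x ≠ 0 → y ≠ 0 → L (x * y) = L x + L y)
    (hLp : L (p : PadicAlgCl p) = 0)
    (hser : ∀ x : PadicAlgCl p, ‖x‖ < 1 →
      L (1 + x) = ∑' n : ℕ, (-1 : PadicAlgCl p) ^ n * x ^ (n + 1) / ((n : PadicAlgCl p) + 1))
    (σ : PadicAlgCl p ≃ₐ[ℚ_[p]] PadicAlgCl p) {α : PadicAlgCl p} (hα : α ≠ 0) :
    L (σ α) = σ (L α) := by
  have hpne : (p : PadicAlgCl p) ≠ 0 := by exact_mod_cast hp.out.ne_zero
  obtain ⟨k, m, hk, hkm⟩ := exists_pow_mul_near_one hα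
  set u := α ^ k * (p : PadicAlgCl p) ^ m - 1 with hu
  have h1 : 1 + u = α ^ k * (p : PadicAlgCl p) ^ m := by rw [hu]; ring
  have h2 : L (1 + u) = k * L α := by
    rw [h1, hmul _ _ (pow_ne_zero _ hα) (zpow_ne_zero _ hpne), L_pow L hmul hα,
      L_zpow L hmul hpne, hLp, mul_zero, add_zero]
  have hσα : σ α ≠ 0 := by simpa using hα
  have h3 : 1 + σ u = (σ α) ^ k * (p : PadicAlgCl p) ^ m := by
    have : 1 + σ u = σ (1 + u) := by rw [map_add, map_one]
    rw [this, h1, map_mul, map_pow, map_zpow₀, map_natCast]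
  have h4 : L (1 + σ u) = k * L (σ α) := by
    rw [h3, hmul _ _ (pow_ne_zero _ hσα) (zpow_ne_zero _ hpne), L_pow L hmul hσα,
      L_zpow L hmul hpne, hLp, mul_zero, add_zero]
  have hu1 : ‖u‖ < 1 := by linarith
  have h5 : L (1 + σ u) = σ (L (1 + u)) := by
    rw [L_one_add L hser (by rwa [norm_algEquiv]), L_one_add L hser hu1, logS_algEquiv σ hu1]
  rw [h4, h2, map_mul, map_natCast] at h5
  exact mul_left_cancel₀ (by exact_mod_cast (by omega : k ≠ 0)) h5

/-- The degree over `F` is the size of the Galois orbit. -/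
lemma natDegree_eq_ncard' {F Ω : Type*} [Field F] [Field Ω] [Algebra F Ω] [IsAlgClosed Ω]
    [Algebra.IsAlgebraic F Ω] [CharZero F] (x : Ω) :
    (MulAction.orbit (Ω ≃ₐ[F] Ω) x).Finite ∧
    (minpoly F x).natDegree = (MulAction.orbit (Ω ≃ₐ[F] Ω) x).ncard := by
  classical
  have hint : IsIntegral F x := (Algebra.IsAlgebraic.isAlgebraic x).isIntegral
  have hclos : IsAlgClosure F Ω := ⟨inferInstance, inferInstance⟩
  have hnorm : Normal F Ω := IsAlgClosure.normal F Ω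
  have hset : MulAction.orbit (Ω ≃ₐ[F] Ω) x =
      (minpoly F x).rootSet Ω := by
    ext y
    rw [Polynomial.mem_rootSet]
    constructor
    · rintro ⟨σ, rfl⟩
      refine ⟨minpoly.ne_zero hint, ?_⟩
      change Polynomial.aeval (σ x) (minpoly F x) = 0
      rw [Polynomial.aeval_algHom_apply σ x, minpoly.aeval, map_zero]
    · rintro ⟨_, hy⟩
      obtain ⟨σ, hσ⟩ := minpoly.exists_algEquiv_of_root' (Algebra.IsAlgebraic.isAlgebraic x) hy
      exact ⟨σ, hσ⟩
  rw [hset]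
  refine ⟨Polynomial.rootSet_finite _ _, ?_⟩
  have hsep : (minpoly F x).Separable := (minpoly.irreducible hint).separable
  have h1 := Polynomial.card_rootSet_eq_natDegree (K := Ω) hsep
    (IsAlgClosed.splits _)
  rw [← h1, Set.ncard_eq_toFinset_card', Set.toFinset_card]

/-- The degree over `F` is the size of the Galois orbit. -/
lemma natDegree_eq_ncard (F : IntermediateField ℚ_[p] (PadicAlgCl p)) (x : PadicAlgCl p) :
    (MulAction.orbit (PadicAlgCl p ≃ₐ[F] PadicAlgCl p) x).Finite ∧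
    (minpoly F x).natDegree = (MulAction.orbit (PadicAlgCl p ≃ₐ[F] PadicAlgCl p) x).ncard := by
  have halgF : Algebra.IsAlgebraic F (PadicAlgCl p) :=
    Algebra.IsAlgebraic.tower_top (K := ℚ_[p]) F
  exact natDegree_eq_ncard' x

end Pool.Agent.Lib.MP_c50dba_nt
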