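import Pool.Agent.Lib.MP_c50dba_nt.Interp
import Pool.Agent.Lib.MP_c50dba_nt.GaloisLog

set_option autoImplicit false

/-!
Relations between logarithms with coefficients fixed by a set of automorphisms.
-/

namespace Pool.Agent.Lib.MP_c50dba_nt

open NumberField Module

variable {p : ℕ} [hp : Fact p.Prime]

/-- The abstract contradiction. -/
theorem rank_abstract {C : Type*} [NormedField C] [CompleteSpace C] [IsUltrametricDist C]
    [NormedAlgebra ℚ_[p] C] (r : ℕ) (hr : 1 ≤ r) (g : ℕ) {K : Type*} [Field K] [NumberField K]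
    (φ : K →+* C) (a : Fin g → Fin (r + 1) → K) (y : Fin g → Fin (r + 1) → C)
    (hy : ∀ k i, ‖y k i‖ ≤ 1 / 4) (ha : ∀ k i, φ (a k i) = ex (y k i))
    (i₀ : Fin (r + 1)) (b : Fin r → C) (hb : ∀ i, ‖b i‖ ≤ 1)
    (hrel : ∀ k, y k i₀ = ∑ i, b i * y k (i₀.succAbove i))
    (ha0 : ∀ k i, a k i ≠ 0) (hrank : LargeRank a (r * 2 ^ r + 1)) : False := by
  classical
  obtain ⟨C₁, hC⟩ := exists_poly (p := p) r hr g φ a y hy ha i₀ b hb hrel
  set M := 2 ^ (2 ^ r) * ((C₁ + 1) * 2 ^ r) ^ (r * 2 ^ r) with hM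
  have hM1 : 1 ≤ M := by
    rw [hM]
    exact Nat.one_le_iff_ne_zero.mpr (by positivity)
  set S₀ := M + 1 with hS₀
  obtain ⟨P, hP0, hPdeg, hPvan⟩ := hC (2 ^ r * S₀) (Nat.one_le_iff_ne_zero.mpr (by positivity))
  set Ld := ((C₁ + 1) * (2 ^ r * S₀)) ^ r with hLd
  have hL1 : 1 ≤ Ld := Nat.one_le_iff_ne_zero.mpr (by positivity)
  have h1 := zero_estimate (F := K) (d := g) (d₀ := r * 2 ^ r + 1) (S := S₀) (by omega) r a ha0
    hrank Ld hL1 P hP0 (fun i => (hPdeg i).trans (by
      rw [hLd]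
      apply Nat.pow_le_pow_left
      apply Nat.mul_le_mul_right
      omega)) hPvan
  have h2 : (2 * Ld) ^ (2 ^ r) = M * S₀ ^ (r * 2 ^ r) := by
    rw [hLd, hM, mul_pow 2, ← pow_mul]
    rw [← mul_assoc (C₁ + 1) (2 ^ r) S₀, mul_pow _ S₀]
    ring
  rw [h2, pow_succ] at h1
  have h3 : S₀ * S₀ ^ (r * 2 ^ r) ≤ M * S₀ ^ (r * 2 ^ r) := by
    rw [mul_comm]
    exact h1
  have h4 := Nat.le_of_mul_le_mul_right h3 (by positivity)
  omega

/-- A finite family contains a linearly independent subfamily of size the rank. -/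
lemma exists_indep_subset {V : Type*} [AddCommGroup V] [Module ℚ V] {g : ℕ} (v : Fin g → V) :
    ∃ I : Finset (Fin g), I.card = finrank ℚ (Submodule.span ℚ (Set.range v)) ∧
      LinearIndepOn ℚ v (I : Set (Fin g)) := by
  classical
  obtain ⟨b, hb1, hb2, hb3, hb4⟩ := exists_linearIndepOn_extension
    (linearIndepOn_empty ℚ v) (Set.subset_univ (∅ : Set (Fin g)))
  have hfin : b.Finite := Set.toFinite b
  refine ⟨hfin.toFinset, ?_, by rw [Set.Finite.coe_toFinset]; exact hb4⟩
  have h1 : Submodule.span ℚ (Set.range v) = Submodule.span ℚ (v '' b) := by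
    apply le_antisymm
    · rw [Submodule.span_le, ← Set.image_univ]
      exact hb3
    · exact Submodule.span_mono (Set.image_subset_range _ _)
  rw [h1, ← Set.ncard_eq_toFinset_card b hfin]
  have h2 : v '' b = Set.range (fun x : b => v x) := by
    ext x
    simp
  have h3 : LinearIndependent ℚ (fun x : b => v x) := hb4
  rw [h2]
  have : Fintype b := Fintype.ofFinite b
  rw [finrank_span_eq_card h3, Set.ncard_eq_toFinset_card' b, Set.toFinset_card]

/-- Finitely many automorphisms suffice to realise all images of a finite family. -/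
lemma exists_finite_cover (G : Set (PadicAlgCl p ≃ₐ[ℚ_[p]] PadicAlgCl p)) {n : ℕ}
    (x : Fin n → PadicAlgCl p) :
    ∃ (g : ℕ) (τ : Fin g → (PadicAlgCl p ≃ₐ[ℚ_[p]] PadicAlgCl p)), (∀ k, τ k ∈ G) ∧
      ∀ σ ∈ G, ∃ k, ∀ i, σ (x i) = τ k (x i) := by
  classical
  let f : G → (Fin n → PadicAlgCl p) := fun σ i => σ.1 (x i)
  have hfin : (Set.range f).Finite := by
    apply (Set.Finite.pi' (fun i => (natDegree_eq_ncard' (F := ℚ_[p]) (x i)).1)).subset
    rintro _ ⟨σ, rfl⟩ i
    exact ⟨σ.1, rfl⟩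
  have : Finite (Set.range f) := hfin
  obtain ⟨g, ⟨e⟩⟩ := Finite.exists_equiv_fin (Set.range f)
  have hs : ∀ k : Fin g, ∃ σ : G, f σ = (e.symm k).1 := fun k => (e.symm k).2
  choose σ hσ using hs
  refine ⟨g, fun k => (σ k).1, fun k => (σ k).2, ?_⟩
  intro τ hτ
  refine ⟨e ⟨f ⟨τ, hτ⟩, ⟨τ, hτ⟩, rfl⟩, fun i => ?_⟩
  have h1 := hσ (e ⟨f ⟨τ, hτ⟩, ⟨τ, hτ⟩, rfl⟩)
  rw [Equiv.symm_apply_apply] at h1
  exact (congrFun h1 i).symm

/-- A relation with fixed coefficients forces small rank of the conjugates of some character. -/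
theorem rank_le_of_relation (L : PadicAlgCl p → PadicAlgCl p)
    (hmul : ∀ x y : PadicAlgCl p, x ≠ 0 → y ≠ 0 → L (x * y) = L x + L y)
    (hLp : L (p : PadicAlgCl p) = 0)
    (hser : ∀ x : PadicAlgCl p, ‖x‖ < 1 →
      L (1 + x) = ∑' n : ℕ, (-1 : PadicAlgCl p) ^ n * x ^ (n + 1) / ((n : PadicAlgCl p) + 1))
    {n : ℕ} (α : Fin n → PadicAlgCl p) (hα0 : ∀ i, α i ≠ 0) (halg : ∀ i, IsAlgebraic ℚ (α i))
    (G : Set (PadicAlgCl p ≃ₐ[ℚ_[p]] PadicAlgCl p)) (c : Fin n → PadicAlgCl p)
    (hcG : ∀ σ ∈ G, ∀ i, σ (c i) = c i) (hc0 : c ≠ 0) (hrel : ∑ i, c i * L (α i) = 0) :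
    ∃ χ : Fin n → ℤ, χ ≠ 0 ∧
      finrank ℚ (Submodule.span ℚ ((fun σ => σ (∑ i, (χ i : PadicAlgCl p) * L (α i))) '' G)) ≤
        (n - 1) * 2 ^ (n - 1) := by
  classical
  by_contra hcon
  push Not at hcon
  -- the dimension
  obtain ⟨i₁, hi₁⟩ := Function.ne_iff.mp hc0
  have hn0 : n ≠ 0 := by
    rintro rfl
    exact i₁.elim0
  obtain ⟨r, rfl⟩ : ∃ r, n = r + 1 := ⟨n - 1, by omega⟩
  rw [Nat.add_sub_cancel] at hcon
  -- the pivot
  obtain ⟨i₀, -, hi₀⟩ := Finset.exists_max_image Finset.univ (fun i => ‖c i‖) ⟨i₁, Finset.mem_univ _⟩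
  have hci₀ : c i₀ ≠ 0 := by
    intro h
    have := hi₀ i₁ (Finset.mem_univ _)
    rw [h, norm_zero] at this
    exact hi₁ (norm_le_zero_iff.mp this)
  rcases Nat.eq_zero_or_pos r with hr0 | hr
  · subst hr0
    rw [Fin.sum_univ_one] at hrel
    have h1 : i₀ = 0 := by
      apply Fin.ext
      have := i₀.isLt
      simp only [Fin.val_zero]
      omega
    rw [h1] at hci₀
    have h2 : L (α 0) = 0 := (mul_eq_zero.mp hrel).resolve_left hci₀
    have h3 := hcon (fun _ => 1) (by
      intro h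
      have := congrFun h 0
      simp at this)
    have h4 : Submodule.span ℚ ((fun σ : PadicAlgCl p ≃ₐ[ℚ_[p]] PadicAlgCl p =>
        σ (∑ i : Fin 1, (((fun _ => 1 : Fin 1 → ℤ) i : ℤ) : PadicAlgCl p) * L (α i))) '' G) = ⊥ := by
      rw [Submodule.span_eq_bot]
      rintro _ ⟨σ, _, rfl⟩
      simp [h2]
    rw [h4] at h3
    simp at h3
  have hpne : (p : PadicAlgCl p) ≠ 0 := by exact_mod_cast hp.out.ne_zero
  choose k m hk hkm using fun i => exists_pow_mul_near_one (hα0 i)
  set N := ∏ i, k i with hN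
  have hN0 : N ≠ 0 := Finset.prod_ne_zero_iff.mpr (fun i _ => by have := hk i; omega)
  have hdvd : ∀ i, ∃ r, N = k i * r := fun i => Finset.dvd_prod_of_mem k (Finset.mem_univ i)
  choose ρ hρ using hdvd
  let β : Fin (r + 1) → PadicAlgCl p := fun i => (α i ^ (k i) * (p : PadicAlgCl p) ^ (m i)) ^ (ρ i)
  have hβ1 : ∀ i, ‖β i - 1‖ ≤ 1 / 4 := fun i => norm_pow_sub_one_le (hkm i) _
  have hβ0 : ∀ i, β i ≠ 0 := fun i => pow_ne_zero _ (mul_ne_zero (pow_ne_zero _ (hα0 i))
    (zpow_ne_zero _ hpne))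
  have hβL : ∀ i, L (β i) = (N : PadicAlgCl p) * L (α i) := by
    intro i
    have h1 : α i ^ (k i) ≠ 0 := pow_ne_zero _ (hα0 _)
    have h2 : (p : PadicAlgCl p) ^ (m i) ≠ 0 := zpow_ne_zero _ hpne
    simp only [β]
    rw [L_pow L hmul (mul_ne_zero h1 h2), hmul _ _ h1 h2, L_pow L hmul (hα0 _),
      L_zpow L hmul hpne, hLp, hρ i]
    push_cast
    ring
  have hβalg : ∀ i, IsAlgebraic ℚ (β i) := by
    intro i
    have h1 : IsAlgebraic ℚ ((p : PadicAlgCl p) ^ (m i)) := by
      have h2 : IsAlgebraic ℚ (p : PadicAlgCl p) := isAlgebraic_natCast p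
      cases m i with
      | ofNat n => simpa using h2.pow n
      | negSucc n =>
        rw [zpow_negSucc]
        exact (h2.pow _).inv
    exact (((halg _).pow _).mul h1).pow _
  -- the automorphisms
  obtain ⟨g, τ, hτG, hτ⟩ := exists_finite_cover G (fun i => L (α i))
  let γ : Fin g → Fin (r + 1) → PadicAlgCl p := fun j i => τ j (β i)
  have hγalg : ∀ j i, IsAlgebraic ℚ (γ j i) := by
    intro j i
    exact (hβalg i).algHom ((τ j).restrictScalars ℚ).toAlgHom
  have hγ1 : ∀ j i, ‖γ j i - 1‖ ≤ 1 / 4 := by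
    intro j i
    have h1 : γ j i - 1 = τ j (β i - 1) := by simp [γ]
    rw [h1, norm_algEquiv]
    exact hβ1 i
  have hγL : ∀ j i, L (γ j i) = (N : PadicAlgCl p) * τ j (L (α i)) := by
    intro j i
    simp only [γ]
    rw [L_algEquiv L hmul hLp hser (τ j) (hβ0 i), hβL, map_mul, map_natCast]
  have hγ0 : ∀ j i, γ j i ≠ 0 := by
    intro j i
    simpa [γ] using hβ0 i
  -- the number field
  let K := IntermediateField.adjoin ℚ (Set.range (fun ji : Fin g × Fin (r + 1) => γ ji.1 ji.2))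
  have hKfin : FiniteDimensional ℚ K := by
    apply IntermediateField.finiteDimensional_adjoin
    rintro _ ⟨ji, rfl⟩
    exact (hγalg _ _).isIntegral
  have hKnf : NumberField K := { to_charZero := inferInstance, to_finiteDimensional := hKfin }
  let φ : K →+* PadicComplex p := (emb p).comp K.val.toRingHom
  let a : Fin g → Fin (r + 1) → K := fun j i =>
    ⟨γ j i, IntermediateField.subset_adjoin _ _ ⟨(j, i), rfl⟩⟩
  have ha0 : ∀ j i, a j i ≠ 0 := by
    intro j i h
    exact hγ0 j i (congrArg Subtype.val h)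
  let y : Fin g → Fin (r + 1) → PadicComplex p := fun j i => emb p (L (γ j i))
  have hex : ∀ j i, ex (L (γ j i)) = γ j i ∧ ‖L (γ j i)‖ ≤ 1 / 4 := by
    intro j i
    have h1 := ex_L L hmul hser (hγ1 j i)
    exact ⟨h1.1, by rw [h1.2]; exact hγ1 j i⟩
  refine rank_abstract (p := p) r hr g φ a y ?_ ?_ i₀
    (fun i => emb p (-(c (i₀.succAbove i)) / c i₀)) ?_ ?_ ha0 ?_
  · intro j i
    simp only [y]
    rw [emb_norm]
    exact (hex j i).2
  · intro j i
    have h3 : φ (a j i) = emb p (γ j i) := rfl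
    rw [h3]
    simp only [y]
    rw [← emb_ex (hex j i).2, (hex j i).1]
  · intro i
    rw [emb_norm, norm_div, norm_neg]
    exact div_le_one_of_le₀ (hi₀ _ (Finset.mem_univ _)) (norm_nonneg _)
  · intro j
    simp only [y]
    simp only [← map_mul, ← map_sum]
    congr 1
    have h1 : ∑ i, c i * L (γ j i) = 0 := by
      have h2 : ∑ i, c i * L (γ j i) = (N : PadicAlgCl p) * τ j (∑ i, c i * L (α i)) := by
        rw [map_sum, Finset.mul_sum]
        apply Finset.sum_congr rfl
        intro i _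
        rw [hγL, map_mul, hcG (τ j) (hτG j)]
        ring
      rw [h2, hrel, map_zero, mul_zero]
    rw [Fin.sum_univ_succAbove _ i₀] at h1
    have h2 : L (γ j i₀) = - (∑ i, c (i₀.succAbove i) * L (γ j (i₀.succAbove i))) / c i₀ := by
      rw [eq_div_iff hci₀]
      linear_combination h1
    rw [h2, neg_div, Finset.sum_div, ← Finset.sum_neg_distrib]
    apply Finset.sum_congr rfl
    intro i _
    ring
  · intro χ hχ
    have h1 := hcon χ hχ
    obtain ⟨I, hI1, hI2⟩ := exists_indep_subset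
      (fun j => τ j (∑ i, (χ i : PadicAlgCl p) * L (α i)))
    have hspan : Submodule.span ℚ ((fun σ => σ (∑ i, (χ i : PadicAlgCl p) * L (α i))) '' G) =
        Submodule.span ℚ (Set.range (fun j => τ j (∑ i, (χ i : PadicAlgCl p) * L (α i)))) := by
      congr 1
      ext z
      constructor
      · rintro ⟨σ, hσ, rfl⟩
        obtain ⟨j, hj⟩ := hτ σ hσ
        refine ⟨j, ?_⟩
        simp only [map_sum, map_mul, map_intCast]
        apply Finset.sum_congr rfl
        intro i _
        rw [hj i]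
      · rintro ⟨j, rfl⟩
        exact ⟨τ j, hτG j, rfl⟩
    rw [hspan, ← hI1] at h1
    refine ⟨I, h1, ?_⟩
    intro s hs hprod
    -- take logarithms
    have h2 : ∏ j, (∏ i, γ j i ^ χ i) ^ s j = 1 := by
      have := congrArg K.val hprod
      rw [map_prod, map_one] at this
      rw [← this]
      apply Finset.prod_congr rfl
      intro j _
      rw [map_zpow₀, map_prod]
      congr 1
    have hL1 : L (∏ j, (∏ i, γ j i ^ χ i) ^ s j) = ∑ j, (s j : PadicAlgCl p) *
        ∑ i, (χ i : PadicAlgCl p) * L (γ j i) := by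
      have hLprod : ∀ {ι : Type} (T : Finset ι) (f : ι → PadicAlgCl p), (∀ i ∈ T, f i ≠ 0) →
          L (∏ i ∈ T, f i) = ∑ i ∈ T, L (f i) := by
        intro ι T f
        induction T using Finset.induction_on with
        | empty => intro _; simp [L_one L hmul]
        | insert i T hi ih =>
          intro hf
          rw [Finset.prod_insert hi, Finset.sum_insert hi, hmul _ _ (hf i (Finset.mem_insert_self _ _))
            (Finset.prod_ne_zero_iff.mpr (fun j hj => hf j (Finset.mem_insert_of_mem hj))),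
            ih (fun j hj => hf j (Finset.mem_insert_of_mem hj))]
      have hne1 : ∀ j, ∏ i, γ j i ^ χ i ≠ 0 := fun j =>
        Finset.prod_ne_zero_iff.mpr (fun i _ => zpow_ne_zero _ (hγ0 j i))
      rw [hLprod _ _ (fun j _ => zpow_ne_zero _ (hne1 j))]
      apply Finset.sum_congr rfl
      intro j _
      rw [L_zpow L hmul (hne1 j), hLprod _ _ (fun i _ => zpow_ne_zero _ (hγ0 j i))]
      congr 1
      apply Finset.sum_congr rfl
      intro i _
      rw [L_zpow L hmul (hγ0 j i)]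
    rw [h2, L_one L hmul] at hL1
    have h3 : (N : PadicAlgCl p) * ∑ j, (s j : ℚ) • τ j (∑ i, (χ i : PadicAlgCl p) * L (α i)) = 0 := by
      rw [hL1, Finset.mul_sum]
      apply Finset.sum_congr rfl
      intro j _
      rw [Algebra.smul_def, map_sum, Finset.mul_sum, Finset.mul_sum, Finset.mul_sum]
      apply Finset.sum_congr rfl
      intro i _
      rw [hγL, map_mul, map_intCast]
      simp
      ring
    have h4 := (mul_eq_zero.mp h3).resolve_left (by exact_mod_cast hN0)
    rw [linearIndepOn_finset_iff] at hI2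
    have h5 := hI2 (fun j => (s j : ℚ)) (by
      rw [← h4]
      apply Finset.sum_subset (Finset.subset_univ _)
      intro j _ hj
      rw [hs j hj]
      simp)
    funext j
    by_cases hj : j ∈ I
    · have := h5 j hj
      exact_mod_cast this
    · exact hs j hj

end Pool.Agent.Lib.MP_c50dba_nt
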