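import Mathlib

set_option autoImplicit false

/-!
Vanishing resultants and common factors over a unique factorization domain.
-/

namespace Pool.Agent.Lib.MP_c50dba_nt

open Polynomial

/-- Over a UFD, if the resultant vanishes, there is a common irreducible factor of positive degree. -/
theorem common_factor {R : Type*} [CommRing R] [IsDomain R] [UniqueFactorizationMonoid R]
    (A B : R[X]) (hA : A ≠ 0) (hB : B ≠ 0) (hres : resultant A B = 0) :
    ∃ Q : R[X], Irreducible Q ∧ 0 < Q.natDegree ∧ Q ∣ A ∧ Q ∣ B := by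
  classical
  let _ : NormalizedGCDMonoid R := Classical.choice inferInstance
  set k := FractionRing R with hk
  set φ := algebraMap R k with hφ
  have hinj : Function.Injective φ := IsFractionRing.injective R k
  have hdA : (A.map φ).natDegree = A.natDegree := natDegree_map_eq_of_injective hinj A
  have hdB : (B.map φ).natDegree = B.natDegree := natDegree_map_eq_of_injective hinj B
  have hres' : resultant (A.map φ) (B.map φ) = 0 := by
    rw [hdA, hdB, resultant_map_map, hres, map_zero]
  have hA' : A.map φ ≠ 0 := (Polynomial.map_ne_zero_iff hinj).mpr hA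
  have hB' : B.map φ ≠ 0 := (Polynomial.map_ne_zero_iff hinj).mpr hB
  have hnc := (resultant_eq_zero_iff.mp hres').2
  -- a common irreducible factor over the fraction field
  obtain ⟨q, hq, hqA, hqB⟩ : ∃ q : k[X], Irreducible q ∧ q ∣ A.map φ ∧ q ∣ B.map φ := by
    have h1 : ¬ IsUnit (gcd (A.map φ) (B.map φ)) := by
      intro h
      exact hnc ((gcd_isUnit_iff _ _).mp h)
    have h2 : gcd (A.map φ) (B.map φ) ≠ 0 := gcd_ne_zero_of_left hA'
    obtain ⟨q, hq, hqd⟩ := WfDvdMonoid.exists_irreducible_factor h1 h2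
    exact ⟨q, hq, hqd.trans (gcd_dvd_left _ _), hqd.trans (gcd_dvd_right _ _)⟩
  have hqp : Prime q := hq.prime
  -- an irreducible factor of `A` over `R`
  obtain ⟨Q, hQ, hqQ⟩ : ∃ Q ∈ UniqueFactorizationMonoid.factors A, q ∣ Q.map φ := by
    have h1 := UniqueFactorizationMonoid.factors_prod hA
    obtain ⟨u, hu⟩ := h1
    rw [← hu, Polynomial.map_mul] at hqA
    rcases hqp.dvd_or_dvd hqA with h | h
    · rw [Polynomial.map_multiset_prod] at h
      obtain ⟨a, ha, hqa⟩ := hqp.exists_mem_multiset_dvd h
      obtain ⟨Q, hQ, rfl⟩ := Multiset.mem_map.mp ha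
      exact ⟨Q, hQ, hqa⟩
    · exfalso
      exact hq.not_isUnit (isUnit_of_dvd_unit h (u.isUnit.map (mapRingHom φ)))
  have hQirr : Irreducible Q := UniqueFactorizationMonoid.irreducible_of_factor Q hQ
  have hQdeg : 0 < Q.natDegree := by
    rw [Nat.pos_iff_ne_zero]
    intro h0
    obtain ⟨r, hr⟩ := natDegree_eq_zero.mp h0
    have hr0 : r ≠ 0 := by
      intro h
      rw [h, map_zero] at hr
      exact hQirr.ne_zero hr.symm
    rw [← hr, map_C] at hqQ
    have : IsUnit (C (φ r)) := isUnit_C.mpr (isUnit_iff_ne_zero.mpr (by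
      intro h
      exact hr0 (hinj (by rw [h, map_zero]))))
    exact hq.not_isUnit (isUnit_of_dvd_unit hqQ this)
  have hQprim : Q.IsPrimitive := hQirr.isPrimitive hQdeg.ne'
  have hQirr' : Irreducible (Q.map φ) := hQprim.irreducible_iff_irreducible_map_fraction_map.mp hQirr
  have hassoc : Associated q (Q.map φ) := hq.associated_of_dvd hQirr' hqQ
  have hQB : Q.map φ ∣ B.map φ := hassoc.symm.dvd.trans hqB
  refine ⟨Q, hQirr, hQdeg, UniqueFactorizationMonoid.dvd_of_mem_factors hQ, ?_⟩
  obtain ⟨h, hh⟩ := hQB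
  obtain ⟨b, hbm, hb⟩ := IsLocalization.integerNormalization_spec (nonZeroDivisors R) h
  set h' := IsLocalization.integerNormalization (nonZeroDivisors R) h with hh'
  have hb0 : (b : R) ≠ 0 := nonZeroDivisors.ne_zero hbm
  have h1 : (C (b : R) * B).map φ = (Q * h').map φ := by
    rw [Polynomial.map_mul, Polynomial.map_mul, hb, hh, map_C]
    rw [Algebra.smul_def]
    have : (algebraMap R k[X]) (b : R) = C (φ b) := rfl
    rw [this]
    ring
  have h2 : C (b : R) * B = Q * h' := Polynomial.map_injective φ hinj h1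
  have hQp : Prime Q := hQirr.prime
  have h3 : Q ∣ C (b : R) * B := ⟨h', h2⟩
  rcases hQp.dvd_or_dvd h3 with h | h
  · exfalso
    have h4 := natDegree_le_of_dvd h (by simp [hb0])
    rw [natDegree_C] at h4
    omega
  · exact h

end Pool.Agent.Lib.MP_c50dba_nt
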