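import Mathlib

set_option autoImplicit false

/-!
A non-archimedean Liouville inequality.
-/

namespace Pool.Agent.Lib.MP_c50dba_nt

open NumberField Module

lemma norm_le_one_of_isIntegral {C : Type*} [NormedField C] [IsUltrametricDist C] {x : C}
    (hx : IsIntegral ℤ x) : ‖x‖ ≤ 1 := by
  by_contra hcon
  push Not at hcon
  obtain ⟨f, hf, hfx⟩ := hx
  rw [Polynomial.eval₂_eq_sum_range, Finset.sum_range_succ, hf.coeff_natDegree, map_one,
    one_mul] at hfx
  have h1 : x ^ f.natDegree = - ∑ i ∈ Finset.range f.natDegree, (algebraMap ℤ C) (f.coeff i) * x ^ i := by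
    linear_combination hfx
  have h2 : ‖x ^ f.natDegree‖ < ‖x‖ ^ f.natDegree := by
    rw [h1, norm_neg]
    by_cases h0 : f.natDegree = 0
    · rw [h0]; simp
    obtain ⟨i, hi, hle⟩ := IsUltrametricDist.exists_norm_finsetSum_le (Finset.range f.natDegree)
      (fun i => (algebraMap ℤ C) (f.coeff i) * x ^ i)
    have hi' := hi ⟨0, Finset.mem_range.mpr (Nat.pos_of_ne_zero h0)⟩
    rw [Finset.mem_range] at hi'
    refine hle.trans_lt ?_
    rw [norm_mul, norm_pow]
    calc ‖(algebraMap ℤ C) (f.coeff i)‖ * ‖x‖ ^ i ≤ 1 * ‖x‖ ^ i := by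
          gcongr
          rw [eq_intCast]
          exact IsUltrametricDist.norm_intCast_le_one _ _
      _ = ‖x‖ ^ i := one_mul _
      _ < ‖x‖ ^ f.natDegree := pow_lt_pow_right₀ hcon hi'
  rw [norm_pow] at h2
  exact lt_irrefl _ h2

variable {p : ℕ} [hp : Fact p.Prime]

lemma norm_natCast_ge' {C : Type*} [NormedField C] [NormedAlgebra ℚ_[p] C] (m : ℕ) (hm : m ≠ 0) :
    (1 : ℝ) / m ≤ ‖(m : C)‖ := by
  have h1 : ‖(m : C)‖ = ‖(m : ℚ_[p])‖ := by
    have := norm_algebraMap' C (m : ℚ_[p])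
    simpa using this
  rw [h1]
  have h2 : ‖(m : ℚ_[p])‖ = (p : ℝ) ^ (-(padicValNat p m : ℤ)) := by
    have : (m : ℚ_[p]) ≠ 0 := by exact_mod_cast hm
    rw [Padic.norm_eq_zpow_neg_valuation this, Padic.valuation_natCast]
  rw [h2, zpow_neg, zpow_natCast, one_div]
  apply inv_anti₀
  · exact pow_pos (by exact_mod_cast hp.out.pos) _
  · exact_mod_cast Nat.le_of_dvd (Nat.pos_of_ne_zero hm) pow_padicValNat_dvd

/-- Liouville inequality. -/
theorem liouville {C : Type*} [NormedField C] [IsUltrametricDist C] [NormedAlgebra ℚ_[p] C]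
    {K : Type*} [Field K] [NumberField K] (φ : K →+* C) (β : 𝓞 K) (hβ : β ≠ 0) {H : ℝ}
    (hH : house (β : K) ≤ H) : 1 ≤ ‖φ (β : K)‖ * H ^ (finrank ℚ K) := by
  set N := Algebra.intNorm ℤ (𝓞 K) β with hN
  have hN0 : N ≠ 0 := by
    rw [hN, Ne, Algebra.intNorm_eq_zero]
    exact hβ
  obtain ⟨γ, hγ⟩ := Algebra.dvd_algebraMap_intNorm_self ℤ (𝓞 K) β
  rw [← hN] at hγ
  have h1 : φ (β : K) * φ (γ : K) = (N : C) := by
    rw [← map_mul, ← map_mul, ← hγ]
    simp
  have h2 : ‖φ (γ : K)‖ ≤ 1 := by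
    apply norm_le_one_of_isIntegral
    have := γ.isIntegral_coe
    exact this.map (φ : K →+* C).toIntAlgHom
  have h3 : ‖(N : C)‖ ≤ ‖φ (β : K)‖ := by
    rw [← h1, norm_mul]
    exact mul_le_of_le_one_right (norm_nonneg _) h2
  have hNabs : (1 : ℝ) / |(N : ℝ)| ≤ ‖(N : C)‖ := by
    have h4 := norm_natCast_ge' (p := p) (C := C) N.natAbs (Int.natAbs_ne_zero.mpr hN0)
    have h5 : ‖((N.natAbs : ℕ) : C)‖ = ‖(N : C)‖ := by
      rcases Int.natAbs_eq N with h | h
      · conv_rhs => rw [h]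
        simp
      · conv_rhs => rw [h]
        simp
    rw [h5] at h4
    have h6 : ((N.natAbs : ℕ) : ℝ) = |(N : ℝ)| := by
      rw [Nat.cast_natAbs]; simp
    rwa [h6] at h4
  have hNhouse : |(N : ℝ)| ≤ H ^ (finrank ℚ K) := by
    have h7 : (Algebra.norm ℚ (β : K) : ℚ) = N := by
      rw [hN, Algebra.intNorm_eq_norm]
      exact (Algebra.coe_norm_int β).symm
    obtain ⟨σ⟩ : Nonempty (K →+* ℂ) := inferInstance
    have h8 := norm_norm_le_norm_mul_house_pow (β : K) σ
    rw [h7] at h8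
    have h9 : ‖((N : ℚ))‖ = |(N : ℝ)| := by
      rw [← Rat.norm_cast_real]
      simp
    rw [h9] at h8
    have hpos : 0 < finrank ℚ K := finrank_pos
    calc |(N : ℝ)| ≤ ‖σ β‖ * house (β : K) ^ (finrank ℚ K - 1) := h8
      _ ≤ house (β : K) * house (β : K) ^ (finrank ℚ K - 1) := by
          gcongr
          · exact pow_nonneg (house_nonneg (β : K)) _
          · exact norm_embedding_le_house (β : K) σ
      _ = house (β : K) ^ (finrank ℚ K) := by
          rw [← pow_succ']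
          congr 1
          omega
      _ ≤ H ^ (finrank ℚ K) := by
          gcongr
          exact house_nonneg (β : K)
  have hpos : 0 < |(N : ℝ)| := abs_pos.mpr (by exact_mod_cast hN0)
  have h10 : 1 / |(N : ℝ)| ≤ ‖φ (β : K)‖ := hNabs.trans h3
  rw [div_le_iff₀ hpos] at h10
  refine h10.trans ?_
  gcongr

theorem siegel_aux (K : Type*) [Field K] [NumberField K] [DecidableEq (K →+* ℂ)] : ∃ c : ℝ,
    ∀ (α β : Type) [Fintype α] [Fintype β] (a : Matrix α β (𝓞 K)) (A : ℝ) (p q : ℕ), 0 < p → p < q →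
      Fintype.card α = p → Fintype.card β = q → a ≠ 0 →
      (∀ k l, house ((algebraMap (𝓞 K) K) (a k l)) ≤ A) →
      ∃ ξ : β → 𝓞 K, ξ ≠ 0 ∧ a.mulVec ξ = 0 ∧
        ∀ l, house ((ξ l : 𝓞 K) : K) ≤ c * (c * q * A) ^ ((p : ℝ) / (q - p)) := by
  refine ⟨?c, ?h⟩
  case h =>
    intro α β _ _ a A p q h0 hpq h1 h2 ha habs
    exact NumberField.house.exists_ne_zero_int_vec_house_le K a ha h0 hpq h2 habs h1

/-- Siegel's lemma over a number field. -/
theorem siegel (K : Type*) [Field K] [NumberField K] : ∃ c : ℝ, 1 ≤ c ∧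
    ∀ (α β : Type) [Fintype α] [Fintype β] (a : α → β → 𝓞 K) (A : ℝ),
      1 ≤ A → (∀ k l, house ((a k l : 𝓞 K) : K) ≤ A) →
      0 < Fintype.card α → 2 * Fintype.card α ≤ Fintype.card β →
      ∃ ξ : β → 𝓞 K, ξ ≠ 0 ∧ (∀ k, ∑ l, a k l * ξ l = 0) ∧
        ∀ l, house ((ξ l : 𝓞 K) : K) ≤ c * (Fintype.card β) * A := by
  classical
  obtain ⟨c, hc⟩ := siegel_aux K
  refine ⟨(1 + |c|) ^ 2, one_le_pow₀ (by linarith [abs_nonneg c]), ?_⟩
  intro α β _ _ a A hA habs hα hβ
  by_cases ha : Matrix.of a = 0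
  · have ha' : ∀ k l, a k l = 0 := fun k l => by
      have := congrFun (congrFun ha k) l
      simpa using this
    obtain ⟨l0⟩ := Fintype.card_pos_iff.mp (by omega : 0 < Fintype.card β)
    refine ⟨fun _ => 1, fun h => one_ne_zero (congrFun h l0), fun k => by simp [ha'], ?_⟩
    intro l
    have hq : (1 : ℝ) ≤ Fintype.card β := by
      exact_mod_cast (by omega : 1 ≤ Fintype.card β)
    have h1 : house (((1 : 𝓞 K) : 𝓞 K) : K) = 1 := by
      have := house_intCast (K := K) 1
      simpa using this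
    rw [h1]
    have h2 : (1 : ℝ) ≤ (1 + |c|) ^ 2 := one_le_pow₀ (by linarith [abs_nonneg c])
    calc (1 : ℝ) = 1 * 1 * 1 := by norm_num
      _ ≤ _ := by gcongr
  obtain ⟨ξ, hξ0, hξ, hb⟩ := hc α β (Matrix.of a) A (Fintype.card α) (Fintype.card β) hα
    (by omega) rfl rfl ha (fun k l => habs k l)
  refine ⟨ξ, hξ0, ?_, ?_⟩
  · intro k
    have := congrFun hξ k
    simpa [Matrix.mulVec, dotProduct] using this
  · intro l
    refine (hb l).trans ?_
    have hq : (1 : ℝ) ≤ Fintype.card β := by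
      exact_mod_cast (by omega : 1 ≤ Fintype.card β)
    have hbase : |c * (Fintype.card β) * A| ≤ (1 + |c|) * (Fintype.card β) * A := by
      rw [abs_mul, abs_mul, abs_of_nonneg (by linarith : (0 : ℝ) ≤ A),
        abs_of_nonneg (by linarith : (0 : ℝ) ≤ (Fintype.card β : ℝ))]
      gcongr
      linarith [abs_nonneg c]
    have hbase1 : 1 ≤ (1 + |c|) * (Fintype.card β) * A := by
      have : (1 : ℝ) ≤ 1 + |c| := by linarith [abs_nonneg c]
      calc (1 : ℝ) = 1 * 1 * 1 := by norm_num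
        _ ≤ (1 + |c|) * (Fintype.card β) * A := by gcongr
    set e : ℝ := (Fintype.card α : ℝ) / ((Fintype.card β : ℝ) - Fintype.card α) with he
    have hden : (0 : ℝ) < (Fintype.card β : ℝ) - Fintype.card α := by
      have : (Fintype.card α : ℝ) < Fintype.card β := by
        exact_mod_cast (by omega : Fintype.card α < Fintype.card β)
      linarith
    have he0 : 0 ≤ e := by positivity
    have he1 : e ≤ 1 := by
      rw [he, div_le_one hden]
      have : (2 : ℝ) * Fintype.card α ≤ Fintype.card β := by exact_mod_cast hβ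
      linarith
    have hpow : |(c * (Fintype.card β) * A) ^ e| ≤ (1 + |c|) * (Fintype.card β) * A := by
      calc |(c * (Fintype.card β) * A) ^ e| ≤ |c * (Fintype.card β) * A| ^ e :=
            Real.abs_rpow_le_abs_rpow _ _
        _ ≤ ((1 + |c|) * (Fintype.card β) * A) ^ e := by
            apply Real.rpow_le_rpow (abs_nonneg _) hbase he0
        _ ≤ ((1 + |c|) * (Fintype.card β) * A) ^ (1 : ℝ) :=
            Real.rpow_le_rpow_of_exponent_le hbase1 he1
        _ = _ := Real.rpow_one _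
    calc c * (c * (Fintype.card β) * A) ^ e ≤ |c * (c * (Fintype.card β) * A) ^ e| := le_abs_self _
      _ = |c| * |(c * (Fintype.card β) * A) ^ e| := abs_mul _ _
      _ ≤ (1 + |c|) * ((1 + |c|) * (Fintype.card β) * A) := by
          gcongr
          linarith [abs_nonneg c]
      _ = (1 + |c|) ^ 2 * (Fintype.card β) * A := by ring

end Pool.Agent.Lib.MP_c50dba_nt
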