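import Pool.Agent.Lib.MP_c50dba_nt.PSeries
import Pool.Agent.Lib.MP_c50dba_nt.Liouville

set_option autoImplicit false

/-!
Extrapolation criterion (Schneider's method without derivatives, in the non-archimedean setting).
-/

namespace Pool.Agent.Lib.MP_c50dba_nt

open NumberField Module

variable {p : ℕ} [hp : Fact p.Prime]

lemma norm_phi_le_one {C : Type*} [NormedField C] [IsUltrametricDist C]
    {K : Type*} [Field K] (φ : K →+* C) (γ : 𝓞 K) : ‖φ (γ : K)‖ ≤ 1 := by
  apply norm_le_one_of_isIntegral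
  exact γ.isIntegral_coe.map (φ : K →+* C).toIntAlgHom

theorem criterion (K : Type*) [Field K] [NumberField K] : ∃ c₁ : ℝ, 1 ≤ c₁ ∧
    ∀ (C : Type) [NormedField C] [CompleteSpace C] [IsUltrametricDist C] [NormedAlgebra ℚ_[p] C]
      (φ : K →+* C) (ι σ : Type) [Fintype ι] (g : ι → ℕ → C) (ζ : σ → C) (P : ℕ → Finset σ)
      (δ : ℕ → ℕ) (b : ℕ → σ → ι → 𝓞 K) (H : ℕ → ℝ) (S₀ : ℕ),
      (∀ i k, ‖g i k‖ ≤ 2 ^ k) → Function.Injective ζ → (∀ s, ‖ζ s‖ ≤ 1 / 4) →
      (∀ S, δ S ≠ 0) → (∀ S, 1 ≤ H S) →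
      (∀ S, ∀ s ∈ P S, ∀ i, φ (b S s i : K) = (δ S : C) * pval (g i) (ζ s)) →
      (∀ S, ∀ s ∈ P S, ∀ i, house (b S s i : K) ≤ H S) →
      0 < (P S₀).card → 2 * (P S₀).card ≤ Fintype.card ι →
      (∀ S, S₀ ≤ S → (Fintype.card ι * (c₁ * Fintype.card ι * H S₀) * H (S + 1)) ^ (finrank ℚ K)
        < 2 ^ (P S).card) →
      (∀ n, ∃ S, S₀ ≤ S ∧ n ≤ (P S).card) →
      ∃ c : ι → 𝓞 K, c ≠ 0 ∧ ∀ k, ∑ i, φ (c i : K) * g i k = 0 := by
  classical
  obtain ⟨c₁, hc₁, hsieg⟩ := siegel K
  refine ⟨c₁, hc₁, ?_⟩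
  intro C _ _ _ _ φ ι σ _ g ζ P δ b H S₀ hg hζ hζ4 hδ hH hb hbH hP0 hPι hsize hinf
  have : CharZero C := charZero_of_injective_algebraMap (algebraMap ℚ_[p] C).injective
  obtain ⟨ξ, hξ0, hξ, hξH⟩ := hsieg {s // s ∈ P S₀} ι (fun s i => b S₀ s i) (H S₀) (hH S₀)
    (fun s i => hbH S₀ s s.2 i) (by simpa using hP0) (by simpa using hPι)
  refine ⟨ξ, hξ0, ?_⟩
  set F : ℕ → C := fun k => ∑ i, φ (ξ i : K) * g i k with hF
  have hFb : ∀ k, ‖F k‖ ≤ 1 * 2 ^ k := by
    intro k
    rw [one_mul]
    apply IsUltrametricDist.norm_sum_le_of_forall_le_of_nonneg (by positivity)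
    intro i _
    rw [norm_mul]
    calc ‖φ (ξ i : K)‖ * ‖g i k‖ ≤ 1 * 2 ^ k := by
          gcongr
          · exact norm_phi_le_one φ (ξ i)
          · exact hg i k
      _ = 2 ^ k := one_mul _
  have hFval : ∀ z : C, ‖z‖ ≤ 1 / 4 → pval F z = ∑ i, φ (ξ i : K) * pval (g i) z := by
    intro z hz
    have h1 : ∀ i ∈ (Finset.univ : Finset ι), Summable (fun k => φ (ξ i : K) * (g i k * z ^ k)) := by
      intro i _
      exact (pval_summable (M := 1) (fun k => by rw [one_mul]; exact hg i k) hz).mul_left _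
    have h2 : pval F z = ∑' k, ∑ i, φ (ξ i : K) * (g i k * z ^ k) := by
      unfold pval
      congr 1
      funext k
      simp only [hF]
      rw [Finset.sum_mul]
      apply Finset.sum_congr rfl
      intro i _
      ring
    rw [h2, Summable.tsum_finsetSum h1]
    apply Finset.sum_congr rfl
    intro i _
    rw [tsum_mul_left]
    rfl
  -- the algebraic integer attached to a point
  have hφ' : ∀ x : 𝓞 K, φ (x : K) = (φ.comp (algebraMap (𝓞 K) K)) x := fun _ => rfl
  have hφ0 : φ ((0 : 𝓞 K) : K) = 0 := by rw [hφ', map_zero]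
  have hβ : ∀ S, ∀ s ∈ P S, φ ((∑ i, ξ i * b S s i : 𝓞 K) : K) = (δ S : C) * pval F (ζ s) := by
    intro S s hs
    rw [hFval _ (hζ4 s), Finset.mul_sum]
    rw [hφ', map_sum]
    apply Finset.sum_congr rfl
    intro i _
    rw [map_mul, ← hφ', ← hφ', hb S s hs i]
    ring
  have hδC : ∀ S, (δ S : C) ≠ 0 := fun S => by exact_mod_cast hδ S
  have hvan : ∀ S, S₀ ≤ S → ∀ s ∈ P S, pval F (ζ s) = 0 := by
    intro S hS
    induction S, hS using Nat.le_induction with
    | base =>
      intro s hs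
      have h1 := hβ S₀ s hs
      have h2 : (∑ i, ξ i * b S₀ s i : 𝓞 K) = 0 := by
        have := hξ ⟨s, hs⟩
        rw [← this]
        apply Finset.sum_congr rfl
        intro i _
        ring
      rw [h2, hφ0] at h1
      exact (mul_eq_zero.mp h1.symm).resolve_left (hδC S₀)
    | succ S hS ih =>
      intro s hs
      have h1 := hβ (S + 1) s hs
      by_contra hne
      have h2 : (∑ i, ξ i * b (S + 1) s i : 𝓞 K) ≠ 0 := by
        intro h
        rw [h, hφ0] at h1
        exact hne ((mul_eq_zero.mp h1.symm).resolve_left (hδC (S + 1)))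
      have h3 : house ((∑ i, ξ i * b (S + 1) s i : 𝓞 K) : K) ≤
          Fintype.card ι * (c₁ * Fintype.card ι * H S₀) * H (S + 1) := by
        have h4 : ((∑ i, ξ i * b (S + 1) s i : 𝓞 K) : K) = ∑ i, (ξ i : K) * (b (S + 1) s i : K) := by
          have h5 : ∀ x : 𝓞 K, (x : K) = algebraMap (𝓞 K) K x := fun _ => rfl
          simp only [h5, map_sum, map_mul]
        rw [h4]
        refine (house_sum_le_sum_house _ _).trans ?_
        calc ∑ i, house ((ξ i : K) * (b (S + 1) s i : K)) ≤
            ∑ _i : ι, (c₁ * Fintype.card ι * H S₀) * H (S + 1) := by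
              apply Finset.sum_le_sum
              intro i _
              refine (house_mul_le _ _).trans ?_
              gcongr
              · exact house_nonneg _
              · have := hH S₀; positivity
              · exact hξH i
              · exact hbH (S + 1) s hs i
          _ = _ := by
              rw [Finset.sum_const, Finset.card_univ, nsmul_eq_mul]
              ring
      have h5 := liouville (p := p) φ _ h2 h3
      rw [h1] at h5
      have h6 : ‖(δ (S + 1) : C) * pval F (ζ s)‖ ≤ (1 / 2) ^ (P S).card := by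
        rw [norm_mul]
        have h7 := schwarz F 1 zero_le_one hFb ((P S).image ζ) (by
          intro a ha
          obtain ⟨t, ht, rfl⟩ := Finset.mem_image.mp ha
          exact ⟨hζ4 t, ih t ht⟩) (hζ4 s)
        rw [Finset.card_image_of_injective _ hζ, one_mul] at h7
        calc ‖(δ (S + 1) : C)‖ * ‖pval F (ζ s)‖ ≤ 1 * (1 / 2) ^ (P S).card := by
              gcongr
              exact IsUltrametricDist.norm_natCast_le_one C _
          _ = _ := one_mul _
      have h8 := hsize S hS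
      have h9 : (1 : ℝ) ≤ (1 / 2) ^ (P S).card *
          (Fintype.card ι * (c₁ * Fintype.card ι * H S₀) * H (S + 1)) ^ (finrank ℚ K) := by
        refine h5.trans ?_
        have := hH S₀
        have := hH (S + 1)
        gcongr
      have h10 : (1 / 2 : ℝ) ^ (P S).card *
          (Fintype.card ι * (c₁ * Fintype.card ι * H S₀) * H (S + 1)) ^ (finrank ℚ K) <
          (1 / 2 : ℝ) ^ (P S).card * 2 ^ (P S).card := by
        gcongr
      rw [← mul_pow] at h10
      norm_num at h10 h9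
      linarith
  intro k
  apply eq_zero_of_zeros F 1 zero_le_one hFb _ k
  intro n
  obtain ⟨S, hS, hn⟩ := hinf n
  refine ⟨(P S).image ζ, ?_, ?_⟩
  · rwa [Finset.card_image_of_injective _ hζ]
  · intro a ha
    obtain ⟨t, ht, rfl⟩ := Finset.mem_image.mp ha
    exact ⟨hζ4 t, hvan S hS t ht⟩

end Pool.Agent.Lib.MP_c50dba_nt
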