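import Pool.Agent.Lib.MP_c50dba_nt.Log

set_option autoImplicit false

/-!
Degrees and value groups of finite subextensions of `PadicAlgCl p`.
-/

namespace Pool.Agent.Lib.MP_c50dba_nt

open scoped Topology
open IntermediateField

variable {p : ℕ} [hp : Fact p.Prime]

lemma norm_pow_natDegree {x : PadicAlgCl p} (hx : x ≠ 0) :
    ∃ a : ℤ, ‖x‖ ^ (minpoly ℚ_[p] x).natDegree = (p : ℝ) ^ a := by
  have hint : IsIntegral ℚ_[p] x := (Algebra.IsAlgebraic.isAlgebraic x).isIntegral
  have hdeg : 0 < (minpoly ℚ_[p] x).natDegree := minpoly.natDegree_pos hint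
  have h1 : ‖x‖ = ‖(minpoly ℚ_[p] x).coeff 0‖ ^ (1 / (minpoly ℚ_[p] x).natDegree : ℝ) := by
    rw [← PadicAlgCl.spectralNorm_eq]
    exact spectralNorm.spectralNorm_eq_norm_coeff_zero_rpow ℚ_[p] (PadicAlgCl p) x
  have h2 : ‖x‖ ^ (minpoly ℚ_[p] x).natDegree = ‖(minpoly ℚ_[p] x).coeff 0‖ := by
    rw [h1, ← Real.rpow_natCast, ← Real.rpow_mul (norm_nonneg _), one_div,
      inv_mul_cancel₀ (by positivity), Real.rpow_one]
  have h3 : (minpoly ℚ_[p] x).coeff 0 ≠ 0 := minpoly.coeff_zero_ne_zero hint hx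
  rw [h2, Padic.norm_eq_zpow_neg_valuation h3]
  exact ⟨_, rfl⟩

lemma not_dvd_finrank_adjoin (D : ℕ) (s : Finset (PadicAlgCl p))
    (hs : ∀ x ∈ s, (minpoly ℚ_[p] x).natDegree ≤ D) :
    FiniteDimensional ℚ_[p] (adjoin ℚ_[p] (s : Set (PadicAlgCl p))) ∧
    ∀ m : ℕ, m.Prime → D < m →
      ¬ m ∣ Module.finrank ℚ_[p] (adjoin ℚ_[p] (s : Set (PadicAlgCl p))) := by
  classical
  induction s using Finset.induction_on with
  | empty =>
    have h0 : adjoin ℚ_[p] ((∅ : Finset (PadicAlgCl p)) : Set (PadicAlgCl p)) = ⊥ := by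
      rw [Finset.coe_empty]; exact IntermediateField.adjoin_empty _ _
    rw [h0]
    refine ⟨inferInstance, ?_⟩
    intro m hm _
    rw [IntermediateField.finrank_bot]
    exact fun h => hm.one_lt.ne' (Nat.dvd_one.mp h)
  | insert a s ha ih =>
    obtain ⟨ihf, ihm⟩ := ih (fun x hx => hs x (Finset.mem_insert_of_mem hx))
    set E := adjoin ℚ_[p] (s : Set (PadicAlgCl p)) with hE
    have hEa : (E⟮a⟯).restrictScalars ℚ_[p] = adjoin ℚ_[p] ((insert a s : Finset _) : Set (PadicAlgCl p)) := by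
      rw [Finset.coe_insert, IntermediateField.adjoin_adjoin_left, Set.union_comm]
      rfl
    have hint : IsIntegral ℚ_[p] a := (Algebra.IsAlgebraic.isAlgebraic a).isIntegral
    have hintE : IsIntegral E a := hint.tower_top
    have hfE : FiniteDimensional E E⟮a⟯ := IntermediateField.adjoin.finiteDimensional hintE
    have hf2 : FiniteDimensional ℚ_[p] E⟮a⟯ := FiniteDimensional.trans ℚ_[p] E E⟮a⟯
    have hmul := Module.finrank_mul_finrank ℚ_[p] E E⟮a⟯
    have hdeg : Module.finrank E E⟮a⟯ ≤ D := by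
      rw [IntermediateField.adjoin.finrank hintE]
      refine le_trans ?_ (hs a (Finset.mem_insert_self a s))
      have hdvd := minpoly.dvd_map_of_isScalarTower ℚ_[p] E a
      have hne : (minpoly ℚ_[p] a).map (algebraMap ℚ_[p] E) ≠ 0 :=
        Polynomial.map_ne_zero (minpoly.ne_zero hint)
      have := Polynomial.natDegree_le_of_dvd hdvd hne
      rwa [Polynomial.natDegree_map] at this
    rw [← hEa]
    refine ⟨hf2, ?_⟩
    intro m hm hDm hdvd
    have hdvd' : m ∣ Module.finrank ℚ_[p] E⟮a⟯ := hdvd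
    rw [← hmul] at hdvd'
    rcases (Nat.Prime.dvd_mul hm).mp hdvd' with h | h
    · exact ihm m hm hDm h
    · have hpos : 0 < Module.finrank E E⟮a⟯ := Module.finrank_pos
      have := Nat.le_of_dvd hpos h
      omega

end Pool.Agent.Lib.MP_c50dba_nt
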