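import Mathlib

set_option autoImplicit false

/-!
Non-archimedean bounds for determinants of matrices close to matrices of low rank.
-/

namespace Pool.Agent.Lib.MP_c50dba_nt

variable {C : Type*} [NormedField C] [IsUltrametricDist C] {ι : Type*} [Fintype ι] [DecidableEq ι]

lemma norm_det_le (M : Matrix ι ι C) (r : ι → ℝ) (hr : ∀ i, 0 ≤ r i) (h : ∀ i j, ‖M i j‖ ≤ r i) :
    ‖M.det‖ ≤ ∏ i, r i := by
  rw [← Matrix.det_transpose, Matrix.det_apply']
  apply IsUltrametricDist.norm_sum_le_of_forall_le_of_nonneg (Finset.prod_nonneg (fun i _ => hr i))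
  intro σ _
  rw [norm_mul, norm_prod]
  have h1 : ‖(((Equiv.Perm.sign σ : ℤ) : C))‖ ≤ 1 := IsUltrametricDist.norm_intCast_le_one C _
  have h2 : ∏ i, ‖M.transpose (σ i) i‖ ≤ ∏ i, r i :=
    Finset.prod_le_prod (fun i _ => norm_nonneg _) (fun i _ => h i (σ i))
  calc ‖(((Equiv.Perm.sign σ : ℤ) : C))‖ * ∏ i, ‖M.transpose (σ i) i‖ ≤ 1 * ∏ i, r i :=
        mul_le_mul h1 h2 (Finset.prod_nonneg (fun i _ => norm_nonneg _)) zero_le_one
    _ = _ := one_mul _

lemma det_piecewise_eq_zero {κ : Type*} [Fintype κ] (A : ι → κ → C) (B : κ → ι → C)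
    (U W : ι → ι → C) (hU : ∀ i, U i = ∑ k, A i k • B k) (s : Finset ι)
    (hs : Fintype.card κ < s.card) :
    Matrix.detRowAlternating (s.piecewise U W) = 0 := by
  classical
  apply AlternatingMap.map_linearDependent
  intro hli
  have h1 : LinearIndependent C (fun i : s => U i) := by
    have h2 := hli.comp (fun i : s => (i : ι)) Subtype.val_injective
    have h3 : (s.piecewise U W ∘ fun i : s => (i : ι)) = fun i : s => U i := by
      funext i
      simp only [Function.comp]
      exact Finset.piecewise_eq_of_mem _ _ _ i.2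
    rwa [h3] at h2
  have h2 := finrank_span_eq_card h1
  have h3 : Submodule.span C (Set.range (fun i : s => U i)) ≤
      Submodule.span C (Set.range (fun k => B k)) := by
    rw [Submodule.span_le]
    rintro _ ⟨i, rfl⟩
    change U i ∈ _
    rw [hU]
    exact Submodule.sum_mem _ (fun k _ => Submodule.smul_mem _ _ (Submodule.subset_span ⟨k, rfl⟩))
  have h4 := Submodule.finrank_mono h3
  have h5 : Module.finrank C (Submodule.span C (Set.range (fun k => B k))) ≤ Fintype.card κ :=
    finrank_range_le_card _
  rw [h2, Fintype.card_coe] at h4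
  omega

/-- The determinant of a matrix `A * B + E` with `A * B` of rank at most `R` and `E` small. -/
theorem norm_det_low_rank_le {κ : Type*} [Fintype κ] (A : ι → κ → C) (B : κ → ι → C)
    (U W : ι → ι → C) (hU : ∀ i, U i = ∑ k, A i k • B k)
    (ε : ℝ) (hε : 0 ≤ ε) (hε1 : ε ≤ 1) (hU1 : ∀ i j, ‖U i j‖ ≤ 1)
    (hW : ∀ i j, ‖W i j‖ ≤ ε) :
    ‖(Matrix.of (U + W)).det‖ ≤ ε ^ (Fintype.card ι - Fintype.card κ) := by
  classical
  have h1 : (Matrix.of (U + W)).det = ∑ s : Finset ι, Matrix.detRowAlternating (s.piecewise U W) := by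
    have := (Matrix.detRowAlternating (R := C) (n := ι)).toMultilinearMap.map_add_univ U W
    exact this
  rw [h1]
  apply IsUltrametricDist.norm_sum_le_of_forall_le_of_nonneg (by positivity)
  intro s _
  by_cases hs : Fintype.card κ < s.card
  · rw [det_piecewise_eq_zero A B U W hU s hs, norm_zero]
    positivity
  · push Not at hs
    have h2 : ‖(Matrix.of (s.piecewise U W)).det‖ ≤ ∏ i, (if i ∈ s then (1 : ℝ) else ε) := by
      apply norm_det_le
      · intro i; split_ifs <;> linarith
      · intro i j
        rw [Matrix.of_apply]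
        by_cases hi : i ∈ s
        · rw [Finset.piecewise_eq_of_mem s U W hi, if_pos hi]
          exact hU1 i j
        · rw [Finset.piecewise_eq_of_notMem s U W hi, if_neg hi]
          exact hW i j
    refine h2.trans ?_
    rw [Finset.prod_ite]
    simp only [Finset.prod_const, one_pow, one_mul]
    apply pow_le_pow_of_le_one hε hε1
    have h3 : (Finset.univ.filter (fun i => i ∉ s)).card = Fintype.card ι - s.card := by
      rw [← Finset.card_compl]
      congr 1
      ext i
      simp
    rw [h3]
    omega

/-- If the rows of a rectangular matrix are independent, some maximal minor does not vanish. -/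
lemma exists_minor_ne_zero {K : Type*} [Field K] {κ : Type*} [Fintype κ] (M : Matrix ι κ K)
    (hM : LinearIndependent K (fun i => M i)) :
    ∃ c : ι → κ, Function.Injective c ∧ (M.submatrix id c).det ≠ 0 := by
  classical
  have hrank : M.rank = Fintype.card ι := by
    have := LinearIndependent.rank_matrix (M := M) hM
    exact this
  have hspan : Module.finrank K (Submodule.span K (Set.range M.col)) = Fintype.card ι := by
    rw [← Matrix.rank_eq_finrank_span_cols]; exact hrank
  obtain ⟨b, hb, hbs, hbi⟩ := exists_linearIndependent K (Set.range M.col)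
  have hbfin : b.Finite := (Set.finite_range _).subset hb
  have _ : Fintype b := hbfin.fintype
  have hcard : Fintype.card b = Fintype.card ι := by
    rw [← hspan, ← hbs]
    have := finrank_span_eq_card hbi
    rw [Subtype.range_coe] at this
    exact this.symm
  let e : ι ≃ b := Fintype.equivOfCardEq hcard.symm
  have hcol : ∀ i : ι, ∃ k : κ, M.col k = (e i : ι → K) := fun i => hb (e i).2
  choose c hc using hcol
  have hcinj : Function.Injective c := by
    intro i j h
    apply e.injective
    apply Subtype.ext
    rw [← hc, ← hc, h]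
  refine ⟨c, hcinj, ?_⟩
  have h1 : LinearIndependent K (M.submatrix id c).col := by
    have h2 : (M.submatrix id c).col = (fun x : b => (x : ι → K)) ∘ e := by
      funext i
      have := hc i
      simp only [Function.comp]
      rw [← this]
      rfl
    rw [h2]
    exact hbi.comp e e.injective
  have h2 := Matrix.linearIndependent_cols_iff_isUnit.mp h1
  have h3 := (Matrix.isUnit_iff_isUnit_det _).mp h2
  exact h3.ne_zero

end Pool.Agent.Lib.MP_c50dba_nt
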