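import Pool.Agent.Lib.MP_c50dba_nt.ExpLog
import Pool.Agent.Lib.MP_c50dba_nt.Deg

set_option autoImplicit false

/-!
Every nonzero element has a power that is close to a power of `p`.
-/

namespace Pool.Agent.Lib.MP_c50dba_nt

variable {p : ℕ} [hp : Fact p.Prime]

lemma exists_pow_near_one {u : PadicAlgCl p} (hu : ‖u‖ = 1) :
    ∃ k : ℕ, 1 ≤ k ∧ ‖u ^ k - 1‖ ≤ 1 / 4 := by
  have hfin : FiniteDimensional ℚ_[p] (IntermediateField.adjoin ℚ_[p] {u}) :=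
    IntermediateField.adjoin.finiteDimensional
      (Algebra.IsAlgebraic.isAlgebraic u).isIntegral
  let F : Submodule ℚ_[p] (PadicAlgCl p) :=
    Subalgebra.toSubmodule (IntermediateField.adjoin ℚ_[p] {u}).toSubalgebra
  have hfin' : FiniteDimensional ℚ_[p] F := hfin
  have hc : ProperSpace F := FiniteDimensional.proper ℚ_[p] F
  have hum : u ∈ IntermediateField.adjoin ℚ_[p] {u} :=
    IntermediateField.mem_adjoin_simple_self _ _
  let v : ℕ → F := fun n => ⟨u ^ n, pow_mem hum n⟩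
  have hv : ∀ n, v n ∈ Metric.closedBall (0 : F) 1 := by
    intro n
    rw [mem_closedBall_zero_iff]
    change ‖u ^ n‖ ≤ 1
    rw [norm_pow, hu, one_pow]
  obtain ⟨a, _, φ, hφ, hlim⟩ := (isCompact_closedBall (0 : F) 1).tendsto_subseq hv
  obtain ⟨N, hN⟩ := Metric.cauchySeq_iff.mp hlim.cauchySeq (1 / 4) (by norm_num)
  have h1 := hN (N + 1) (Nat.le_succ N) N le_rfl
  have hlt : φ N < φ (N + 1) := hφ (Nat.lt_succ_self N)
  refine ⟨φ (N + 1) - φ N, by omega, ?_⟩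
  rw [dist_eq_norm] at h1
  have h2 : ‖u ^ (φ (N + 1)) - u ^ (φ N)‖ < 1 / 4 := h1
  have h3 : u ^ (φ (N + 1)) - u ^ (φ N) = u ^ (φ N) * (u ^ (φ (N + 1) - φ N) - 1) := by
    rw [mul_sub, ← pow_add, mul_one]
    congr 2
    omega
  rw [h3, norm_mul, norm_pow, hu, one_pow, one_mul] at h2
  exact h2.le

lemma exists_pow_mul_near_one {α : PadicAlgCl p} (hα : α ≠ 0) :
    ∃ (k : ℕ) (m : ℤ), 1 ≤ k ∧ ‖α ^ k * (p : PadicAlgCl p) ^ m - 1‖ ≤ 1 / 4 := by
  obtain ⟨a, ha⟩ := norm_pow_natDegree hα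
  set d := (minpoly ℚ_[p] α).natDegree with hd
  have hd0 : 0 < d := minpoly.natDegree_pos (Algebra.IsAlgebraic.isAlgebraic α).isIntegral
  have hp0 : (p : ℝ) ≠ 0 := by exact_mod_cast hp.out.ne_zero
  have hu : ‖α ^ d * (p : PadicAlgCl p) ^ a‖ = 1 := by
    rw [norm_mul, norm_pow, ha, norm_zpow, norm_p_eq, inv_zpow, mul_inv_cancel₀ (zpow_ne_zero _ hp0)]
  obtain ⟨k, hk, hk'⟩ := exists_pow_near_one hu
  refine ⟨d * k, a * k, Nat.mul_pos hd0 hk, ?_⟩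
  rwa [mul_pow, ← pow_mul, ← zpow_natCast ((p : PadicAlgCl p) ^ a) k, ← zpow_mul] at hk'

end Pool.Agent.Lib.MP_c50dba_nt
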