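import Pool.Agent.Lib.MP_c50dba_nt.Criterion
import Pool.Agent.Lib.MP_c50dba_nt.NearOne

set_option autoImplicit false

/-!
The p-adic six exponentials theorem.
-/

namespace Pool.Agent.Lib.MP_c50dba_nt

open NumberField Module

variable {p : ℕ} [hp : Fact p.Prime]

lemma house_one' {K : Type*} [Field K] [NumberField K] : house (1 : K) = 1 := by
  have := house_intCast (K := K) 1
  simpa using this

lemma house_prod_le' {K : Type*} [Field K] [NumberField K] {ι : Type*} (s : Finset ι) (f : ι → K) :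
    house (∏ i ∈ s, f i) ≤ ∏ i ∈ s, house (f i) := by
  classical
  induction s using Finset.induction_on with
  | empty => simp [house_one']
  | insert a s ha ih =>
    rw [Finset.prod_insert ha, Finset.prod_insert ha]
    refine (house_mul_le _ _).trans ?_
    gcongr
    exact house_nonneg _

lemma ex_sum {C : Type*} [NormedField C] [CompleteSpace C] [IsUltrametricDist C]
    [NormedAlgebra ℚ_[p] C] {ι : Type*} (s : Finset ι) (f : ι → C) (hf : ∀ i ∈ s, ‖f i‖ ≤ 1 / 4) :
    ex (∑ i ∈ s, f i) = ∏ i ∈ s, ex (f i) := by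
  classical
  induction s using Finset.induction_on with
  | empty => simp [ex_zero]
  | insert a s ha ih =>
    rw [Finset.sum_insert ha, Finset.prod_insert ha, ex_add (p := p) (hf a (Finset.mem_insert_self _ _)),
      ih (fun i hi => hf i (Finset.mem_insert_of_mem hi))]
    apply IsUltrametricDist.norm_sum_le_of_forall_le_of_nonneg (by norm_num)
    exact fun i hi => hf i (Finset.mem_insert_of_mem hi)

/-- Coefficients of the exponential function with frequency `w`. -/
noncomputable def ecoef {C : Type*} [NormedField C] (w : C) (k : ℕ) : C := w ^ k / (k.factorial : C)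

lemma norm_ecoef_le {C : Type*} [NormedField C] [NormedAlgebra ℚ_[p] C] {w : C} (hw : ‖w‖ ≤ 1)
    (k : ℕ) : ‖ecoef w k‖ ≤ 2 ^ k := by
  refine (norm_div_factorial_le (p := p) w k).trans ?_
  gcongr
  linarith

lemma pval_ecoef {C : Type*} [NormedField C] (w z : C) : pval (ecoef w) z = ex (w * z) := by
  unfold pval ex ecoef
  congr 1
  funext k
  rw [mul_pow]
  ring

lemma vandermonde_zero {C : Type*} [Field C] {ι : Type*} [Fintype ι] (w : ι → C)
    (hw : Function.Injective w) (c : ι → C) (h : ∀ k : ℕ, ∑ i, c i * w i ^ k = 0) : c = 0 := by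
  classical
  let e := Fintype.equivFin ι
  have h1 : (fun j => c (e.symm j)) = 0 := by
    apply Matrix.eq_zero_of_forall_pow_sum_mul_pow_eq_zero (f := fun j => w (e.symm j))
      (hw.comp e.symm.injective)
    intro i
    have := h i
    rw [← e.symm.sum_comp] at this
    exact this
  funext i
  have := congrFun h1 (e i)
  simpa using this

/-- Common denominators and house bounds. -/
lemma exists_denominator (K : Type*) [Field K] [NumberField K] {ι : Type*} [Finite ι] (a : ι → K) :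
    ∃ (d : ℕ) (β : ι → 𝓞 K) (A : ℕ), d ≠ 0 ∧ (∀ i, (β i : K) = d * a i) ∧
      (d : ℝ) ≤ 2 ^ A ∧ ∀ i, house (β i : K) ≤ 2 ^ A := by
  classical
  cases nonempty_fintype ι
  obtain ⟨y, hy0, hy⟩ := exists_integral_multiples ℤ ℚ (Finset.univ.image a)
  set d := y.natAbs with hd
  have hd0 : d ≠ 0 := Int.natAbs_ne_zero.mpr hy0
  have hint : ∀ i, IsIntegral ℤ ((d : K) * a i) := by
    intro i
    have h1 := hy (a i) (Finset.mem_image_of_mem a (Finset.mem_univ i))
    rw [zsmul_eq_mul] at h1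
    rcases Int.natAbs_eq y with h | h
    · have : (d : K) = (y : K) := by
        conv_rhs => rw [h]
        simp [hd]
      rwa [this]
    · have : (d : K) = -(y : K) := by
        conv_rhs => rw [h]
        simp [hd]
      rw [this, neg_mul]
      exact h1.neg
  obtain ⟨A, hA⟩ : ∃ A : ℕ, ((d : ℝ) + ∑ i, house ((d : K) * a i)) ≤ 2 ^ A := by
    obtain ⟨A, hA⟩ := pow_unbounded_of_one_lt ((d : ℝ) + ∑ i, house ((d : K) * a i)) one_lt_two
    exact ⟨A, hA.le⟩
  have hsum : 0 ≤ ∑ i, house ((d : K) * a i) := Finset.sum_nonneg (fun i _ => house_nonneg _)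
  refine ⟨d, fun i => ⟨(d : K) * a i, hint i⟩, A, hd0, fun i => rfl, by linarith, ?_⟩
  intro i
  have h1 := Finset.single_le_sum (f := fun i => house ((d : K) * a i))
    (fun j _ => house_nonneg _) (Finset.mem_univ i)
  have h2 : (0 : ℝ) ≤ d := Nat.cast_nonneg d
  exact h1.trans (by linarith)

lemma six_exp_param (D A : ℕ) : ∃ t : ℕ, 1 ≤ t ∧ ∀ S : ℕ, 2 * t ^ 2 ≤ S →
    D * (4 * (4 * t ^ 3) + A + A * (6 * (4 * t ^ 3) * (2 * t ^ 2)) +
      A * (6 * (4 * t ^ 3) * (S + 1))) < S ^ 3 := by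
  refine ⟨D * (4 + 19 * A) + 1, by omega, ?_⟩
  set t := D * (4 + 19 * A) + 1 with ht
  intro S hS
  have ht1 : 1 ≤ t := by omega
  have ht2 : 1 ≤ t ^ 2 := Nat.one_le_pow _ _ ht1
  have ht3 : 1 ≤ t ^ 3 := Nat.one_le_pow _ _ ht1
  have hS1 : 2 ≤ S := by omega
  have h1 : 4 * (4 * t ^ 3) + A + A * (6 * (4 * t ^ 3) * (2 * t ^ 2)) +
      A * (6 * (4 * t ^ 3) * (S + 1)) ≤ (4 + 19 * A) * ((4 * t ^ 3) * S) := by
    have h2 : 4 * (4 * t ^ 3) ≤ 4 * ((4 * t ^ 3) * S) := by
      calc 4 * (4 * t ^ 3) = 4 * ((4 * t ^ 3) * 1) := by ring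
        _ ≤ 4 * ((4 * t ^ 3) * S) := by gcongr; omega
    have h3 : A ≤ A * ((4 * t ^ 3) * S) := by
      calc A = A * (1 * 1) := by ring
        _ ≤ A * ((4 * t ^ 3) * S) := by gcongr <;> omega
    have h4 : A * (6 * (4 * t ^ 3) * (2 * t ^ 2)) ≤ A * (6 * (4 * t ^ 3) * S) := by gcongr
    have h5 : A * (6 * (4 * t ^ 3) * (S + 1)) ≤ A * (6 * (4 * t ^ 3) * (S + S)) := by
      gcongr; omega
    calc _ ≤ 4 * ((4 * t ^ 3) * S) + A * ((4 * t ^ 3) * S) + A * (6 * (4 * t ^ 3) * S) +
          A * (6 * (4 * t ^ 3) * (S + S)) := by omega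
      _ = (4 + 19 * A) * ((4 * t ^ 3) * S) := by ring
  have h6 : 4 * t ^ 4 ≤ S ^ 2 := by
    calc 4 * t ^ 4 = (2 * t ^ 2) ^ 2 := by ring
      _ ≤ S ^ 2 := Nat.pow_le_pow_left hS 2
  calc D * (4 * (4 * t ^ 3) + A + A * (6 * (4 * t ^ 3) * (2 * t ^ 2)) +
      A * (6 * (4 * t ^ 3) * (S + 1))) ≤ D * ((4 + 19 * A) * ((4 * t ^ 3) * S)) := by gcongr
    _ = (D * (4 + 19 * A)) * ((4 * t ^ 3) * S) := by ring
    _ < t * ((4 * t ^ 3) * S) := by
        apply Nat.mul_lt_mul_of_pos_right
        · omega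
        · positivity
    _ = (4 * t ^ 4) * S := by ring
    _ ≤ S ^ 2 * S := by gcongr
    _ = S ^ 3 := by ring

/-- The six exponentials theorem in a complete non-archimedean field, for small arguments. -/
theorem six_exp_abstract {C : Type} [NormedField C] [CompleteSpace C] [IsUltrametricDist C]
    [NormedAlgebra ℚ_[p] C] (x : Fin 3 → C) (y : Fin 2 → C) (hx : ∀ i, ‖x i‖ ≤ 1 / 4)
    (hy : ∀ j, ‖y j‖ ≤ 1)
    (hxi : ∀ s t : Fin 3 → ℕ, ∑ k, (s k : C) * x k = ∑ k, (t k : C) * x k → s = t)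
    (hyi : ∀ s t : Fin 2 → ℕ, ∑ k, (s k : C) * y k = ∑ k, (t k : C) * y k → s = t)
    {K : Type*} [Field K] [NumberField K] (φ : K →+* C) (a : Fin 3 → Fin 2 → K)
    (ha : ∀ i j, φ (a i j) = ex (x i * y j)) : False := by
  classical
  obtain ⟨d, β, A₀, hd0, hβ, hdA, hβA⟩ := exists_denominator K (fun ij : Fin 3 × Fin 2 => a ij.1 ij.2)
  obtain ⟨c₁, hc₁, hcrit⟩ := criterion (p := p) K
  obtain ⟨A₁, hA₁⟩ := pow_unbounded_of_one_lt c₁ one_lt_two
  set A := A₀ + A₁ with hA
  set D := finrank ℚ K with hD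
  obtain ⟨t, ht1, ht⟩ := six_exp_param D A
  set N := 4 * t ^ 3 with hN
  have hNpos : 0 < N := by positivity
  set S₀ := 2 * t ^ 2 with hS₀
  -- the functions
  let w : Fin N × Fin N → C := fun ij => ((ij.1 : ℕ) : C) * y 0 + ((ij.2 : ℕ) : C) * y 1
  have hw1 : ∀ ij, ‖w ij‖ ≤ 1 := by
    intro ij
    refine (IsUltrametricDist.norm_add_le_max _ _).trans (max_le ?_ ?_)
    · rw [norm_mul]
      exact mul_le_one₀ (IsUltrametricDist.norm_natCast_le_one C _) (norm_nonneg _) (hy 0)
    · rw [norm_mul]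
      exact mul_le_one₀ (IsUltrametricDist.norm_natCast_le_one C _) (norm_nonneg _) (hy 1)
  have hwinj : Function.Injective w := by
    intro ij kl h
    have h1 := hyi ![(ij.1 : ℕ), (ij.2 : ℕ)] ![(kl.1 : ℕ), (kl.2 : ℕ)] (by
      simpa [Fin.sum_univ_two, w] using h)
    have h2 := congrFun h1 0
    have h3 := congrFun h1 1
    simp at h2 h3
    exact Prod.ext (Fin.ext h2) (Fin.ext h3)
  -- the points
  let ζ : (Fin 3 → ℕ) → C := fun s => ∑ k, (s k : C) * x k
  have hζinj : Function.Injective ζ := fun s t h => hxi s t h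
  have hζ4 : ∀ s, ‖ζ s‖ ≤ 1 / 4 := by
    intro s
    apply IsUltrametricDist.norm_sum_le_of_forall_le_of_nonneg (by norm_num)
    intro k _
    rw [norm_mul]
    calc ‖(s k : C)‖ * ‖x k‖ ≤ 1 * (1 / 4) := by
          gcongr
          · exact IsUltrametricDist.norm_natCast_le_one C _
          · exact hx k
      _ = 1 / 4 := one_mul _
  let P : ℕ → Finset (Fin 3 → ℕ) := fun S => Fintype.piFinset (fun _ => Finset.range S)
  have hPcard : ∀ S, (P S).card = S ^ 3 := by
    intro S
    simp [P]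
  have hPmem : ∀ S, ∀ s ∈ P S, ∀ k, s k < S := by
    intro S s hs k
    simp only [P, Fintype.mem_piFinset, Finset.mem_range] at hs
    exact hs k
  -- exponents
  let e : (Fin N × Fin N) → (Fin 3 → ℕ) → ℕ := fun ij s =>
    ∑ k, ((ij.1 : ℕ) * s k + (ij.2 : ℕ) * s k)
  have he : ∀ S, ∀ s ∈ P S, ∀ ij, e ij s ≤ 6 * N * S := by
    intro S s hs ij
    have h0 := hPmem S s hs
    simp only [e, Fin.sum_univ_three]
    have hi := ij.1.isLt
    have hj := ij.2.isLt
    have h1 : ∀ k, (ij.1 : ℕ) * s k ≤ N * S := fun k => Nat.mul_le_mul hi.le (h0 k).le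
    have h2 : ∀ k, (ij.2 : ℕ) * s k ≤ N * S := fun k => Nat.mul_le_mul hj.le (h0 k).le
    have := h1 0
    have := h1 1
    have := h1 2
    have := h2 0
    have := h2 1
    have := h2 2
    have h3 : 6 * N * S = 6 * (N * S) := by ring
    omega
  let b : ℕ → (Fin 3 → ℕ) → (Fin N × Fin N) → 𝓞 K := fun S s ij =>
    (d : 𝓞 K) ^ (6 * N * S - e ij s) *
      ∏ k, ((β (k, 0)) ^ ((ij.1 : ℕ) * s k) * (β (k, 1)) ^ ((ij.2 : ℕ) * s k))
  have hbK : ∀ S s ij, ((b S s ij : 𝓞 K) : K) = (d : K) ^ (6 * N * S - e ij s) *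
      ∏ k, (((d : K) * a k 0) ^ ((ij.1 : ℕ) * s k) * ((d : K) * a k 1) ^ ((ij.2 : ℕ) * s k)) := by
    intro S s ij
    have h5 : ∀ x : 𝓞 K, (x : K) = algebraMap (𝓞 K) K x := fun _ => rfl
    have h6 : ∀ kj, algebraMap (𝓞 K) K (β kj) = (d : K) * a kj.1 kj.2 := fun kj => hβ kj
    simp only [b]
    rw [h5, map_mul, map_pow, map_natCast, map_prod]
    congr 1
    apply Finset.prod_congr rfl
    intro k _
    rw [map_mul, map_pow, map_pow, h6, h6]
  have hbφ : ∀ S, ∀ s ∈ P S, ∀ ij, φ ((b S s ij : 𝓞 K) : K) =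
      ((d ^ (6 * N * S) : ℕ) : C) * pval (ecoef (w ij)) (ζ s) := by
    intro S s hs ij
    rw [hbK, pval_ecoef]
    have h1 : w ij * ζ s = ∑ k, ((((ij.1 : ℕ) * s k : ℕ) : C) * (x k * y 0) +
        (((ij.2 : ℕ) * s k : ℕ) : C) * (x k * y 1)) := by
      simp only [w, ζ]
      rw [Finset.mul_sum]
      apply Finset.sum_congr rfl
      intro k _
      push_cast
      ring
    have hxy : ∀ k j, ‖x k * y j‖ ≤ 1 / 4 := by
      intro k j
      rw [norm_mul]
      calc ‖x k‖ * ‖y j‖ ≤ (1 / 4) * 1 := by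
            gcongr
            · exact hx k
            · exact hy j
        _ = 1 / 4 := mul_one _
    have hnxy : ∀ (n : ℕ) k j, ‖(n : C) * (x k * y j)‖ ≤ 1 / 4 := by
      intro n k j
      rw [norm_mul]
      calc ‖(n : C)‖ * ‖x k * y j‖ ≤ 1 * (1 / 4) := by
            gcongr
            · exact IsUltrametricDist.norm_natCast_le_one C _
            · exact hxy k j
        _ = 1 / 4 := one_mul _
    have h2 : ex (w ij * ζ s) = ∏ k, (ex (x k * y 0) ^ ((ij.1 : ℕ) * s k) *
        ex (x k * y 1) ^ ((ij.2 : ℕ) * s k)) := by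
      rw [h1, ex_sum (p := p)]
      · apply Finset.prod_congr rfl
        intro k _
        rw [ex_add (p := p) (hnxy _ _ _) (hnxy _ _ _), ex_nat_mul (p := p) (hxy _ _),
          ex_nat_mul (p := p) (hxy _ _)]
      · intro k _
        exact (IsUltrametricDist.norm_add_le_max _ _).trans (max_le (hnxy _ _ _) (hnxy _ _ _))
    rw [h2, map_mul, map_pow, map_natCast, map_prod]
    have h3 : ∀ k, φ (((d : K) * a k 0) ^ ((ij.1 : ℕ) * s k) * ((d : K) * a k 1) ^ ((ij.2 : ℕ) * s k)) =
        (d : C) ^ ((ij.1 : ℕ) * s k + (ij.2 : ℕ) * s k) * (ex (x k * y 0) ^ ((ij.1 : ℕ) * s k) *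
        ex (x k * y 1) ^ ((ij.2 : ℕ) * s k)) := by
      intro k
      rw [map_mul, map_pow, map_pow, map_mul, map_mul, map_natCast, ha, ha, pow_add, mul_pow, mul_pow]
      ring
    rw [Finset.prod_congr rfl (fun k _ => h3 k), Finset.prod_mul_distrib, ← mul_assoc,
      Finset.prod_pow_eq_pow_sum, ← pow_add]
    have h4 : 6 * N * S - e ij s + ∑ k, ((ij.1 : ℕ) * s k + (ij.2 : ℕ) * s k) = 6 * N * S := by
      have := he S s hs ij
      simp only [e] at this ⊢
      omega
    rw [h4]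
    push_cast
    rfl
  have hbH : ∀ S, ∀ s ∈ P S, ∀ ij, house ((b S s ij : 𝓞 K) : K) ≤ 2 ^ (A * (6 * N * S)) := by
    intro S s hs ij
    have hβ' : ∀ kj : Fin 3 × Fin 2, house ((d : K) * a kj.1 kj.2) ≤ 2 ^ A₀ := by
      intro kj
      rw [← hβ kj]
      exact hβA kj
    have hd' : house ((d : K)) ≤ 2 ^ A₀ := by
      have := house_intCast (K := K) (d : ℤ)
      simp only [Int.cast_natCast] at this
      rw [this]
      simpa using hdA
    rw [hbK]
    calc _ ≤ house ((d : K) ^ (6 * N * S - e ij s)) * house (∏ k, (((d : K) * a k 0) ^ ((ij.1 : ℕ) * s k) *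
          ((d : K) * a k 1) ^ ((ij.2 : ℕ) * s k))) := house_mul_le _ _
      _ ≤ (2 ^ A₀) ^ (6 * N * S - e ij s) * ∏ k, ((2 ^ A₀) ^ ((ij.1 : ℕ) * s k + (ij.2 : ℕ) * s k) : ℝ) := by
          gcongr
          · exact house_nonneg _
          · exact (house_pow_le _ _).trans (pow_le_pow_left₀ (house_nonneg _) hd' _)
          · refine (house_prod_le' _ _).trans ?_
            apply Finset.prod_le_prod (fun _ _ => house_nonneg _)
            intro k _
            rw [pow_add]
            refine (house_mul_le _ _).trans ?_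
            gcongr
            · exact house_nonneg _
            · exact (house_pow_le _ _).trans (pow_le_pow_left₀ (house_nonneg _) (hβ' (k, 0)) _)
            · exact (house_pow_le _ _).trans (pow_le_pow_left₀ (house_nonneg _) (hβ' (k, 1)) _)
      _ = (2 ^ A₀) ^ (6 * N * S) := by
          rw [Finset.prod_pow_eq_pow_sum, ← pow_add]
          congr 1
          have := he S s hs ij
          simp only [e] at this ⊢
          omega
      _ ≤ 2 ^ (A * (6 * N * S)) := by
          rw [← pow_mul]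
          apply pow_le_pow_right₀ (by norm_num)
          gcongr
          omega
  have hι : Fintype.card (Fin N × Fin N) = N * N := by simp
  obtain ⟨c, hc0, hc⟩ := hcrit C φ (Fin N × Fin N) (Fin 3 → ℕ) (fun ij => ecoef (w ij)) ζ P
    (fun S => d ^ (6 * N * S)) b (fun S => 2 ^ (A * (6 * N * S))) S₀
    (fun ij k => norm_ecoef_le (p := p) (hw1 ij) k) hζinj hζ4 (fun S => pow_ne_zero _ hd0)
    (fun S => one_le_pow₀ (by norm_num)) hbφ hbH
    (by rw [hPcard]; positivity)
    (by
      rw [hPcard, hι]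
      apply le_of_eq
      simp only [hN, hS₀]
      ring)
    (by
      intro S hS
      rw [hPcard, hι]
      have h1 := ht S hS
      have hN2 : ((N * N : ℕ) : ℝ) ≤ 2 ^ (2 * N) := by
        have h2 : N * N ≤ 2 ^ (2 * N) := by
          have := Nat.lt_two_pow_self (n := N)
          calc N * N ≤ 2 ^ N * 2 ^ N := Nat.mul_le_mul this.le this.le
            _ = 2 ^ (2 * N) := by rw [← pow_add]; congr 1; ring
        exact_mod_cast h2
      have hc2 : c₁ ≤ 2 ^ A := hA₁.le.trans (pow_le_pow_right₀ (by norm_num) (by omega))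
      calc (((N * N : ℕ) : ℝ) * (c₁ * ((N * N : ℕ) : ℝ) * 2 ^ (A * (6 * N * S₀))) *
            2 ^ (A * (6 * N * (S + 1)))) ^ D ≤
            (2 ^ (2 * N) * (2 ^ A * 2 ^ (2 * N) * 2 ^ (A * (6 * N * S₀))) *
            2 ^ (A * (6 * N * (S + 1)))) ^ D := by gcongr
        _ = 2 ^ (D * (4 * N + A + A * (6 * N * S₀) + A * (6 * N * (S + 1)))) := by
            rw [← pow_add, ← pow_add, ← pow_add, ← pow_add, ← pow_mul]
            congr 1
            ring
        _ < 2 ^ (S ^ 3) := pow_lt_pow_right₀ (by norm_num) h1)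
    (by
      intro n
      refine ⟨max n S₀, le_max_right _ _, ?_⟩
      rw [hPcard]
      calc n ≤ max n S₀ := le_max_left _ _
        _ ≤ (max n S₀) ^ 3 := Nat.le_self_pow (by norm_num) _)
  have h1 : (fun ij => φ (c ij : K)) = 0 := by
    have : CharZero C := charZero_of_injective_algebraMap (algebraMap ℚ_[p] C).injective
    apply vandermonde_zero w hwinj
    intro k
    have h2 := hc k
    have h3 : (k.factorial : C) ≠ 0 := by exact_mod_cast k.factorial_ne_zero
    have h4 : ∑ ij, φ (c ij : K) * w ij ^ k = (k.factorial : C) * ∑ ij, φ (c ij : K) * ecoef (w ij) k := by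
      rw [Finset.mul_sum]
      apply Finset.sum_congr rfl
      intro ij _
      unfold ecoef
      field_simp
    rw [h4, h2, mul_zero]
  apply hc0
  funext ij
  have h2 := congrFun h1 ij
  simp only [Pi.zero_apply, map_eq_zero] at h2
  exact RingOfIntegers.ext h2

end Pool.Agent.Lib.MP_c50dba_nt
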