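import Pool.Agent.Lib.MP_c50dba_nt.PExp

set_option autoImplicit false

/-!
The exponential inverts the logarithm near one.
-/

namespace Pool.Agent.Lib.MP_c50dba_nt

variable {p : ℕ} [hp : Fact p.Prime]

/-- The embedding of `PadicAlgCl p` in its completion. -/
noncomputable def emb (p : ℕ) [Fact p.Prime] : PadicAlgCl p →+* PadicComplex p :=
  algebraMap (PadicAlgCl p) (PadicComplex p)

lemma emb_norm (x : PadicAlgCl p) : ‖emb p x‖ = ‖x‖ := by
  have := PadicComplex.norm_extends p x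
  exact this

lemma emb_continuous : Continuous (emb p) :=
  (AddMonoidHomClass.isometry_of_norm (emb p) emb_norm).continuous

lemma summable_ex {a : PadicAlgCl p} (ha : ‖a‖ ≤ 1 / 4) :
    Summable (fun k : ℕ => a ^ k / (k.factorial : PadicAlgCl p)) := by
  apply summable_of_mem (x := a) _ (summable_norm_ex (p := p) ha)
  intro n
  have hxm : a ∈ IntermediateField.adjoin ℚ_[p] {a} :=
    IntermediateField.mem_adjoin_simple_self _ _
  exact div_mem (pow_mem hxm _) (natCast_mem _ _)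

lemma emb_ex {a : PadicAlgCl p} (ha : ‖a‖ ≤ 1 / 4) : emb p (ex a) = ex (emb p a) := by
  have h := (summable_ex ha).hasSum.map (emb p) emb_continuous
  unfold ex
  rw [← h.tsum_eq]
  congr 1
  funext k
  simp [Function.comp]

lemma ex_add' {a b : PadicAlgCl p} (ha : ‖a‖ ≤ 1 / 4) (hb : ‖b‖ ≤ 1 / 4) :
    ex (a + b) = ex a * ex b := by
  apply (emb p).injective
  have hab : ‖a + b‖ ≤ 1 / 4 :=
    (IsUltrametricDist.norm_add_le_max a b).trans (max_le ha hb)
  rw [map_mul, emb_ex ha, emb_ex hb, emb_ex hab, map_add]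
  exact ex_add (p := p) (by rwa [emb_norm]) (by rwa [emb_norm])

lemma norm_ex_sub_le {a : PadicAlgCl p} (ha : ‖a‖ ≤ 1 / 4) : ‖ex a - 1 - a‖ ≤ 4 * ‖a‖ ^ 2 := by
  have hs := summable_ex ha
  have h1 : ex a - 1 - a = ∑' k : ℕ, a ^ (k + 2) / ((k + 2).factorial : PadicAlgCl p) := by
    unfold ex
    rw [hs.tsum_eq_zero_add, ((summable_nat_add_iff 1).mpr hs).tsum_eq_zero_add]
    simp
  rw [h1]
  apply IsUltrametricDist.norm_tsum_le_of_forall_le_of_nonneg (by positivity)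
  intro k
  refine (norm_div_factorial_le (p := p) a (k + 2)).trans ?_
  have h2 : (2 * ‖a‖) ^ k ≤ 1 := pow_le_one₀ (by positivity) (by linarith)
  calc (2 * ‖a‖) ^ (k + 2) = (2 * ‖a‖) ^ k * (4 * ‖a‖ ^ 2) := by ring
    _ ≤ 1 * (4 * ‖a‖ ^ 2) := by gcongr
    _ = _ := one_mul _

lemma norm_ex_sub_one_le {a : PadicAlgCl p} (ha : ‖a‖ ≤ 1 / 4) : ‖ex a - 1‖ ≤ ‖a‖ := by
  have h1 := norm_ex_sub_le ha
  have h2 : ex a - 1 = (ex a - 1 - a) + a := by ring
  rw [h2]
  refine (IsUltrametricDist.norm_add_le_max _ _).trans (max_le (h1.trans ?_) le_rfl)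
  have := norm_nonneg a
  nlinarith

lemma ex_ne_zero' {a : PadicAlgCl p} (ha : ‖a‖ ≤ 1 / 4) : ex a ≠ 0 := by
  intro h
  have h1 := norm_ex_sub_one_le ha
  rw [h, zero_sub, norm_neg, norm_one] at h1
  linarith

section L

variable (L : PadicAlgCl p → PadicAlgCl p)
    (hmul : ∀ x y : PadicAlgCl p, x ≠ 0 → y ≠ 0 → L (x * y) = L x + L y)
    (hser : ∀ x : PadicAlgCl p, ‖x‖ < 1 →
      L (1 + x) = ∑' n : ℕ, (-1 : PadicAlgCl p) ^ n * x ^ (n + 1) / ((n : PadicAlgCl p) + 1))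

include hmul in
lemma L_one : L 1 = 0 := by
  have := hmul 1 1 one_ne_zero one_ne_zero
  rw [mul_one] at this
  exact left_eq_add.mp this

include hmul in
lemma L_pow {x : PadicAlgCl p} (hx : x ≠ 0) (n : ℕ) : L (x ^ n) = n * L x := by
  induction n with
  | zero => simp [L_one L hmul]
  | succ n ih =>
    rw [pow_succ, hmul _ _ (pow_ne_zero _ hx) hx, ih]
    push_cast
    ring

include hmul in
lemma L_inv {x : PadicAlgCl p} (hx : x ≠ 0) : L (x⁻¹) = - L x := by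
  have h1 := hmul x x⁻¹ hx (inv_ne_zero hx)
  rw [mul_inv_cancel₀ hx, L_one L hmul] at h1
  exact (neg_eq_of_add_eq_zero_right h1.symm).symm

include hmul in
lemma L_zpow {x : PadicAlgCl p} (hx : x ≠ 0) (n : ℤ) : L (x ^ n) = n * L x := by
  cases n with
  | ofNat n => simp [L_pow L hmul hx]
  | negSucc n =>
    rw [zpow_negSucc, L_inv L hmul (pow_ne_zero _ hx), L_pow L hmul hx]
    push_cast
    ring

include hser in
lemma L_one_add {x : PadicAlgCl p} (hx : ‖x‖ < 1) : L (1 + x) = logS x := hser x hx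

include hser in
lemma norm_L_one_add {x : PadicAlgCl p} (hx : ‖x‖ ≤ 1 / 4) : ‖L (1 + x)‖ = ‖x‖ := by
  rw [L_one_add L hser (by linarith), norm_logS x hx]

include hser in
lemma norm_L_ex_sub_le {a : PadicAlgCl p} (ha : ‖a‖ ≤ 1 / 4) : ‖L (ex a) - a‖ ≤ 4 * ‖a‖ ^ 2 := by
  have h1 := norm_ex_sub_one_le ha
  have h2 : ex a = 1 + (ex a - 1) := by ring
  rw [h2, L_one_add L hser (by linarith)]
  have h3 := norm_logS_sub_le (ex a - 1) (h1.trans ha)
  have h4 : logS (ex a - 1) - a = (logS (ex a - 1) - (ex a - 1)) + (ex a - 1 - a) := by ring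
  rw [h4]
  refine (IsUltrametricDist.norm_add_le_max _ _).trans (max_le (h3.trans ?_) (norm_ex_sub_le ha))
  have h5 : ‖ex a - 1‖ ^ 2 ≤ ‖a‖ ^ 2 := pow_le_pow_left₀ (norm_nonneg _) h1 2
  nlinarith [sq_nonneg ‖a‖]

lemma norm_natCast_mul_le (a : PadicAlgCl p) (n : ℕ) (ha : ‖a‖ ≤ 1 / 4) :
    ‖(n : PadicAlgCl p) * a‖ ≤ 1 / 4 := by
  rw [norm_mul]
  calc ‖(n : PadicAlgCl p)‖ * ‖a‖ ≤ 1 * (1 / 4) := by
        gcongr
        exact IsUltrametricDist.norm_natCast_le_one _ n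
    _ = 1 / 4 := one_mul _

include hmul in
lemma L_ex_nat_mul {a : PadicAlgCl p} (ha : ‖a‖ ≤ 1 / 4) (n : ℕ) :
    L (ex (n * a)) = n * L (ex a) := by
  induction n with
  | zero => simp [ex_zero, L_one L hmul]
  | succ n ih =>
    have h1 : ((n + 1 : ℕ) : PadicAlgCl p) * a = n * a + a := by push_cast; ring
    have h2 := norm_natCast_mul_le a n ha
    rw [h1, ex_add' h2 ha, hmul _ _ (ex_ne_zero' h2) (ex_ne_zero' ha), ih]
    push_cast
    ring

lemma norm_p_eq : ‖(p : PadicAlgCl p)‖ = (p : ℝ)⁻¹ := by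
  have := PadicAlgCl.norm_extends p (p : ℚ_[p])
  simpa using this

include hmul hser in
lemma L_ex {a : PadicAlgCl p} (ha : ‖a‖ ≤ 1 / 4) : L (ex a) = a := by
  rw [← sub_eq_zero, ← norm_le_zero_iff]
  have hp1 : (1 : ℝ) < p := by exact_mod_cast hp.out.one_lt
  have hp0 : (0 : ℝ) < p := by linarith
  have key : ∀ k : ℕ, ‖L (ex a) - a‖ ≤ 4 * ‖a‖ ^ 2 * ((p : ℝ)⁻¹) ^ k := by
    intro k
    have h1 : ‖((p ^ k : ℕ) : PadicAlgCl p)‖ = ((p : ℝ)⁻¹) ^ k := by
      push_cast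
      rw [norm_pow, norm_p_eq]
    have h2 := norm_natCast_mul_le a (p ^ k) ha
    have h3 := norm_L_ex_sub_le L hser h2
    rw [L_ex_nat_mul L hmul ha, ← mul_sub, norm_mul, norm_mul, h1] at h3
    have h4 : (0 : ℝ) < ((p : ℝ)⁻¹) ^ k := by positivity
    have h5 : ((p : ℝ)⁻¹) ^ k * ‖L (ex a) - a‖ ≤ ((p : ℝ)⁻¹) ^ k * (4 * ‖a‖ ^ 2 * ((p : ℝ)⁻¹) ^ k) := by
      refine h3.trans (le_of_eq ?_)
      ring
    exact le_of_mul_le_mul_left h5 h4
  have hlim : Filter.Tendsto (fun k : ℕ => 4 * ‖a‖ ^ 2 * ((p : ℝ)⁻¹) ^ k) Filter.atTop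
      (nhds (4 * ‖a‖ ^ 2 * 0)) :=
    (tendsto_pow_atTop_nhds_zero_of_lt_one (by positivity) (inv_lt_one_of_one_lt₀ hp1)).const_mul _
  rw [mul_zero] at hlim
  exact ge_of_tendsto' hlim key

include hmul hser in
/-- The exponential inverts the logarithm near one. -/
lemma ex_L {α : PadicAlgCl p} (hα : ‖α - 1‖ ≤ 1 / 4) : ex (L α) = α ∧ ‖L α‖ = ‖α - 1‖ := by
  have h0 : ‖L α‖ = ‖α - 1‖ := by
    have := norm_L_one_add L hser hα
    rwa [add_sub_cancel] at this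
  refine ⟨?_, h0⟩
  have hα0 : α ≠ 0 := by
    intro h
    rw [h, zero_sub, norm_neg, norm_one] at hα
    linarith
  have ha : ‖L α‖ ≤ 1 / 4 := by rw [h0]; exact hα
  set e := ex (L α) with he
  have he0 : e ≠ 0 := ex_ne_zero' ha
  have he1 : ‖e - 1‖ ≤ 1 / 4 := (norm_ex_sub_one_le ha).trans ha
  have hLe : L e = L α := L_ex L hmul hser ha
  -- the quotient
  have hen : ‖e‖ = 1 := by
    have : e = 1 + (e - 1) := by ring
    rw [this, IsUltrametricDist.norm_add_eq_max_of_norm_ne_norm, norm_one, max_eq_left (by linarith)]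
    rw [norm_one]
    intro h
    linarith
  have hq : ‖α / e - 1‖ ≤ 1 / 4 := by
    have h1 : α / e - 1 = ((α - 1) - (e - 1)) / e := by
      field_simp
      ring
    rw [h1, norm_div, hen, div_one, sub_eq_add_neg]
    refine (IsUltrametricDist.norm_add_le_max _ _).trans (max_le hα ?_)
    rwa [norm_neg]
  have hLq : L (α / e) = 0 := by
    rw [div_eq_mul_inv, hmul _ _ hα0 (inv_ne_zero he0), L_inv L hmul he0, hLe, add_neg_cancel]
  have h2 := norm_L_one_add L hser hq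
  rw [add_sub_cancel, hLq, norm_zero] at h2
  have h3 : α / e - 1 = 0 := norm_eq_zero.mp h2.symm
  have h4 : α / e = 1 := sub_eq_zero.mp h3
  exact ((div_eq_one_iff_eq he0).mp h4).symm

end L

end Pool.Agent.Lib.MP_c50dba_nt
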