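import Pool.Agent.Lib.MP_c50dba_nt.SixExp

set_option autoImplicit false

/-!
The p-adic six exponentials theorem in terms of logarithms of algebraic numbers.
-/

namespace Pool.Agent.Lib.MP_c50dba_nt

open NumberField Module

variable {p : ℕ} [hp : Fact p.Prime]

lemma norm_pow_sub_one_le {a : PadicAlgCl p} (ha : ‖a - 1‖ ≤ 1 / 4) (n : ℕ) :
    ‖a ^ n - 1‖ ≤ 1 / 4 := by
  induction n with
  | zero => simp
  | succ n ih =>
    have h1 : a ^ (n + 1) - 1 = (a ^ n - 1) * (a - 1) + (a ^ n - 1) + (a - 1) := by ring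
    rw [h1]
    refine (IsUltrametricDist.norm_add_le_max _ _).trans (max_le ?_ ha)
    refine (IsUltrametricDist.norm_add_le_max _ _).trans (max_le ?_ ih)
    rw [norm_mul]
    calc ‖a ^ n - 1‖ * ‖a - 1‖ ≤ (1 / 4) * (1 / 4) := by gcongr
      _ ≤ 1 / 4 := by norm_num

lemma exists_p_pow_small (r : ℝ) (hr : 0 < r) {ι : Type*} [Finite ι] (f : ι → PadicAlgCl p) :
    ∃ g : ℕ, ∀ i, ‖(p : PadicAlgCl p) ^ g * f i‖ ≤ r := by
  classical
  cases nonempty_fintype ι
  have hp1 : (1 : ℝ) < p := by exact_mod_cast hp.out.one_lt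
  have hp0 : (0 : ℝ) < p := by linarith
  have hq : (p : ℝ)⁻¹ < 1 := inv_lt_one_of_one_lt₀ hp1
  set B := 1 + ∑ i, ‖f i‖ with hB
  have hB0 : 0 < B := by
    have : 0 ≤ ∑ i, ‖f i‖ := Finset.sum_nonneg (fun i _ => norm_nonneg _)
    linarith
  obtain ⟨g, hg⟩ := exists_pow_lt_of_lt_one (div_pos hr hB0) hq
  refine ⟨g, fun i => ?_⟩
  rw [norm_mul, norm_pow, norm_p_eq]
  have h1 : ‖f i‖ ≤ B := by
    have := Finset.single_le_sum (f := fun i => ‖f i‖) (fun j _ => norm_nonneg _) (Finset.mem_univ i)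
    linarith
  calc ((p : ℝ)⁻¹) ^ g * ‖f i‖ ≤ (r / B) * B := by gcongr
    _ = r := by field_simp

lemma nat_comb_inj {n : ℕ} {x : Fin n → PadicAlgCl p} (hx : LinearIndependent ℚ x)
    {c : PadicAlgCl p} (hc : c ≠ 0) (s t : Fin n → ℕ)
    (h : ∑ k, (s k : PadicComplex p) * emb p (c * x k) = ∑ k, (t k : PadicComplex p) * emb p (c * x k)) :
    s = t := by
  have h1 : emb p (∑ k, (s k : PadicAlgCl p) * (c * x k)) = emb p (∑ k, (t k : PadicAlgCl p) * (c * x k)) := by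
    rw [map_sum, map_sum]
    simpa using h
  have h2 := (emb p).injective h1
  have h3 : c * ∑ k, ((s k : ℚ) - (t k : ℚ)) • x k = 0 := by
    have h4 : ∑ k, (s k : PadicAlgCl p) * (c * x k) - ∑ k, (t k : PadicAlgCl p) * (c * x k) = 0 :=
      sub_eq_zero.mpr h2
    rw [← Finset.sum_sub_distrib] at h4
    rw [Finset.mul_sum, ← h4]
    apply Finset.sum_congr rfl
    intro k _
    rw [sub_smul, Algebra.smul_def, Algebra.smul_def]
    simp
    ring
  have h5 := (mul_eq_zero.mp h3).resolve_left hc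
  have h6 := Fintype.linearIndependent_iff.mp hx _ h5
  funext k
  have h7 := h6 k
  have h8 : (s k : ℚ) = t k := sub_eq_zero.mp h7
  exact_mod_cast h8

/-- The p-adic six exponentials theorem. -/
theorem six_exp (L : PadicAlgCl p → PadicAlgCl p)
    (hmul : ∀ x y : PadicAlgCl p, x ≠ 0 → y ≠ 0 → L (x * y) = L x + L y)
    (hLp : L (p : PadicAlgCl p) = 0)
    (hser : ∀ x : PadicAlgCl p, ‖x‖ < 1 →
      L (1 + x) = ∑' n : ℕ, (-1 : PadicAlgCl p) ^ n * x ^ (n + 1) / ((n : PadicAlgCl p) + 1))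
    (x : Fin 3 → PadicAlgCl p) (y : Fin 2 → PadicAlgCl p)
    (hx : LinearIndependent ℚ x) (hy : LinearIndependent ℚ y)
    (α : Fin 3 → Fin 2 → PadicAlgCl p) (hα0 : ∀ i j, α i j ≠ 0)
    (hαalg : ∀ i j, IsAlgebraic ℚ (α i j)) (hL : ∀ i j, L (α i j) = x i * y j) : False := by
  classical
  have hpne : (p : PadicAlgCl p) ≠ 0 := by exact_mod_cast hp.out.ne_zero
  choose k m hk hkm using fun ij : Fin 3 × Fin 2 => exists_pow_mul_near_one (hα0 ij.1 ij.2)
  set N := ∏ ij, k ij with hN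
  have hN0 : N ≠ 0 := Finset.prod_ne_zero_iff.mpr (fun ij _ => by have := hk ij; omega)
  have hdvd : ∀ ij, ∃ r, N = k ij * r := fun ij => Finset.dvd_prod_of_mem k (Finset.mem_univ ij)
  choose r hr using hdvd
  obtain ⟨e, he⟩ := exists_p_pow_small (p := p) 1 one_pos y
  obtain ⟨g, hg⟩ := exists_p_pow_small (p := p) (1 / 4) (by norm_num) x
  -- the new algebraic numbers
  let β : Fin 3 × Fin 2 → PadicAlgCl p := fun ij =>
    ((α ij.1 ij.2 ^ (k ij) * (p : PadicAlgCl p) ^ (m ij)) ^ (r ij)) ^ (p ^ (g + e))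
  have hβ1 : ∀ ij, ‖β ij - 1‖ ≤ 1 / 4 := fun ij =>
    norm_pow_sub_one_le (norm_pow_sub_one_le (hkm ij) _) _
  have hβL : ∀ ij, L (β ij) = ((N : PadicAlgCl p) * (p : PadicAlgCl p) ^ g * x ij.1) *
      ((p : PadicAlgCl p) ^ e * y ij.2) := by
    intro ij
    have h1 : α ij.1 ij.2 ^ (k ij) ≠ 0 := pow_ne_zero _ (hα0 _ _)
    have h2 : (p : PadicAlgCl p) ^ (m ij) ≠ 0 := zpow_ne_zero _ hpne
    simp only [β]
    rw [L_pow L hmul (pow_ne_zero _ (mul_ne_zero h1 h2)), L_pow L hmul (mul_ne_zero h1 h2),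
      hmul _ _ h1 h2, L_pow L hmul (hα0 _ _), L_zpow L hmul hpne, hLp, hL, hr ij]
    push_cast
    rw [pow_add]
    ring
  have hβalg : ∀ ij, IsAlgebraic ℚ (β ij) := by
    intro ij
    have h1 : IsAlgebraic ℚ ((p : PadicAlgCl p) ^ (m ij)) := by
      have h2 : IsAlgebraic ℚ (p : PadicAlgCl p) := isAlgebraic_natCast p
      cases m ij with
      | ofNat n => simpa using h2.pow n
      | negSucc n =>
        rw [zpow_negSucc]
        exact (h2.pow _).inv
    exact (((hαalg _ _).pow _).mul h1).pow _ |>.pow _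
  -- the number field
  let K := IntermediateField.adjoin ℚ (Set.range β)
  have hKfin : FiniteDimensional ℚ K := by
    apply IntermediateField.finiteDimensional_adjoin
    rintro _ ⟨ij, rfl⟩
    exact (hβalg ij).isIntegral
  have hKnf : NumberField K := { to_charZero := inferInstance, to_finiteDimensional := hKfin }
  let φ : K →+* PadicComplex p := (emb p).comp K.val.toRingHom
  let a : Fin 3 → Fin 2 → K := fun i j => ⟨β (i, j), IntermediateField.subset_adjoin _ _ ⟨(i, j), rfl⟩⟩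
  have hc1 : (N : PadicAlgCl p) * (p : PadicAlgCl p) ^ g ≠ 0 :=
    mul_ne_zero (by exact_mod_cast hN0) (pow_ne_zero _ hpne)
  have hc2 : (p : PadicAlgCl p) ^ e ≠ 0 := pow_ne_zero _ hpne
  refine six_exp_abstract (p := p) (fun i => emb p ((N : PadicAlgCl p) * (p : PadicAlgCl p) ^ g * x i))
    (fun j => emb p ((p : PadicAlgCl p) ^ e * y j)) ?_ ?_ ?_ ?_ φ a ?_
  · intro i
    rw [emb_norm, mul_assoc, norm_mul]
    calc ‖(N : PadicAlgCl p)‖ * ‖(p : PadicAlgCl p) ^ g * x i‖ ≤ 1 * (1 / 4) := by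
          gcongr
          · exact IsUltrametricDist.norm_natCast_le_one _ _
          · exact hg i
      _ = 1 / 4 := one_mul _
  · intro j
    rw [emb_norm]
    exact he j
  · exact fun s t h => nat_comb_inj hx hc1 s t h
  · exact fun s t h => nat_comb_inj hy hc2 s t h
  · intro i j
    have h1 := ex_L L hmul hser (hβ1 (i, j))
    have h2 : ‖L (β (i, j))‖ ≤ 1 / 4 := by rw [h1.2]; exact hβ1 _
    have h3 : φ (a i j) = emb p (β (i, j)) := rfl
    rw [h3, ← map_mul, ← hβL (i, j), ← emb_ex h2, h1.1]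

end Pool.Agent.Lib.MP_c50dba_nt
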