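import Pool.Agent.Lib.MP_c50dba_nt.DetBound
import Pool.Agent.Lib.MP_c50dba_nt.SixExp

set_option autoImplicit false

/-!
Interpolation determinants of exponential functions in several variables.
-/

namespace Pool.Agent.Lib.MP_c50dba_nt

open NumberField Module

variable {p : ℕ} [hp : Fact p.Prime]

/-- Exponent vectors of total degree less than `T`. -/
def expSet (r T : ℕ) : Finset (Fin r → ℕ) :=
  (Finset.range T).biUnion (fun j => Finset.piAntidiag Finset.univ j)

lemma card_expSet_le (r T : ℕ) : (expSet r T).card ≤ T ^ r := by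
  have h1 : expSet r T ⊆ Fintype.piFinset (fun _ : Fin r => Finset.range T) := by
    intro k hk
    rw [expSet, Finset.mem_biUnion] at hk
    obtain ⟨j, hj, hk⟩ := hk
    rw [Finset.mem_piAntidiag] at hk
    rw [Fintype.mem_piFinset]
    intro i
    rw [Finset.mem_range] at hj ⊢
    have h2 : k i ≤ Finset.univ.sum k :=
      Finset.single_le_sum (f := k) (fun _ _ => Nat.zero_le _) (Finset.mem_univ i)
    rw [hk.1] at h2
    omega
  calc (expSet r T).card ≤ (Fintype.piFinset (fun _ : Fin r => Finset.range T)).card :=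
        Finset.card_le_card h1
    _ = T ^ r := by simp

lemma sum_expSet {C : Type*} [NormedField C] [CharZero C] (r T : ℕ) (w z : Fin r → C) :
    ∑ k ∈ expSet r T, (∏ i, w i ^ k i / ((k i).factorial : C)) * ∏ i, z i ^ k i =
      ∑ j ∈ Finset.range T, (∑ i, w i * z i) ^ j / (j.factorial : C) := by
  rw [expSet, Finset.sum_biUnion]
  · apply Finset.sum_congr rfl
    intro j _
    rw [Finset.sum_pow_eq_sum_piAntidiag, Finset.sum_div]
    apply Finset.sum_congr rfl
    intro k hk
    rw [Finset.mem_piAntidiag] at hk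
    have h1 := Nat.multinomial_spec Finset.univ k
    rw [hk.1] at h1
    have h2 : (∏ i, ((k i).factorial : C)) * (Nat.multinomial Finset.univ k : C) = (j.factorial : C) := by
      rw [← h1]
      push_cast
      rfl
    have h3 : (∏ i, ((k i).factorial : C)) ≠ 0 :=
      Finset.prod_ne_zero_iff.mpr (fun i _ => by exact_mod_cast (k i).factorial_ne_zero)
    have h4 : (j.factorial : C) ≠ 0 := by exact_mod_cast j.factorial_ne_zero
    have h5 : (Nat.multinomial Finset.univ k : C) ≠ 0 := by
      intro h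
      rw [h, mul_zero] at h2
      exact h4 h2.symm
    rw [Finset.prod_div_distrib, ← h2]
    simp only [mul_pow, Finset.prod_mul_distrib]
    field_simp
  · intro j _ j' _ hjj'
    rw [Function.onFun, Finset.disjoint_left]
    intro k hk hk'
    rw [Finset.mem_piAntidiag] at hk hk'
    exact hjj' (hk.1.symm.trans hk'.1)

lemma norm_sum_mul_le {C : Type*} [NormedField C] [IsUltrametricDist C] {r : ℕ} {w z : Fin r → C}
    (hw : ∀ i, ‖w i‖ ≤ 1) (hz : ∀ i, ‖z i‖ ≤ 1 / 4) : ‖∑ i, w i * z i‖ ≤ 1 / 4 := by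
  apply IsUltrametricDist.norm_sum_le_of_forall_le_of_nonneg (by norm_num)
  intro i _
  rw [norm_mul]
  calc ‖w i‖ * ‖z i‖ ≤ 1 * (1 / 4) := by
        gcongr
        · exact hw i
        · exact hz i
    _ = 1 / 4 := one_mul _

lemma norm_trunc_le {C : Type*} [NormedField C] [IsUltrametricDist C] [NormedAlgebra ℚ_[p] C]
    {u : C} (hu : ‖u‖ ≤ 1 / 4) (T : ℕ) :
    ‖∑ j ∈ Finset.range T, u ^ j / (j.factorial : C)‖ ≤ 1 := by
  apply IsUltrametricDist.norm_sum_le_of_forall_le_of_nonneg (by norm_num)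
  intro j _
  refine (norm_div_factorial_le (p := p) u j).trans ?_
  exact pow_le_one₀ (by positivity) (by linarith)

lemma norm_ex_sub_trunc_le {C : Type*} [NormedField C] [CompleteSpace C] [IsUltrametricDist C]
    [NormedAlgebra ℚ_[p] C] {u : C} (hu : ‖u‖ ≤ 1 / 4) (T : ℕ) :
    ‖ex u - ∑ j ∈ Finset.range T, u ^ j / (j.factorial : C)‖ ≤ (1 / 2) ^ T := by
  have hs : Summable (fun k : ℕ => u ^ k / (k.factorial : C)) := (summable_norm_ex (p := p) hu).of_norm
  have h1 : ex u - ∑ j ∈ Finset.range T, u ^ j / (j.factorial : C) =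
      ∑' j : ℕ, u ^ (j + T) / ((j + T).factorial : C) := by
    unfold ex
    rw [← hs.sum_add_tsum_nat_add T]
    ring
  rw [h1]
  apply IsUltrametricDist.norm_tsum_le_of_forall_le_of_nonneg (by positivity)
  intro j
  refine (norm_div_factorial_le (p := p) u (j + T)).trans ?_
  calc (2 * ‖u‖) ^ (j + T) ≤ (1 / 2) ^ (j + T) := by
        apply pow_le_pow_left₀ (by positivity)
        linarith
    _ ≤ (1 / 2) ^ T := pow_le_pow_of_le_one (by norm_num) (by norm_num) (by omega)

/-- Upper bound for interpolation determinants of exponentials in `r` variables. -/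
theorem norm_det_exp_le {C : Type*} [NormedField C] [CompleteSpace C] [IsUltrametricDist C]
    [NormedAlgebra ℚ_[p] C] {ι : Type*} [Fintype ι] [DecidableEq ι] (r T : ℕ)
    (w z : ι → Fin r → C) (hw : ∀ m i, ‖w m i‖ ≤ 1) (hz : ∀ m i, ‖z m i‖ ≤ 1 / 4) :
    ‖(Matrix.of (fun m s => ex (∑ i, w m i * z s i))).det‖ ≤
      (1 / 2) ^ (T * (Fintype.card ι - T ^ r)) := by
  classical
  have : CharZero C := charZero_of_injective_algebraMap (algebraMap ℚ_[p] C).injective
  let A : ι → expSet r T → C := fun m k => ∏ i, w m i ^ (k : Fin r → ℕ) i / (((k : Fin r → ℕ) i).factorial : C)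
  let B : expSet r T → ι → C := fun k s => ∏ i, z s i ^ (k : Fin r → ℕ) i
  let U : ι → ι → C := fun m s => ∑ j ∈ Finset.range T, (∑ i, w m i * z s i) ^ j / (j.factorial : C)
  let W : ι → ι → C := fun m s => ex (∑ i, w m i * z s i) - U m s
  have hUW : (fun m s => ex (∑ i, w m i * z s i)) = U + W := by
    funext m s
    simp [W]
  have hU : ∀ m, U m = ∑ k, A m k • B k := by
    intro m
    funext s
    rw [Finset.sum_apply]
    simp only [U, A, B, Pi.smul_apply, smul_eq_mul]
    rw [← sum_expSet r T (w m) (z s)]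
    exact (Finset.sum_coe_sort (expSet r T)
      (fun k => (∏ i, w m i ^ k i / ((k i).factorial : C)) * ∏ i, z s i ^ k i)).symm
  have hu : ∀ m s, ‖∑ i, w m i * z s i‖ ≤ 1 / 4 := fun m s => norm_sum_mul_le (hw m) (hz s)
  have h1 := norm_det_low_rank_le A B U W hU ((1 / 2) ^ T) (by positivity)
    (pow_le_one₀ (by norm_num) (by norm_num)) (fun m s => norm_trunc_le (p := p) (hu m s) T)
    (fun m s => norm_ex_sub_trunc_le (p := p) (hu m s) T)
  rw [hUW]
  refine h1.trans ?_
  rw [← pow_mul]
  apply pow_le_pow_of_le_one (by norm_num) (by norm_num)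
  have h2 := card_expSet_le r T
  rw [Fintype.card_coe]
  gcongr

end Pool.Agent.Lib.MP_c50dba_nt
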