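import Mathlib

set_option autoImplicit false

/-!
Basic facts about the Iwasawa logarithm on `PadicAlgCl p`.
-/

namespace Pool.Agent.Lib.MP_c50dba_nt

open scoped Topology

variable {p : ℕ} [hp : Fact p.Prime]

/-- The terms of the logarithm series. -/
noncomputable def logTerm (x : PadicAlgCl p) (n : ℕ) : PadicAlgCl p :=
  (-1 : PadicAlgCl p) ^ n * x ^ (n + 1) / ((n : PadicAlgCl p) + 1)

lemma norm_natCast_ge (m : ℕ) (hm : m ≠ 0) : (1 : ℝ) / m ≤ ‖(m : PadicAlgCl p)‖ := by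
  have h1 : ‖(m : PadicAlgCl p)‖ = ‖(m : ℚ_[p])‖ := by
    have := PadicAlgCl.norm_extends p (m : ℚ_[p])
    simpa using this
  rw [h1]
  have h2 : ‖(m : ℚ_[p])‖ = (p : ℝ) ^ (-(padicValNat p m : ℤ)) := by
    have : (m : ℚ_[p]) ≠ 0 := by exact_mod_cast hm
    rw [Padic.norm_eq_zpow_neg_valuation this, Padic.valuation_natCast]
  rw [h2, zpow_neg, zpow_natCast, one_div]
  apply inv_anti₀
  · exact pow_pos (by exact_mod_cast hp.out.pos) _
  · exact_mod_cast Nat.le_of_dvd (Nat.pos_of_ne_zero hm) pow_padicValNat_dvd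

lemma norm_logTerm_le (x : PadicAlgCl p) (n : ℕ) :
    ‖logTerm x n‖ ≤ ‖x‖ ^ (n + 1) * ((n : ℝ) + 1) := by
  unfold logTerm
  rw [norm_div, norm_mul, norm_pow, norm_neg, norm_one, one_pow, one_mul, norm_pow]
  have h := norm_natCast_ge (p := p) (n + 1) (Nat.succ_ne_zero n)
  have h0 : (0 : ℝ) < 1 / ((n + 1 : ℕ) : ℝ) := by positivity
  have h3 : ((n : PadicAlgCl p) + 1) = ((n + 1 : ℕ) : PadicAlgCl p) := by push_cast; ring
  rw [h3, div_eq_mul_inv]
  apply mul_le_mul_of_nonneg_left _ (by positivity)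
  calc ‖((n + 1 : ℕ) : PadicAlgCl p)‖⁻¹ ≤ (1 / ((n + 1 : ℕ) : ℝ))⁻¹ := inv_anti₀ h0 h
    _ = (n : ℝ) + 1 := by simp

lemma summable_aux {r : ℝ} (h0 : 0 ≤ r) (h1 : r < 1) :
    Summable (fun n : ℕ => r ^ (n + 1) * ((n : ℝ) + 1)) := by
  have h := summable_pow_mul_geometric_of_norm_lt_one (R := ℝ) 1 (r := r)
    (by rwa [Real.norm_of_nonneg h0])
  have h2 := (summable_nat_add_iff 1).mpr h
  refine h2.congr ?_
  intro n
  push_cast
  ring

lemma summable_norm_logTerm (x : PadicAlgCl p) (hx : ‖x‖ < 1) :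
    Summable (fun n => ‖logTerm x n‖) :=
  Summable.of_nonneg_of_le (fun _ => norm_nonneg _) (norm_logTerm_le x)
    (summable_aux (norm_nonneg x) hx)

lemma summable_of_mem {x : PadicAlgCl p} {f : ℕ → PadicAlgCl p}
    (hf : ∀ n, f n ∈ IntermediateField.adjoin ℚ_[p] {x}) (hs : Summable (fun n => ‖f n‖)) :
    Summable f := by
  have hfin : FiniteDimensional ℚ_[p] (IntermediateField.adjoin ℚ_[p] {x}) :=
    IntermediateField.adjoin.finiteDimensional
      (Algebra.IsAlgebraic.isAlgebraic x).isIntegral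
  let F : Submodule ℚ_[p] (PadicAlgCl p) :=
    Subalgebra.toSubmodule (IntermediateField.adjoin ℚ_[p] {x}).toSubalgebra
  have hfin' : FiniteDimensional ℚ_[p] F := hfin
  have hc : CompleteSpace F := FiniteDimensional.complete ℚ_[p] F
  let g : ℕ → F := fun n => ⟨f n, hf n⟩
  have hg : Summable g := by
    apply Summable.of_norm
    exact hs
  have := hg.map F.subtypeL F.subtypeL.continuous
  exact this

lemma summable_logTerm (x : PadicAlgCl p) (hx : ‖x‖ < 1) : Summable (logTerm x) := by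
  apply summable_of_mem (x := x) _ (summable_norm_logTerm x hx)
  intro n
  have hxm : x ∈ IntermediateField.adjoin ℚ_[p] {x} :=
    IntermediateField.mem_adjoin_simple_self _ _
  unfold logTerm
  refine div_mem (mul_mem (pow_mem (neg_mem (one_mem _)) _) (pow_mem hxm _)) ?_
  exact add_mem (natCast_mem _ n) (one_mem _)

/-- The logarithm series. -/
noncomputable def logS (x : PadicAlgCl p) : PadicAlgCl p := ∑' n : ℕ, logTerm x n

lemma norm_tsum_le_of {f : ℕ → PadicAlgCl p} {C : ℝ} (hC : 0 ≤ C)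
    (h : ∀ n, ‖f n‖ ≤ C) : ‖∑' n, f n‖ ≤ C :=
  IsUltrametricDist.norm_tsum_le_of_forall_le_of_nonneg hC h

/-- For `‖x‖ ≤ 1/4` the logarithm series is `x` up to an error `≤ 2 ‖x‖^2`. -/
lemma norm_logS_sub_le (x : PadicAlgCl p) (hx : ‖x‖ ≤ 1 / 4) :
    ‖logS x - x‖ ≤ 2 * ‖x‖ ^ 2 := by
  have hs := summable_logTerm x (by linarith)
  have h1 : logS x - x = ∑' n : ℕ, logTerm x (n + 1) := by
    unfold logS
    rw [hs.tsum_eq_zero_add]
    simp [logTerm]
  rw [h1]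
  apply norm_tsum_le_of (by positivity)
  intro n
  refine (norm_logTerm_le x (n + 1)).trans ?_
  push_cast
  have h2 : ∀ n : ℕ, ‖x‖ ^ n * ((n : ℝ) + 2) ≤ 2 := by
    intro n
    have h3 : ‖x‖ ^ n ≤ (1 / 4) ^ n := pow_le_pow_left₀ (norm_nonneg _) hx n
    have h4 : ((n : ℝ) + 2) ≤ 2 * 4 ^ n := by
      induction n with
      | zero => norm_num
      | succ k ih =>
        have h5 := ih (pow_le_pow_left₀ (norm_nonneg _) hx k)
        push_cast
        rw [pow_succ]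
        have : (1 : ℝ) ≤ 4 ^ k := one_le_pow₀ (by norm_num)
        nlinarith
    calc ‖x‖ ^ n * ((n : ℝ) + 2) ≤ (1 / 4) ^ n * (2 * 4 ^ n) := by gcongr
      _ = 2 := by rw [one_div, inv_pow]; field_simp
  have h3 := h2 n
  calc ‖x‖ ^ (n + 1 + 1) * ((n : ℝ) + 1 + 1) = ‖x‖ ^ 2 * (‖x‖ ^ n * ((n : ℝ) + 2)) := by ring
    _ ≤ ‖x‖ ^ 2 * 2 := by gcongr
    _ = 2 * ‖x‖ ^ 2 := by ring

lemma norm_logS (x : PadicAlgCl p) (hx : ‖x‖ ≤ 1 / 4) : ‖logS x‖ = ‖x‖ := by
  by_cases h0 : x = 0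
  · have := norm_logS_sub_le x hx
    rw [h0] at this ⊢
    simp at this
    rw [this]
  have hpos : 0 < ‖x‖ := norm_pos_iff.mpr h0
  have h1 := norm_logS_sub_le x hx
  have h2 : ‖logS x - x‖ < ‖x‖ := by nlinarith
  have h3 : logS x = (logS x - x) + x := by ring
  rw [h3, IsUltrametricDist.norm_add_eq_max_of_norm_ne_norm h2.ne, max_eq_right h2.le]

end Pool.Agent.Lib.MP_c50dba_nt
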