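import Pool.Agent.Lib.MP_c50dba_nt.Log
import Pool.Agent.Lib.MP_c50dba_nt.Liouville

set_option autoImplicit false

/-!
The p-adic exponential.
-/

namespace Pool.Agent.Lib.MP_c50dba_nt

variable {p : ℕ} [hp : Fact p.Prime]

/-- The exponential series. -/
noncomputable def ex {C : Type*} [NormedField C] (w : C) : C := ∑' k : ℕ, w ^ k / (k.factorial : C)

lemma norm_factorial_ge {C : Type*} [NormedField C] [NormedAlgebra ℚ_[p] C] (k : ℕ) :
    (1 / 2 : ℝ) ^ k ≤ ‖(k.factorial : C)‖ := by
  have h1 : ‖(k.factorial : C)‖ = ‖(k.factorial : ℚ_[p])‖ := by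
    have := norm_algebraMap' C (k.factorial : ℚ_[p])
    simpa using this
  rw [h1]
  have h2 : ‖(k.factorial : ℚ_[p])‖ = (p : ℝ) ^ (-(padicValNat p k.factorial : ℤ)) := by
    have : (k.factorial : ℚ_[p]) ≠ 0 := by exact_mod_cast k.factorial_ne_zero
    rw [Padic.norm_eq_zpow_neg_valuation this, Padic.valuation_natCast]
  rw [h2, zpow_neg, zpow_natCast, one_div, inv_pow]
  apply inv_anti₀
  · exact pow_pos (by exact_mod_cast hp.out.pos) _
  · have h3 := sub_one_mul_padicValNat_factorial (p := p) k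
    have h4 : (p - 1) * padicValNat p k.factorial ≤ k := by omega
    have h5 : p ≤ 2 ^ (p - 1) := by
      have := Nat.lt_two_pow_self (n := p - 1)
      have := hp.out.pos
      omega
    have h6 : p ^ padicValNat p k.factorial ≤ 2 ^ k := by
      calc p ^ padicValNat p k.factorial ≤ (2 ^ (p - 1)) ^ padicValNat p k.factorial :=
            Nat.pow_le_pow_left h5 _
        _ = 2 ^ ((p - 1) * padicValNat p k.factorial) := by rw [pow_mul]
        _ ≤ 2 ^ k := Nat.pow_le_pow_right (by norm_num) h4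
    exact_mod_cast h6

lemma norm_div_factorial_le {C : Type*} [NormedField C] [NormedAlgebra ℚ_[p] C] (w : C) (k : ℕ) :
    ‖w ^ k / (k.factorial : C)‖ ≤ (2 * ‖w‖) ^ k := by
  rw [norm_div, norm_pow, mul_pow]
  have h := norm_factorial_ge (p := p) (C := C) k
  have h0 : (0 : ℝ) < (1 / 2) ^ k := by positivity
  have h1 : ‖(k.factorial : C)‖⁻¹ ≤ ((1 / 2 : ℝ) ^ k)⁻¹ := inv_anti₀ h0 h
  have h2 : ((1 / 2 : ℝ) ^ k)⁻¹ = 2 ^ k := by rw [one_div, inv_pow, inv_inv]
  rw [h2] at h1
  rw [div_eq_mul_inv, mul_comm]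
  gcongr

lemma summable_norm_ex {C : Type*} [NormedField C] [NormedAlgebra ℚ_[p] C] {w : C}
    (hw : ‖w‖ ≤ 1 / 4) : Summable (fun k : ℕ => ‖w ^ k / (k.factorial : C)‖) := by
  have hg : Summable (fun k : ℕ => (1 / 2 : ℝ) ^ k) :=
    summable_geometric_of_lt_one (by norm_num) (by norm_num)
  refine Summable.of_nonneg_of_le (fun _ => norm_nonneg _) ?_ hg
  intro k
  refine (norm_div_factorial_le (p := p) w k).trans ?_
  gcongr
  linarith

/-- Functional equation, given summability. -/
lemma ex_add_aux {C : Type*} [NormedField C] [CharZero C] {a b : C}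
    (ha' : Summable (fun k : ℕ => a ^ k / (k.factorial : C)))
    (hb' : Summable (fun k : ℕ => b ^ k / (k.factorial : C)))
    (hab : Summable (fun kl : ℕ × ℕ => (a ^ kl.1 / (kl.1.factorial : C)) *
      (b ^ kl.2 / (kl.2.factorial : C)))) :
    ex (a + b) = ex a * ex b := by
  unfold ex
  rw [ha'.tsum_mul_tsum_eq_tsum_sum_antidiagonal hb' hab]
  congr 1
  funext n
  rw [(Commute.all a b).add_pow', Finset.sum_div]
  apply Finset.sum_congr rfl
  intro kl hkl
  replace hkl := Finset.HasAntidiagonal.mem_antidiagonal.mp hkl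
  have h1 : n.choose kl.1 * kl.2.factorial * kl.1.factorial = n.factorial := by
    have := Nat.add_choose_mul_factorial_mul_factorial kl.2 kl.1
    rwa [add_comm kl.2 kl.1, hkl] at this
  have h2 : (n.choose kl.1 : C) * (kl.1.factorial : C) * (kl.2.factorial : C) = (n.factorial : C) := by
    rw [← h1, Nat.cast_mul, Nat.cast_mul]
    ring
  have h3 : (kl.1.factorial : C) ≠ 0 := by exact_mod_cast kl.1.factorial_ne_zero
  have h4 : (kl.2.factorial : C) ≠ 0 := by exact_mod_cast kl.2.factorial_ne_zero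
  have h5 : (n.factorial : C) ≠ 0 := by exact_mod_cast n.factorial_ne_zero
  rw [nsmul_eq_mul, ← h2]
  have h6 : (n.choose kl.1 : C) ≠ 0 := by
    intro h
    rw [h] at h2
    apply h5
    rw [← h2]; ring
  field_simp

lemma ex_add {C : Type*} [NormedField C] [CompleteSpace C] [NormedAlgebra ℚ_[p] C] {a b : C}
    (ha : ‖a‖ ≤ 1 / 4) (hb : ‖b‖ ≤ 1 / 4) : ex (a + b) = ex a * ex b := by
  have : CharZero C := charZero_of_injective_algebraMap (algebraMap ℚ_[p] C).injective
  have h1 := summable_norm_ex (p := p) ha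
  have h2 := summable_norm_ex (p := p) hb
  have h3 : Summable (fun k : ℕ => a ^ k / (k.factorial : C)) := h1.of_norm
  have h4 : Summable (fun k : ℕ => b ^ k / (k.factorial : C)) := h2.of_norm
  have h5 : Summable (fun kl : ℕ × ℕ => (a ^ kl.1 / (kl.1.factorial : C)) *
      (b ^ kl.2 / (kl.2.factorial : C))) :=
    summable_mul_of_summable_norm (f := fun k : ℕ => a ^ k / (k.factorial : C))
      (g := fun k : ℕ => b ^ k / (k.factorial : C)) h1 h2
  exact ex_add_aux h3 h4 h5

lemma ex_zero {C : Type*} [NormedField C] : ex (0 : C) = 1 := by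
  unfold ex
  rw [tsum_eq_single 0]
  · simp
  · intro k hk
    simp [hk]

lemma ex_nat_mul {C : Type*} [NormedField C] [CompleteSpace C] [IsUltrametricDist C]
    [NormedAlgebra ℚ_[p] C] {a : C} (ha : ‖a‖ ≤ 1 / 4) (n : ℕ) : ex (n * a) = ex a ^ n := by
  induction n with
  | zero => simp [ex_zero]
  | succ n ih =>
    have h1 : ((n + 1 : ℕ) : C) * a = n * a + a := by push_cast; ring
    have h2 : ‖(n : C) * a‖ ≤ 1 / 4 := by
      rw [norm_mul]
      calc ‖(n : C)‖ * ‖a‖ ≤ 1 * (1 / 4) := by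
            gcongr
            exact IsUltrametricDist.norm_natCast_le_one C n
        _ = 1 / 4 := one_mul _
    rw [h1, ex_add (p := p) h2 ha, ih, pow_succ]

end Pool.Agent.Lib.MP_c50dba_nt
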