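import Mathlib

set_option autoImplicit false

/-!
A non-archimedean Schwarz lemma for power series with many zeros.
-/

namespace Pool.Agent.Lib.MP_c50dba_nt

variable {C : Type*} [NormedField C] [CompleteSpace C] [IsUltrametricDist C]

/-- The value of the power series with coefficients `f` at `z`. -/
noncomputable def pval (f : ℕ → C) (z : C) : C := ∑' k, f k * z ^ k

lemma pval_summable {f : ℕ → C} {M : ℝ} (hf : ∀ k, ‖f k‖ ≤ M * 2 ^ k) {z : C}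
    (hz : ‖z‖ ≤ 1 / 4) : Summable (fun k => f k * z ^ k) := by
  apply Summable.of_norm
  have hg : Summable (fun k : ℕ => M * (1 / 2 : ℝ) ^ k) :=
    (summable_geometric_of_lt_one (by norm_num) (by norm_num)).mul_left M
  refine Summable.of_nonneg_of_le (fun _ => norm_nonneg _) ?_ hg
  intro k
  rw [norm_mul, norm_pow]
  have h1 : ‖z‖ ^ k ≤ (1 / 4) ^ k := pow_le_pow_left₀ (norm_nonneg _) hz k
  have hM : 0 ≤ M * 2 ^ k := (norm_nonneg _).trans (hf k)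
  calc ‖f k‖ * ‖z‖ ^ k ≤ (M * 2 ^ k) * (1 / 4) ^ k := by
        apply mul_le_mul (hf k) h1 (by positivity) hM
    _ = M * (1 / 2 : ℝ) ^ k := by
        rw [mul_assoc, ← mul_pow]; norm_num

/-- Division of a power series by `z - a`. -/
noncomputable def pdiv (f : ℕ → C) (a : C) (k : ℕ) : C := ∑' m, f (k + 1 + m) * a ^ m

lemma shift_bound {f : ℕ → C} {M : ℝ} (hf : ∀ k, ‖f k‖ ≤ M * 2 ^ k) (k : ℕ) :
    ∀ m, ‖f (k + m)‖ ≤ (M * 2 ^ k) * 2 ^ m := by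
  intro m
  have := hf (k + m)
  rwa [pow_add, ← mul_assoc] at this

lemma pdiv_summable {f : ℕ → C} {M : ℝ} (hf : ∀ k, ‖f k‖ ≤ M * 2 ^ k) {a : C}
    (ha : ‖a‖ ≤ 1 / 4) (k : ℕ) : Summable (fun m => f (k + m) * a ^ m) :=
  pval_summable (f := fun m => f (k + m)) (shift_bound hf k) ha

lemma norm_pdiv_le {f : ℕ → C} {M : ℝ} (hM : 0 ≤ M) (hf : ∀ k, ‖f k‖ ≤ M * 2 ^ k) {a : C}
    (ha : ‖a‖ ≤ 1 / 4) (k : ℕ) : ‖pdiv f a k‖ ≤ (2 * M) * 2 ^ k := by
  apply IsUltrametricDist.norm_tsum_le_of_forall_le_of_nonneg (by positivity)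
  intro m
  rw [norm_mul, norm_pow]
  have h1 : ‖a‖ ^ m ≤ (1 / 4) ^ m := pow_le_pow_left₀ (norm_nonneg _) ha m
  have h2 := shift_bound hf (k + 1) m
  have h3 : (2 : ℝ) ^ m * (1 / 4) ^ m ≤ 1 := by
    rw [← mul_pow]
    exact pow_le_one₀ (by norm_num) (by norm_num)
  calc ‖f (k + 1 + m)‖ * ‖a‖ ^ m ≤ ((M * 2 ^ (k + 1)) * 2 ^ m) * (1 / 4) ^ m := by
        apply mul_le_mul h2 h1 (by positivity) (by positivity)
    _ = (2 * M * 2 ^ k) * (2 ^ m * (1 / 4) ^ m) := by ring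
    _ ≤ (2 * M * 2 ^ k) * 1 := by gcongr
    _ = _ := by ring

lemma pdiv_rec {f : ℕ → C} {M : ℝ} (hf : ∀ k, ‖f k‖ ≤ M * 2 ^ k) {a : C}
    (ha : ‖a‖ ≤ 1 / 4) (k : ℕ) : f (k + 1) = pdiv f a k - a * pdiv f a (k + 1) := by
  have hs := pdiv_summable hf ha (k + 1)
  have h1 : pdiv f a k = f (k + 1) + ∑' m, f (k + 1 + (m + 1)) * a ^ (m + 1) := by
    unfold pdiv
    rw [hs.tsum_eq_zero_add]
    simp
  have h2 : a * pdiv f a (k + 1) = ∑' m, f (k + 1 + (m + 1)) * a ^ (m + 1) := by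
    unfold pdiv
    rw [← tsum_mul_left]
    congr 1
    funext m
    have : k + 1 + 1 + m = k + 1 + (m + 1) := by ring
    rw [this, pow_succ]
    ring
  rw [h1, h2]
  ring

lemma pdiv_rec_zero {f : ℕ → C} {M : ℝ} (hf : ∀ k, ‖f k‖ ≤ M * 2 ^ k) {a : C}
    (ha : ‖a‖ ≤ 1 / 4) (h0 : pval f a = 0) : f 0 = - (a * pdiv f a 0) := by
  have hs := pval_summable hf ha
  have h1 : pval f a = f 0 + ∑' m, f (m + 1) * a ^ (m + 1) := by
    unfold pval
    rw [hs.tsum_eq_zero_add]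
    simp
  have h2 : a * pdiv f a 0 = ∑' m, f (m + 1) * a ^ (m + 1) := by
    unfold pdiv
    rw [← tsum_mul_left]
    congr 1
    funext m
    have : 0 + 1 + m = m + 1 := by ring
    rw [this, pow_succ]
    ring
  rw [h2, ← sub_eq_zero, sub_neg_eq_add, ← h1, h0]

lemma pval_eq_mul {f : ℕ → C} {M : ℝ} (hM : 0 ≤ M) (hf : ∀ k, ‖f k‖ ≤ M * 2 ^ k) {a : C}
    (ha : ‖a‖ ≤ 1 / 4) (h0 : pval f a = 0) {b : C} (hb : ‖b‖ ≤ 1 / 4) :
    pval f b = (b - a) * pval (pdiv f a) b := by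
  have hg := norm_pdiv_le hM hf ha
  have hsg := pval_summable hg hb
  have hs := pval_summable hf hb
  have h1 : pval f b = f 0 + ∑' m, f (m + 1) * b ^ (m + 1) := by
    unfold pval
    rw [hs.tsum_eq_zero_add]
    simp
  have hsg' : Summable (fun m => pdiv f a (m + 1) * b ^ (m + 1)) :=
    (summable_nat_add_iff 1).mpr hsg
  have h2 : ∑' m, f (m + 1) * b ^ (m + 1) =
      b * pval (pdiv f a) b - a * ∑' m, pdiv f a (m + 1) * b ^ (m + 1) := by
    unfold pval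
    rw [← tsum_mul_left, ← tsum_mul_left, ← (hsg.mul_left b).tsum_sub (hsg'.mul_left a)]
    congr 1
    funext m
    rw [pdiv_rec hf ha m, pow_succ]
    ring
  have h3 : pval (pdiv f a) b = pdiv f a 0 + ∑' m, pdiv f a (m + 1) * b ^ (m + 1) := by
    unfold pval
    rw [hsg.tsum_eq_zero_add]
    simp
  rw [h1, h2, pdiv_rec_zero hf ha h0, sub_mul]
  conv_rhs => rw [h3]
  rw [h3]
  ring

/-- A power series with many zeros has small coefficients. -/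
theorem coeff_bound (n : ℕ) : ∀ (f : ℕ → C) (M : ℝ), 0 ≤ M → (∀ k, ‖f k‖ ≤ M * 2 ^ k) →
    ∀ s : Finset C, s.card = n → (∀ a ∈ s, ‖a‖ ≤ 1 / 4 ∧ pval f a = 0) →
      ∀ k, ‖f k‖ ≤ M * (1 / 2) ^ n * 4 ^ k := by
  classical
  induction n with
  | zero =>
    intro f M hM hf s _ _ k
    refine (hf k).trans ?_
    rw [pow_zero, mul_one]
    gcongr
    norm_num
  | succ n ih =>
    intro f M hM hf s hs hz k
    obtain ⟨a, s', ha, hs', hcard⟩ := Finset.card_eq_succ.mp hs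
    have has : a ∈ s := by rw [← hs']; exact Finset.mem_insert_self _ _
    obtain ⟨ha4, ha0⟩ := hz a has
    have hg := norm_pdiv_le hM hf ha4
    have hz' : ∀ b ∈ s', ‖b‖ ≤ 1 / 4 ∧ pval (pdiv f a) b = 0 := by
      intro b hb
      have hbs : b ∈ s := by rw [← hs']; exact Finset.mem_insert_of_mem hb
      obtain ⟨hb4, hb0⟩ := hz b hbs
      refine ⟨hb4, ?_⟩
      have h1 := pval_eq_mul hM hf ha4 ha0 hb4
      rw [hb0] at h1
      rcases mul_eq_zero.mp h1.symm with h | h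
      · exfalso
        apply ha
        rwa [sub_eq_zero.mp h] at hb
      · exact h
    have hG := ih (pdiv f a) (2 * M) (by positivity) hg s' hcard hz'
    cases k with
    | zero =>
      rw [pdiv_rec_zero hf ha4 ha0, norm_neg, norm_mul]
      have h1 := hG 0
      calc ‖a‖ * ‖pdiv f a 0‖ ≤ (1 / 4) * (2 * M * (1 / 2) ^ n * 4 ^ 0) := by gcongr
        _ = M * (1 / 2) ^ (n + 1) * 4 ^ 0 := by rw [pow_succ]; ring
    | succ k =>
      rw [pdiv_rec hf ha4 k, sub_eq_add_neg]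
      refine (IsUltrametricDist.norm_add_le_max _ _).trans (max_le ?_ ?_)
      · refine (hG k).trans (le_of_eq ?_)
        rw [pow_succ, pow_succ]; ring
      · rw [norm_neg, norm_mul]
        calc ‖a‖ * ‖pdiv f a (k + 1)‖ ≤ (1 / 4) * (2 * M * (1 / 2) ^ n * 4 ^ (k + 1)) := by
              gcongr
              exact hG (k + 1)
          _ = M * (1 / 2) ^ (n + 1) * 4 ^ (k + 1) := by rw [pow_succ (1 / 2 : ℝ) n]; ring

/-- Schwarz lemma. -/
theorem schwarz (f : ℕ → C) (M : ℝ) (hM : 0 ≤ M) (hf : ∀ k, ‖f k‖ ≤ M * 2 ^ k)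
    (s : Finset C) (hz : ∀ a ∈ s, ‖a‖ ≤ 1 / 4 ∧ pval f a = 0) {z : C} (hz4 : ‖z‖ ≤ 1 / 4) :
    ‖pval f z‖ ≤ M * (1 / 2) ^ s.card := by
  apply IsUltrametricDist.norm_tsum_le_of_forall_le_of_nonneg (by positivity)
  intro k
  have h1 := coeff_bound s.card f M hM hf s rfl hz k
  have h2 : ‖z‖ ^ k ≤ (1 / 4) ^ k := pow_le_pow_left₀ (norm_nonneg _) hz4 k
  rw [norm_mul, norm_pow]
  calc ‖f k‖ * ‖z‖ ^ k ≤ (M * (1 / 2) ^ s.card * 4 ^ k) * (1 / 4) ^ k := by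
        apply mul_le_mul h1 h2 (by positivity) (by positivity)
    _ = M * (1 / 2) ^ s.card * (4 ^ k * (1 / 4) ^ k) := by ring
    _ = M * (1 / 2) ^ s.card := by rw [← mul_pow]; norm_num

/-- A power series with arbitrarily many zeros vanishes. -/
theorem eq_zero_of_zeros (f : ℕ → C) (M : ℝ) (hM : 0 ≤ M) (hf : ∀ k, ‖f k‖ ≤ M * 2 ^ k)
    (h : ∀ n : ℕ, ∃ s : Finset C, n ≤ s.card ∧ ∀ a ∈ s, ‖a‖ ≤ 1 / 4 ∧ pval f a = 0) (k : ℕ) :
    f k = 0 := by
  rw [← norm_le_zero_iff]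
  have h1 : ∀ n : ℕ, ‖f k‖ ≤ M * 4 ^ k * (1 / 2) ^ n := by
    intro n
    obtain ⟨s, hs, hz⟩ := h n
    have h2 := coeff_bound s.card f M hM hf s rfl hz k
    have h3 : (1 / 2 : ℝ) ^ s.card ≤ (1 / 2) ^ n :=
      pow_le_pow_of_le_one (by norm_num) (by norm_num) hs
    calc ‖f k‖ ≤ M * (1 / 2) ^ s.card * 4 ^ k := h2
      _ ≤ M * (1 / 2) ^ n * 4 ^ k := by gcongr
      _ = _ := by ring
  have h2 : Filter.Tendsto (fun n : ℕ => M * 4 ^ k * (1 / 2 : ℝ) ^ n) Filter.atTop (nhds (M * 4 ^ k * 0)) :=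
    (tendsto_pow_atTop_nhds_zero_of_lt_one (by norm_num) (by norm_num)).const_mul _
  rw [mul_zero] at h2
  exact ge_of_tendsto' h2 h1

end Pool.Agent.Lib.MP_c50dba_nt
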