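import Pool.Agent.Lib.MP_c50dba_nt.CommonFactor

set_option autoImplicit false

/-!
Translations on the polynomial ring by elements of the torus.
-/

namespace Pool.Agent.Lib.MP_c50dba_nt

open MvPolynomial

variable {F : Type*} [Field F] {n d : ℕ}

/-- Translation of a polynomial by an element of the torus. -/
noncomputable def tr (γ : Fin n → F) : MvPolynomial (Fin n) F →ₐ[F] MvPolynomial (Fin n) F :=
  aeval (fun i => C (γ i) * X i)

lemma tr_monomial (γ : Fin n → F) (m : Fin n →₀ ℕ) (a : F) :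
    tr γ (monomial m a) = monomial m ((∏ i, γ i ^ m i) * a) := by
  unfold tr
  rw [aeval_monomial, Finsupp.prod_fintype _ _ (fun i => pow_zero _), monomial_eq (s := m),
    Finsupp.prod_fintype _ _ (fun i => pow_zero _)]
  simp only [mul_pow, Finset.prod_mul_distrib]
  rw [map_mul, map_prod]
  simp only [map_pow, algebraMap_eq]
  ring

lemma coeff_tr (γ : Fin n → F) (P : MvPolynomial (Fin n) F) (m : Fin n →₀ ℕ) :
    coeff m (tr γ P) = (∏ i, γ i ^ m i) * coeff m P := by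
  induction P using MvPolynomial.induction_on' with
  | monomial u a =>
    rw [tr_monomial, coeff_monomial, coeff_monomial]
    split_ifs with h
    · rw [h]
    · rw [mul_zero]
  | add P Q hP hQ => rw [map_add, coeff_add, coeff_add, hP, hQ, mul_add]

lemma eval_tr (γ x : Fin n → F) (P : MvPolynomial (Fin n) F) :
    eval x (tr γ P) = eval (fun i => γ i * x i) P := by
  induction P using MvPolynomial.induction_on' with
  | monomial u a =>
    rw [tr_monomial, eval_monomial, eval_monomial, Finsupp.prod_fintype _ _ (fun i => pow_zero _),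
      Finsupp.prod_fintype _ _ (fun i => pow_zero _)]
    simp only [mul_pow, Finset.prod_mul_distrib]
    ring
  | add P Q hP hQ => rw [map_add, map_add, map_add, hP, hQ]

lemma tr_tr_inv (γ : Fin n → F) (hγ : ∀ i, γ i ≠ 0) (P : MvPolynomial (Fin n) F) :
    tr γ (tr (fun i => (γ i)⁻¹) P) = P := by
  ext m
  rw [coeff_tr, coeff_tr, ← mul_assoc, ← Finset.prod_mul_distrib]
  have : ∀ i, γ i ^ m i * (γ i)⁻¹ ^ m i = 1 := by
    intro i
    rw [← mul_pow, mul_inv_cancel₀ (hγ i), one_pow]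
  rw [Finset.prod_congr rfl (fun i _ => this i), Finset.prod_const_one, one_mul]

lemma tr_inv_tr (γ : Fin n → F) (hγ : ∀ i, γ i ≠ 0) (P : MvPolynomial (Fin n) F) :
    tr (fun i => (γ i)⁻¹) (tr γ P) = P := by
  ext m
  rw [coeff_tr, coeff_tr, ← mul_assoc, ← Finset.prod_mul_distrib]
  have : ∀ i, (γ i)⁻¹ ^ m i * γ i ^ m i = 1 := by
    intro i
    rw [← mul_pow, inv_mul_cancel₀ (hγ i), one_pow]
  rw [Finset.prod_congr rfl (fun i _ => this i), Finset.prod_const_one, one_mul]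

/-- Translation as an equivalence. -/
noncomputable def trE (γ : Fin n → F) (hγ : ∀ i, γ i ≠ 0) :
    MvPolynomial (Fin n) F ≃+* MvPolynomial (Fin n) F where
  toFun := tr γ
  invFun := tr (fun i => (γ i)⁻¹)
  left_inv := tr_inv_tr γ hγ
  right_inv := tr_tr_inv γ hγ
  map_mul' := map_mul _
  map_add' := map_add _

lemma irreducible_tr (γ : Fin n → F) (hγ : ∀ i, γ i ≠ 0) {P : MvPolynomial (Fin n) F} :
    Irreducible (tr γ P) ↔ Irreducible P :=
  MulEquiv.irreducible_iff (trE γ hγ)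

lemma support_tr (γ : Fin n → F) (hγ : ∀ i, γ i ≠ 0) (P : MvPolynomial (Fin n) F) :
    (tr γ P).support = P.support := by
  ext m
  rw [mem_support_iff, mem_support_iff, coeff_tr]
  have h1 : ∏ i, γ i ^ m i ≠ 0 := Finset.prod_ne_zero_iff.mpr (fun i _ => pow_ne_zero _ (hγ i))
  simp [h1]

lemma degreeOf_tr (γ : Fin n → F) (hγ : ∀ i, γ i ≠ 0) (P : MvPolynomial (Fin n) F) (i : Fin n) :
    degreeOf i (tr γ P) = degreeOf i P := by
  rw [degreeOf_eq_sup, degreeOf_eq_sup, support_tr γ hγ]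

lemma tr_ne_zero (γ : Fin n → F) (hγ : ∀ i, γ i ≠ 0) {P : MvPolynomial (Fin n) F} (hP : P ≠ 0) :
    tr γ P ≠ 0 := by
  intro h
  apply hP
  rw [← tr_inv_tr γ hγ P, h, map_zero]

/-- The point attached to an exponent vector. -/
def pt (γ : Fin d → Fin n → F) (s : Fin d → ℕ) (i : Fin n) : F := ∏ k, γ k i ^ s k

lemma pt_add (γ : Fin d → Fin n → F) (s t : Fin d → ℕ) (i : Fin n) :
    pt γ (s + t) i = pt γ s i * pt γ t i := by
  unfold pt
  rw [← Finset.prod_mul_distrib]
  apply Finset.prod_congr rfl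
  intro k _
  rw [Pi.add_apply, pow_add]

lemma pt_ne_zero (γ : Fin d → Fin n → F) (hγ : ∀ k i, γ k i ≠ 0) (s : Fin d → ℕ) (i : Fin n) :
    pt γ s i ≠ 0 :=
  Finset.prod_ne_zero_iff.mpr (fun k _ => pow_ne_zero _ (hγ k i))

lemma pt_prod (γ : Fin d → Fin n → F) (s : Fin d → ℕ) (m : Fin n → ℕ) :
    ∏ i, pt γ s i ^ m i = ∏ k, (∏ i, γ k i ^ m i) ^ s k := by
  unfold pt
  simp only [← Finset.prod_pow]
  rw [Finset.prod_comm]
  apply Finset.prod_congr rfl
  intro k _
  apply Finset.prod_congr rfl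
  intro i _
  rw [← pow_mul, ← pow_mul, mul_comm]

/-- Every nonzero character has large rank on the group generated by the `γ k`. -/
def LargeRank (γ : Fin d → Fin n → F) (d₀ : ℕ) : Prop :=
  ∀ χ : Fin n → ℤ, χ ≠ 0 → ∃ I : Finset (Fin d), d₀ ≤ I.card ∧
    ∀ s : Fin d → ℤ, (∀ k, k ∉ I → s k = 0) → ∏ k, (∏ i, γ k i ^ χ i) ^ s k = 1 → s = 0

lemma LargeRank.tail {γ : Fin d → Fin (n + 1) → F} {d₀ : ℕ} (h : LargeRank γ d₀) :
    LargeRank (fun k i => γ k (Fin.succ i)) d₀ := by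
  intro χ hχ
  obtain ⟨I, hI, hI'⟩ := h (Fin.cons 0 χ) (by
    intro h0
    apply hχ
    funext i
    have := congrFun h0 (Fin.succ i)
    simpa using this)
  refine ⟨I, hI, ?_⟩
  intro s hs hprod
  apply hI' s hs
  rw [← hprod]
  apply Finset.prod_congr rfl
  intro k _
  congr 1
  rw [Fin.prod_univ_succ]
  simp

/-- Two exponent vectors which agree off `I` and give the same character value are equal. -/
lemma eq_of_char_eq {γ : Fin d → Fin n → F} (hγ : ∀ k i, γ k i ≠ 0) {m m' : Fin n →₀ ℕ}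
    {I : Finset (Fin d)}
    (hI : ∀ s : Fin d → ℤ, (∀ k, k ∉ I → s k = 0) →
      ∏ k, (∏ i, γ k i ^ ((m i : ℤ) - m' i)) ^ s k = 1 → s = 0)
    {s t : Fin d → ℕ} (hst : ∀ k, k ∉ I → s k = t k) {c : F} (hc : c ≠ 0)
    (h1 : ∏ i, pt γ s i ^ m i = c * ∏ i, pt γ t i ^ m i)
    (h2 : ∏ i, pt γ s i ^ m' i = c * ∏ i, pt γ t i ^ m' i) : s = t := by
  have h3 := hI (fun k => (s k : ℤ) - t k) (fun k hk => by
    have := hst k hk
    simp [this]) (by
    rw [pt_prod, pt_prod] at h1 h2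
    have e : ∀ k, (∏ i, γ k i ^ ((m i : ℤ) - m' i)) ^ ((s k : ℤ) - t k) =
        ((∏ i, γ k i ^ m i) ^ s k / (∏ i, γ k i ^ m i) ^ t k) /
        ((∏ i, γ k i ^ m' i) ^ s k / (∏ i, γ k i ^ m' i) ^ t k) := by
      intro k
      have e1 : ∏ i, γ k i ^ ((m i : ℤ) - m' i) = (∏ i, γ k i ^ m i) / (∏ i, γ k i ^ m' i) := by
        rw [← Finset.prod_div_distrib]
        apply Finset.prod_congr rfl
        intro i _
        rw [zpow_sub₀ (hγ k i), zpow_natCast, zpow_natCast]
      have hm : ∏ i, γ k i ^ m i ≠ 0 := Finset.prod_ne_zero_iff.mpr (fun i _ => pow_ne_zero _ (hγ k i))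
      have hm' : ∏ i, γ k i ^ m' i ≠ 0 := Finset.prod_ne_zero_iff.mpr (fun i _ => pow_ne_zero _ (hγ k i))
      rw [e1, zpow_sub₀ (div_ne_zero hm hm'), zpow_natCast, zpow_natCast, div_pow, div_pow]
      field_simp
    rw [Finset.prod_congr rfl (fun k _ => e k), Finset.prod_div_distrib, Finset.prod_div_distrib,
      Finset.prod_div_distrib, h1, h2]
    have hm : ∀ m : Fin n →₀ ℕ, ∏ k, (∏ i, γ k i ^ m i) ^ t k ≠ 0 := fun m =>
      Finset.prod_ne_zero_iff.mpr (fun k _ => pow_ne_zero _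
        (Finset.prod_ne_zero_iff.mpr (fun i _ => pow_ne_zero _ (hγ k i))))
    rw [mul_div_cancel_right₀ _ (hm m), mul_div_cancel_right₀ _ (hm m'), div_self hc])
  funext k
  have := congrFun h3 k
  simp only [Pi.zero_apply] at this
  omega

end Pool.Agent.Lib.MP_c50dba_nt
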