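import Pool.Agent.Lib.MP_c50dba_nt.TrPoly

set_option autoImplicit false

/-!
An elementary zero estimate on the torus.
-/

namespace Pool.Agent.Lib.MP_c50dba_nt

open MvPolynomial

variable {F : Type*} [Field F] {n d : ℕ}

lemma degreeOf_det_le {σ : Type*} {k : ℕ} (M : Matrix (Fin k) (Fin k) (MvPolynomial σ F)) (x : σ)
    (D : ℕ) (h : ∀ i j, degreeOf x (M i j) ≤ D) : degreeOf x M.det ≤ k * D := by
  classical
  rw [Matrix.det_apply']
  refine (degreeOf_sum_le x _ _).trans ?_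
  apply Finset.sup_le
  intro τ _
  refine (degreeOf_mul_le x _ _).trans ?_
  have h1 : degreeOf x (((Equiv.Perm.sign τ : ℤ) : MvPolynomial σ F)) = 0 := by
    have : (((Equiv.Perm.sign τ : ℤ) : MvPolynomial σ F)) = C ((Equiv.Perm.sign τ : ℤ) : F) := by
      simp
    rw [this, degreeOf_C]
  rw [h1, zero_add]
  refine (degreeOf_prod_le x _ _).trans ?_
  calc ∑ i, degreeOf x (M (τ i) i) ≤ ∑ _i : Fin k, D := Finset.sum_le_sum (fun i _ => h _ _)
    _ = k * D := by simp

lemma degreeOf_resultant_le {σ : Type*} (A B : Polynomial (MvPolynomial σ F)) (x : σ) (D : ℕ)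
    (hA : ∀ i, degreeOf x (A.coeff i) ≤ D) (hB : ∀ i, degreeOf x (B.coeff i) ≤ D) :
    degreeOf x (Polynomial.resultant A B) ≤ (A.natDegree + B.natDegree) * D := by
  unfold Polynomial.resultant
  apply degreeOf_det_le
  intro i j
  unfold Polynomial.sylvester
  rw [Matrix.of_apply]
  refine Fin.addCases (fun j₁ => ?_) (fun j₁ => ?_) j
  · rw [Fin.addCases_left]
    split_ifs
    · exact hB _
    · simp
  · rw [Fin.addCases_right]
    split_ifs
    · exact hA _
    · simp

lemma card_le_of_inj {M : ℕ} {I : Finset (Fin d)} {T : Finset (Fin d → ℕ)}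
    (hT : ∀ s ∈ T, ∀ k, s k < M)
    (hinj : ∀ s ∈ T, ∀ t ∈ T, (∀ k, k ∉ I → s k = t k) → s = t) :
    T.card ≤ M ^ (d - I.card) := by
  classical
  have h1 : (Fintype.piFinset (fun _ : {k // k ∉ I} => Finset.range M)).card = M ^ (d - I.card) := by
    simp [Fintype.card_subtype_compl]
  rw [← h1]
  apply Finset.card_le_card_of_injOn (fun s (k : {k // k ∉ I}) => s k)
  · intro s hs
    rw [Finset.mem_coe] at hs ⊢
    rw [Fintype.mem_piFinset]
    intro k
    exact Finset.mem_range.mpr (hT s hs k)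
  · intro s hs t ht h
    apply hinj s hs t ht
    intro k hk
    exact congrFun h ⟨k, hk⟩

lemma two_monomials {q : MvPolynomial (Fin (n + 1)) F} (h0 : 0 < degreeOf 0 q)
    (hX : ¬ (X 0 : MvPolynomial (Fin (n + 1)) F) ∣ q) :
    ∃ m ∈ q.support, ∃ m' ∈ q.support, m ≠ m' := by
  classical
  have hq : q ≠ 0 := by
    intro h
    rw [h] at h0
    simp at h0
  obtain ⟨m, hm⟩ := support_nonempty.mpr hq
  refine ⟨m, hm, ?_⟩
  by_contra hcon
  push Not at hcon
  have h1 : q = monomial m (coeff m q) := by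
    ext m'
    rw [coeff_monomial]
    split_ifs with h
    · rw [h]
    · by_contra hne
      exact h (hcon m' (mem_support_iff.mpr hne))
  have h2 : degreeOf 0 q = m 0 := by
    rw [h1, degreeOf_monomial_eq _ _ (mem_support_iff.mp hm)]
  apply hX
  rw [h1]
  have h3 : (X 0 : MvPolynomial (Fin (n + 1)) F) = monomial (Finsupp.single 0 1) 1 := rfl
  rw [h3, monomial_dvd_monomial]
  refine ⟨Or.inr ?_, one_dvd _⟩
  rw [Finsupp.single_le_iff]
  omega

lemma associated_coeff {A B : MvPolynomial (Fin n) F} (h : Associated A B) :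
    ∃ c : F, c ≠ 0 ∧ B = C c * A := by
  obtain ⟨u, hu⟩ := h
  obtain ⟨c, hc, hc'⟩ := isUnit_iff_eq_C_of_isReduced.mp u.isUnit
  refine ⟨c, hc.ne_zero, ?_⟩
  rw [← hu, hc', mul_comm]

lemma card_fiber_le {γ : Fin d → Fin (n + 1) → F} (hγ : ∀ k i, γ k i ≠ 0) {d₀ : ℕ}
    (hrank : LargeRank γ d₀) {M : ℕ} (hM : 0 < M) {q : MvPolynomial (Fin (n + 1)) F}
    (h0 : 0 < degreeOf 0 q) (hX : ¬ (X 0 : MvPolynomial (Fin (n + 1)) F) ∣ q)
    {T : Finset (Fin d → ℕ)} (hT : ∀ s ∈ T, ∀ k, s k < M)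
    (hassoc : ∀ s ∈ T, ∀ t ∈ T, Associated (tr (pt γ t) q) (tr (pt γ s) q)) :
    T.card ≤ M ^ (d - d₀) := by
  obtain ⟨m, hm, m', hm', hne⟩ := two_monomials h0 hX
  obtain ⟨I, hI, hI'⟩ := hrank (fun i => (m i : ℤ) - m' i) (by
    intro h
    apply hne
    ext i
    have := congrFun h i
    simp only [Pi.zero_apply] at this
    omega)
  refine (card_le_of_inj (I := I) hT ?_).trans (Nat.pow_le_pow_right hM (by omega))
  intro s hs t ht hst
  obtain ⟨c, hc, hc'⟩ := associated_coeff (hassoc s hs t ht)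
  have key : ∀ m ∈ q.support, ∏ i, pt γ s i ^ m i = c * ∏ i, pt γ t i ^ m i := by
    intro m hm
    have h1 := congrArg (coeff m) hc'
    rw [coeff_C_mul, coeff_tr, coeff_tr] at h1
    have h2 : coeff m q ≠ 0 := mem_support_iff.mp hm
    apply mul_right_cancel₀ h2
    rw [h1]; ring
  exact eq_of_char_eq hγ hI' hst hc (key m hm) (key m' hm')

/-- The case where every translate shares a factor. -/
lemma case_common {γ : Fin d → Fin (n + 1) → F} (hγ : ∀ k i, γ k i ≠ 0) {d₀ : ℕ}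
    (hrank : LargeRank γ d₀) {M L : ℕ} (hM : 0 < M) {P : MvPolynomial (Fin (n + 1)) F}
    (hP : P ≠ 0) (hX : ¬ (X 0 : MvPolynomial (Fin (n + 1)) F) ∣ P) (hL : degreeOf 0 P ≤ L)
    (hcom : ∀ s : Fin d → ℕ, (∀ k, s k < M) → ∃ g : MvPolynomial (Fin (n + 1)) F, Irreducible g ∧
      0 < degreeOf 0 g ∧ g ∣ P ∧ g ∣ tr (pt γ s) P) : M ^ d₀ ≤ L ^ 2 := by
  classical
  obtain ⟨I0, hI0, _⟩ := hrank (fun _ => 1) (by
    intro h
    have := congrFun h 0
    simp at this)
  have hdd : d₀ ≤ d := hI0.trans (by simpa using Finset.card_le_univ I0)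
  set FS := (UniqueFactorizationMonoid.factors P).toFinset.filter (fun q => 0 < degreeOf 0 q) with hFS
  have hFSmem : ∀ q ∈ FS, q ∈ UniqueFactorizationMonoid.factors P ∧ 0 < degreeOf 0 q := by
    intro q hq
    rw [hFS, Finset.mem_filter, Multiset.mem_toFinset] at hq
    exact hq
  have hFSne : ∀ q ∈ FS, q ≠ 0 := fun q hq =>
    (UniqueFactorizationMonoid.irreducible_of_factor q (hFSmem q hq).1).ne_zero
  have hFScard : FS.card ≤ L := by
    have h1 : ∏ q ∈ FS, q ∣ P := by
      have h2 : ∏ q ∈ FS, q ∣ ∏ q ∈ (UniqueFactorizationMonoid.factors P).toFinset, q :=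
        Finset.prod_dvd_prod_of_subset _ _ _ (Finset.filter_subset _ _)
      have h3 := Multiset.toFinset_prod_dvd_prod (UniqueFactorizationMonoid.factors P)
      exact (h2.trans h3).trans (UniqueFactorizationMonoid.factors_prod hP).dvd
    obtain ⟨R, hR⟩ := h1
    have hR0 : R ≠ 0 := by
      intro h
      rw [h, mul_zero] at hR
      exact hP hR
    have h2 : degreeOf 0 (∏ q ∈ FS, q) ≤ degreeOf 0 P := by
      rw [hR, degreeOf_mul_eq (Finset.prod_ne_zero_iff.mpr hFSne) hR0]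
      omega
    rw [degreeOf_prod_eq FS (fun q => q) hFSne] at h2
    calc FS.card = ∑ _q ∈ FS, 1 := by simp
      _ ≤ ∑ q ∈ FS, degreeOf 0 q := Finset.sum_le_sum (fun q hq => (hFSmem q hq).2)
      _ ≤ L := h2.trans hL
  have hdegassoc : ∀ A B : MvPolynomial (Fin (n + 1)) F, Associated A B → A ≠ 0 →
      degreeOf 0 B = degreeOf 0 A := by
    intro A B h hA
    obtain ⟨c, hc, hc'⟩ := associated_coeff h
    rw [hc', degreeOf_mul_eq (by simpa using hc) hA, degreeOf_C, zero_add]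
  -- the pair attached to an exponent vector
  have hpair : ∀ s : Fin d → ℕ, (∀ k, s k < M) → ∃ y ∈ FS ×ˢ FS,
      Associated (tr (pt γ s) y.2) y.1 := by
    intro s hs
    obtain ⟨g, hg, hg0, hgP, hgP'⟩ := hcom s hs
    have hpt : ∀ i, pt γ s i ≠ 0 := pt_ne_zero γ hγ s
    obtain ⟨q, hq, hgq⟩ := UniqueFactorizationMonoid.exists_mem_factors_of_dvd hP hg hgP
    have hpt' : ∀ i, (pt γ s i)⁻¹ ≠ 0 := fun i => inv_ne_zero (hpt i)
    have hh : Irreducible (tr (fun i => (pt γ s i)⁻¹) g) := (irreducible_tr _ hpt').mpr hg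
    have hhP : tr (fun i => (pt γ s i)⁻¹) g ∣ P := by
      have := map_dvd (tr (fun i => (pt γ s i)⁻¹)) hgP'
      rwa [tr_inv_tr _ hpt] at this
    obtain ⟨q', hq', hgq'⟩ := UniqueFactorizationMonoid.exists_mem_factors_of_dvd hP hh hhP
    have h1 : Associated g (tr (pt γ s) q') := by
      have := hgq'.map (tr (pt γ s))
      rwa [tr_tr_inv _ hpt] at this
    refine ⟨(q, q'), ?_, h1.symm.trans hgq⟩
    rw [Finset.mem_product]
    refine ⟨?_, ?_⟩
    · rw [hFS, Finset.mem_filter, Multiset.mem_toFinset]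
      refine ⟨hq, ?_⟩
      rw [hdegassoc g q hgq hg.ne_zero]
      exact hg0
    · rw [hFS, Finset.mem_filter, Multiset.mem_toFinset]
      refine ⟨hq', ?_⟩
      rw [hdegassoc _ q' hgq' hh.ne_zero, degreeOf_tr _ hpt']
      exact hg0
  choose! y hy hy' using hpair
  set box := Fintype.piFinset (fun _ : Fin d => Finset.range M) with hbox
  have hboxmem : ∀ s ∈ box, ∀ k, s k < M := by
    intro s hs k
    rw [hbox, Fintype.mem_piFinset] at hs
    exact Finset.mem_range.mp (hs k)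
  have hfib : ∀ b ∈ FS ×ˢ FS, (box.filter (fun s => y s = b)).card ≤ M ^ (d - d₀) := by
    intro b hb
    rw [Finset.mem_product] at hb
    have hb2 := hFSmem b.2 hb.2
    apply card_fiber_le hγ hrank hM hb2.2 (q := b.2)
    · intro h
      exact hX (h.trans (UniqueFactorizationMonoid.dvd_of_mem_factors hb2.1))
    · intro s hs
      exact hboxmem s (Finset.mem_filter.mp hs).1
    · intro s hs t ht
      obtain ⟨hs1, hs2⟩ := Finset.mem_filter.mp hs
      obtain ⟨ht1, ht2⟩ := Finset.mem_filter.mp ht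
      have h1 := hy' s (hboxmem s hs1)
      have h2 := hy' t (hboxmem t ht1)
      rw [hs2] at h1
      rw [ht2] at h2
      exact h2.trans h1.symm
  have hcard := Finset.card_le_mul_card_image_of_maps_to (s := box) (t := FS ×ˢ FS) (f := y)
    (fun s hs => hy s (hboxmem s hs)) _ hfib
  have hboxcard : box.card = M ^ d := by simp [hbox]
  rw [hboxcard, Finset.card_product] at hcard
  have h1 : M ^ d = M ^ (d - d₀) * M ^ d₀ := by
    rw [← pow_add]; congr 1; omega
  rw [h1] at hcard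
  have h2 : 0 < M ^ (d - d₀) := pow_pos hM _
  have h3 := Nat.le_of_mul_le_mul_left hcard h2
  calc M ^ d₀ ≤ FS.card * FS.card := h3
    _ ≤ L * L := Nat.mul_le_mul hFScard hFScard
    _ = L ^ 2 := by ring

end Pool.Agent.Lib.MP_c50dba_nt
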